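import Mathlib

open MeasureTheory ProbabilityTheory Filter Topology Set
open scoped NNReal ENNReal InnerProductSpace

namespace Pool.Agent.H87.GMC

variable {Ω : Type*} [MeasurableSpace Ω] {P : Measure Ω}

lemma norm_toLp_sq {f : Ω → ℝ} (hf : MemLp f 2 P) : ‖hf.toLp f‖ ^ 2 = ∫ a, f a ^ 2 ∂P := by
  rw [← real_inner_self_eq_norm_sq, L2.inner_def]
  apply integral_congr_ae
  filter_upwards [hf.coeFn_toLp] with a ha
  rw [ha]
  simp [pow_two]

/-- Completeness of `L²`, in the form of functions. -/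
lemma exists_L2_limit [IsProbabilityMeasure P]
    {X : ℕ → Ω → ℝ} (h0 : ∀ n a, 0 ≤ X n a)
    (hL : ∀ n, MemLp (X n) 2 P) {D : ℕ → ℝ} (hD : Tendsto D atTop (𝓝 0))
    (hC : ∀ n m, m ≤ n → ∫ a, (X n a - X m a) ^ 2 ∂P ≤ D m) :
    ∃ M : Ω → ℝ, Measurable M ∧ (∀ a, 0 ≤ M a) ∧ MemLp M 2 P ∧
      ∀ m, ∫ a, (X m a - M a) ^ 2 ∂P ≤ D m := by
  have hd : ∀ n m, m ≤ n → dist ((hL n).toLp) ((hL m).toLp) ≤ √(D m) := by
    intro n m hnm
    rw [dist_eq_norm_sub, ← MemLp.toLp_sub]
    apply Real.le_sqrt_of_sq_le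
    rw [norm_toLp_sq]
    exact hC n m hnm
  have hcs : CauchySeq (fun n => (hL n).toLp (X n)) := by
    apply cauchySeq_of_le_tendsto_0' (fun n => √(D n))
    · intro n m hnm
      rw [dist_comm]
      exact hd m n hnm
    · have := (Real.continuous_sqrt.tendsto 0).comp hD
      rw [Real.sqrt_zero] at this
      exact this
  obtain ⟨L, hLim⟩ := cauchySeq_tendsto_of_complete hcs
  have h1 : ∀ m, dist L ((hL m).toLp) ≤ √(D m) := by
    intro m
    have h2 : Tendsto (fun n => dist ((hL n).toLp (X n)) ((hL m).toLp)) atTop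
        (𝓝 (dist L ((hL m).toLp))) := hLim.dist tendsto_const_nhds
    apply le_of_tendsto h2
    filter_upwards [eventually_ge_atTop m] with n hn
    exact hd n m hn
  have hLm : MemLp (L : Ω → ℝ) 2 P := Lp.memLp L
  refine ⟨fun a => |L a|, ?_, fun a => abs_nonneg _, hLm.norm, ?_⟩
  · exact (Lp.stronglyMeasurable L).measurable.norm
  · intro m
    have h2 : ∫ a, (X m a - L a) ^ 2 ∂P = dist L ((hL m).toLp) ^ 2 := by
      have h3 : L = hLm.toLp L := (Lp.toLp_coeFn L _).symm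
      conv_rhs => rw [h3]
      rw [dist_comm, dist_eq_norm_sub, ← MemLp.toLp_sub, norm_toLp_sq]
      rfl
    have h4 : dist L ((hL m).toLp) ^ 2 ≤ D m := by
      have h5 := h1 m
      have h6 : 0 ≤ dist L ((hL m).toLp) := dist_nonneg
      have h7 : 0 ≤ D m := by
        have := hC m m le_rfl
        simpa using this
      calc dist L ((hL m).toLp) ^ 2 ≤ √(D m) ^ 2 := by gcongr
        _ = D m := Real.sq_sqrt h7
    rw [← h2] at h4
    refine le_trans ?_ h4
    apply integral_mono_of_nonneg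
    · filter_upwards with a
      positivity
    · exact ((hL m).sub hLm).integrable_sq
    · filter_upwards with a
      have h8 := abs_abs_sub_abs_le (X m a) (L a)
      rw [abs_of_nonneg (h0 m a)] at h8
      rw [← sq_abs (X m a - |L a|), ← sq_abs (X m a - L a)]
      gcongr

/-- Convergence of second moments of differences implies convergence in measure. -/
lemma tendstoInMeasure_of_sq [IsProbabilityMeasure P] {ι : Type*} {u : Filter ι}
    {Y : ι → Ω → ℝ} {M : Ω → ℝ} (hI : ∀ i, Integrable (fun a => (Y i a - M a) ^ 2) P)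
    (h : ∀ δ > 0, ∀ᶠ i in u, ∫ a, (Y i a - M a) ^ 2 ∂P ≤ δ) : TendstoInMeasure P Y u M := by
  rw [tendstoInMeasure_iff_measureReal_dist]
  intro ε hε
  rw [tendsto_order]
  constructor
  · intro b hb
    filter_upwards with i
    exact hb.trans_le measureReal_nonneg
  · intro b hb
    filter_upwards [h (ε ^ 2 * b / 2) (by positivity)] with i hi
    have h1 := mul_meas_ge_le_integral_of_nonneg (μ := P) (f := fun a => (Y i a - M a) ^ 2)
      (Eventually.of_forall fun a => sq_nonneg _) (hI i) (ε ^ 2)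
    have h2 : {a | ε ≤ dist (Y i a) (M a)} ⊆ {a | ε ^ 2 ≤ (Y i a - M a) ^ 2} := by
      intro a ha
      simp only [mem_ofPred_eq] at ha ⊢
      rw [Real.dist_eq] at ha
      rw [← sq_abs (Y i a - M a)]
      gcongr
    have h3 : P.real {a | ε ≤ dist (Y i a) (M a)} ≤ P.real {a | ε ^ 2 ≤ (Y i a - M a) ^ 2} :=
      measureReal_mono h2
    have h4 : ε ^ 2 * P.real {a | ε ^ 2 ≤ (Y i a - M a) ^ 2} < ε ^ 2 * b := by
      have : 0 < ε ^ 2 * b := by positivity
      linarith
    have h5 := lt_of_mul_lt_mul_left h4 (by positivity)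
    linarith

lemma tendsto_integral_of_measure [IsProbabilityMeasure P] {ι : Type*} {u : Filter ι}
    [u.IsCountablyGenerated] {Y : ι → Ω → ℝ} {M : Ω → ℝ} (h : TendstoInMeasure P Y u M)
    (hY : ∀ i, Measurable (Y i)) (hM : Measurable M) (F : BoundedContinuousFunction ℝ ℝ) :
    Tendsto (fun i => ∫ a, F (Y i a) ∂P) u (𝓝 (∫ a, F (M a) ∂P)) := by
  have h1 := h.tendstoInDistribution_of_aemeasurable (fun i => (hY i).aemeasurable) hM.aemeasurable
  have h2 := (ProbabilityMeasure.tendsto_iff_forall_integral_tendsto.mp h1.tendsto) F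
  simp only [ProbabilityMeasure.coe_mk] at h2
  have h3 : ∀ i, ∫ x, F x ∂(P.map (Y i)) = ∫ a, F (Y i a) ∂P := by
    intro i
    exact integral_map (hY i).aemeasurable F.continuous.aestronglyMeasurable
  simp_rw [h3] at h2
  rw [integral_map hM.aemeasurable F.continuous.aestronglyMeasurable] at h2
  exact h2

lemma fatou_pow [IsProbabilityMeasure P] {X : ℕ → Ω → ℝ} {M : Ω → ℝ}
    (hX : ∀ n, Measurable (X n)) (hM : Measurable M)
    (hT : TendstoInMeasure P X atTop M) {k : ℕ} (hk : Even k) {b : ℝ}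
    (i4 : ∀ n, Integrable (fun a => X n a ^ k) P) (h4 : ∀ n, ∫ a, X n a ^ k ∂P ≤ b) :
    Integrable (fun a => M a ^ k) P ∧ ∫ a, M a ^ k ∂P ≤ b := by
  obtain ⟨ns, -, hns⟩ := hT.exists_seq_tendsto_ae
  have h1 : ∫⁻ a, ENNReal.ofReal (M a ^ k) ∂P ≤ ENNReal.ofReal b := by
    calc ∫⁻ a, ENNReal.ofReal (M a ^ k) ∂P
        = ∫⁻ a, liminf (fun i => ENNReal.ofReal (X (ns i) a ^ k)) atTop ∂P := by
          apply lintegral_congr_ae
          filter_upwards [hns] with a ha
          exact ((ENNReal.continuous_ofReal.tendsto _).comp (ha.pow k)).liminf_eq.symm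
      _ ≤ liminf (fun i => ∫⁻ a, ENNReal.ofReal (X (ns i) a ^ k) ∂P) atTop := by
          apply lintegral_liminf_le
          intro n
          have := hX (ns n)
          fun_prop
      _ ≤ ENNReal.ofReal b := by
          apply liminf_le_of_le
          · isBoundedDefault
          · intro c hc
            obtain ⟨n, hn⟩ := hc.exists
            refine hn.trans ?_
            rw [← ofReal_integral_eq_lintegral_ofReal (i4 _)
              (Eventually.of_forall fun a => hk.pow_nonneg _)]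
            exact ENNReal.ofReal_le_ofReal (h4 _)
  have h2 : Integrable (fun a => M a ^ k) P := by
    refine ⟨by fun_prop, ?_⟩
    rw [hasFiniteIntegral_iff_ofReal (Eventually.of_forall fun a => hk.pow_nonneg _)]
    exact h1.trans_lt ENNReal.ofReal_lt_top
  refine ⟨h2, ?_⟩
  rw [← ofReal_integral_eq_lintegral_ofReal h2
    (Eventually.of_forall fun a => hk.pow_nonneg _)] at h1
  have hb : 0 ≤ b := (integral_nonneg (fun a => hk.pow_nonneg _)).trans (h4 0)
  exact (ENNReal.ofReal_le_ofReal_iff hb).mp h1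

/-- moments of the limit -/
lemma limit_moments [IsProbabilityMeasure P] {X : ℕ → Ω → ℝ} {M : Ω → ℝ}
    (h0 : ∀ n a, 0 ≤ X n a) (hM0 : ∀ a, 0 ≤ M a) (hX : ∀ n, Measurable (X n)) (hM : Measurable M)
    (hI : ∀ i, Integrable (fun a => (X i a - M a) ^ 2) P)
    (h : ∀ δ > 0, ∀ᶠ i in atTop, ∫ a, (X i a - M a) ^ 2 ∂P ≤ δ)
    {m₁ b₂ a₃ b₄ : ℝ}
    (i4 : ∀ n, Integrable (fun a => X n a ^ 4) P) (h4 : ∀ n, ∫ a, X n a ^ 4 ∂P ≤ b₄)
    (h2 : ∀ n, ∫ a, X n a ^ 2 ∂P ≤ b₂) (h3 : ∀ᶠ n in atTop, a₃ ≤ ∫ a, X n a ^ 3 ∂P)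
    (h1 : ∀ n, ∫ a, X n a ∂P = m₁) :
    Integrable (fun a => M a ^ 4) P ∧ ∫ a, M a ^ 4 ∂P ≤ b₄ ∧ ∫ a, M a ^ 2 ∂P ≤ b₂ ∧
      a₃ ≤ ∫ a, M a ^ 3 ∂P ∧ ∫ a, M a ∂P = m₁ := by
  have hT := tendstoInMeasure_of_sq hI h
  obtain ⟨iM4, hM4⟩ := fatou_pow hX hM hT (by decide : Even 4) i4 h4
  -- integrability of lower powers
  have low : ∀ {Z : Ω → ℝ}, Measurable Z → (∀ a, 0 ≤ Z a) → Integrable (fun a => Z a ^ 4) P →
      ∀ k : ℕ, k ≤ 4 → Integrable (fun a => Z a ^ k) P := by
    intro Z hZ hZ0 hZ4 k hk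
    refine Integrable.mono' (hZ4.add (integrable_const (1:ℝ))) (by fun_prop) ?_
    filter_upwards with a
    rw [Real.norm_of_nonneg (pow_nonneg (hZ0 a) k)]
    simp only [Pi.add_apply]
    rcases le_total (Z a) 1 with h1 | h1
    · have := pow_le_one₀ (n := k) (hZ0 a) h1
      have := pow_nonneg (hZ0 a) 4
      linarith
    · have := pow_le_pow_right₀ h1 hk
      linarith
  have iX : ∀ n k : ℕ, k ≤ 4 → Integrable (fun a => X n a ^ k) P := fun n =>
    low (hX n) (h0 n) (i4 n)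
  have iM : ∀ k : ℕ, k ≤ 4 → Integrable (fun a => M a ^ k) P := low hM hM0 iM4
  obtain ⟨-, hM2⟩ := fatou_pow hX hM hT (by decide : Even 2) (fun n => iX n 2 (by norm_num)) h2
  refine ⟨iM4, hM4, hM2, ?_, ?_⟩
  · apply le_of_forall_pos_le_add
    intro η hη
    set b := max b₄ 0 with hb
    have hb0 : 0 ≤ b := le_max_right _ _
    set t : ℝ := η / (1 + 3 * b) with ht
    have ht0 : 0 < t := by positivity
    obtain ⟨n, hn, hn3⟩ := ((h (t ^ 2) (by positivity)).and h3).exists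
    have h5 : ∫ a, X n a ^ 3 ∂P ≤ ∫ a, (M a ^ 3 + (3/4) * t⁻¹ * (X n a - M a) ^ 2
        + (3/2) * t * (X n a ^ 4 + M a ^ 4)) ∂P := by
      apply integral_mono (iX n 3 (by norm_num))
      · exact ((iM 3 (by norm_num)).add ((hI n).const_mul _)).add
          (((i4 n).add iM4).const_mul _)
      · intro a
        simp only
        have hx := h0 n a
        have hm := hM0 a
        set x := X n a with hxdef
        set m := M a with hmdef
        have e1 : x ^ 3 - m ^ 3 ≤ (3/2) * (|x - m| * (x ^ 2 + m ^ 2)) := by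
          have e2 : x ^ 3 - m ^ 3 = (x - m) * (x ^ 2 + x * m + m ^ 2) := by ring
          rw [e2]
          have e3 : (x - m) * (x ^ 2 + x * m + m ^ 2) ≤ |x - m| * (x ^ 2 + x * m + m ^ 2) := by
            apply mul_le_mul_of_nonneg_right (le_abs_self _)
            positivity
          have e4 : |x - m| * (x ^ 2 + x * m + m ^ 2) ≤ |x - m| * ((3/2) * (x ^ 2 + m ^ 2)) := by
            apply mul_le_mul_of_nonneg_left _ (abs_nonneg _)
            nlinarith [sq_nonneg (x - m)]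
          linarith
        have e5 : |x - m| * (x ^ 2 + m ^ 2) ≤ (t⁻¹ * (x - m) ^ 2 + t * (x ^ 2 + m ^ 2) ^ 2) / 2 := by
          have e6 : 0 ≤ t⁻¹ * (|x - m| - t * (x ^ 2 + m ^ 2)) ^ 2 := by positivity
          have e7 : t⁻¹ * (|x - m| - t * (x ^ 2 + m ^ 2)) ^ 2 = t⁻¹ * (x - m) ^ 2
              - 2 * (|x - m| * (x ^ 2 + m ^ 2)) + t * (x ^ 2 + m ^ 2) ^ 2 := by
            have : t⁻¹ * (|x - m| - t * (x ^ 2 + m ^ 2)) ^ 2 = t⁻¹ * |x - m| ^ 2
              - 2 * ((t⁻¹ * t) * (|x - m| * (x ^ 2 + m ^ 2)))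
              + (t⁻¹ * t) * (t * (x ^ 2 + m ^ 2) ^ 2) := by ring
            rw [this, inv_mul_cancel₀ ht0.ne', sq_abs]
            ring
          linarith
        have e8 : (x ^ 2 + m ^ 2) ^ 2 ≤ 2 * (x ^ 4 + m ^ 4) := by
          nlinarith [sq_nonneg (x ^ 2 - m ^ 2)]
        have e9 : t * (x ^ 2 + m ^ 2) ^ 2 ≤ t * (2 * (x ^ 4 + m ^ 4)) :=
          mul_le_mul_of_nonneg_left e8 ht0.le
        linarith
    have j1 := (iM 3 (by norm_num)).add ((hI n).const_mul ((3/4) * t⁻¹))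
    have j2 := ((i4 n).add iM4).const_mul ((3/2) * t)
    have h6 : ∫ a, (M a ^ 3 + (3/4) * t⁻¹ * (X n a - M a) ^ 2
        + (3/2) * t * (X n a ^ 4 + M a ^ 4)) ∂P = ∫ a, M a ^ 3 ∂P
          + (3/4) * t⁻¹ * ∫ a, (X n a - M a) ^ 2 ∂P
          + (3/2) * t * (∫ a, X n a ^ 4 ∂P + ∫ a, M a ^ 4 ∂P) := by
      rw [integral_add, integral_add, integral_const_mul, integral_const_mul, integral_add]
      · exact i4 n
      · exact iM4
      · exact iM 3 (by norm_num)
      · exact (hI n).const_mul _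
      · exact j1
      · exact j2
    rw [h6] at h5
    have h7 : (3/4) * t⁻¹ * ∫ a, (X n a - M a) ^ 2 ∂P ≤ (3/4) * t := by
      calc (3/4) * t⁻¹ * ∫ a, (X n a - M a) ^ 2 ∂P ≤ (3/4) * t⁻¹ * t ^ 2 := by gcongr
        _ = (3/4) * t := by field_simp
    have h8 : (3/2) * t * (∫ a, X n a ^ 4 ∂P + ∫ a, M a ^ 4 ∂P) ≤ (3/2) * t * (b + b) := by
      have e1 : ∫ a, X n a ^ 4 ∂P ≤ b := (h4 n).trans (le_max_left _ _)
      have e2 : ∫ a, M a ^ 4 ∂P ≤ b := hM4.trans (le_max_left _ _)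
      gcongr
    have h9 : t * (1 + 3 * b) = η := by
      rw [ht]; field_simp
    nlinarith
  · have key : ∀ δ > 0, |m₁ - ∫ a, M a ∂P| ≤ δ := by
      intro δ hδ
      obtain ⟨n, hn⟩ := (h (δ ^ 2) (by positivity)).exists
      have iX1 : Integrable (X n) P := by simpa using iX n 1 (by norm_num)
      have iM1 : Integrable M P := by simpa using iM 1 (by norm_num)
      rw [← h1 n, ← integral_sub iX1 iM1]
      refine (abs_integral_le_integral_abs).trans ?_
      have h5 : ∫ a, |X n a - M a| ∂P ≤ ∫ a, ((1/2) * δ⁻¹ * (X n a - M a) ^ 2 + δ / 2) ∂P := by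
        apply integral_mono (iX1.sub iM1).abs (((hI n).const_mul _).add (integrable_const _))
        intro a
        simp only [Pi.add_apply, Pi.sub_apply]
        have e6 : 0 ≤ δ⁻¹ * (|X n a - M a| - δ) ^ 2 := by positivity
        have e7 : δ⁻¹ * (|X n a - M a| - δ) ^ 2
            = δ⁻¹ * (X n a - M a) ^ 2 - 2 * |X n a - M a| + δ := by
          have : δ⁻¹ * (|X n a - M a| - δ) ^ 2 = δ⁻¹ * |X n a - M a| ^ 2
            - 2 * ((δ⁻¹ * δ) * |X n a - M a|) + (δ⁻¹ * δ) * δ := by ring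
          rw [this, inv_mul_cancel₀ hδ.ne', sq_abs]
          ring
        linarith
      refine h5.trans ?_
      rw [integral_add ((hI n).const_mul _) (integrable_const _), integral_const_mul,
        integral_const]
      simp only [probReal_univ, smul_eq_mul, one_mul]
      have h7 : (1/2) * δ⁻¹ * ∫ a, (X n a - M a) ^ 2 ∂P ≤ (1/2) * δ := by
        calc (1/2) * δ⁻¹ * ∫ a, (X n a - M a) ^ 2 ∂P ≤ (1/2) * δ⁻¹ * δ ^ 2 := by gcongr
          _ = (1/2) * δ := by field_simp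
      linarith
    have h5 : |m₁ - ∫ a, M a ∂P| ≤ 0 := le_of_forall_pos_le_add (by simpa using key)
    have h6 := abs_nonpos_iff.mp h5
    linarith

end Pool.Agent.H87.GMC
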