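import Mathlib

/-!
# Gaussian multiplicative chaos: definitions

Conventions of the problem: `g` is a positive-definite function on `ℝ^d` of the form
`log^+ (1/|x|) + h(x)` with `h` bounded and continuous, `θ` is a nonnegative positive-definite bump
function of integral one, `θ_ε(z) = ε^{-d} θ(z/ε)`, and the regularised field at scale `ε` is the
stationary Gaussian field with covariance `μ (θ_ε ⋆ g)(x - y)` and with mean equal to minus half of
its variance.  The total mass is the limit in law, as `ε → 0`, of `∫_D φ(x) exp(ω_ε(x)) dx`.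
-/

open MeasureTheory ProbabilityTheory Filter Topology
open scoped NNReal ENNReal

namespace Pool.Agent.H87.GMC

/-- Euclidean space of dimension `d`. -/
abbrev Eu (d : ℕ) := EuclideanSpace ℝ (Fin d)

/-- A real function `f` on `ℝ^d` is positive definite: it is even, and
`∬ u(x) f(x - y) u(y) dy dx ≥ 0` for every continuous compactly supported `u`. (This is the notion
used for functions with an integrable singularity at the origin; for continuous functions it is
the classical one.) -/
def IsPosDef {d : ℕ} (f : Eu d → ℝ) : Prop :=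
  (∀ x, f (-x) = f x) ∧
    ∀ u : Eu d → ℝ, Continuous u → HasCompactSupport u → 0 ≤ ∫ x, ∫ y, u x * f (x - y) * u y

/-- The admissible covariance functions: `g` is positive definite and
`g(x) = log^+ (1/|x|) + h(x)` for `x ≠ 0`, with `h` bounded and continuous. -/
def IsKernel {d : ℕ} (g : Eu d → ℝ) : Prop :=
  IsPosDef g ∧ ∃ h : Eu d → ℝ, Continuous h ∧ (∃ C, ∀ x, |h x| ≤ C) ∧
    ∀ x, x ≠ 0 → g x = max (Real.log (1 / ‖x‖)) 0 + h x

/-- The admissible bump functions: `θ ≥ 0` is continuous, positive definite, has integral one and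
decays faster than every power at infinity. -/
structure IsBump {d : ℕ} (θ : Eu d → ℝ) : Prop where
  continuous : Continuous θ
  nonneg : ∀ x, 0 ≤ θ x
  posDef : IsPosDef θ
  integral_eq_one : ∫ x, θ x = 1
  decay : ∀ k : ℕ, ∃ C : ℝ, ∀ x, ‖x‖ ^ k * θ x ≤ C

/-- The mollification `(θ_ε ⋆ g)(x)`, where `θ_ε(z) = ε^{-d} θ(z/ε)`. -/
noncomputable def mollify {d : ℕ} (θ : Eu d → ℝ) (ε : ℝ) (g : Eu d → ℝ) (x : Eu d) : ℝ :=
  ∫ z, ε⁻¹ ^ d * θ (ε⁻¹ • z) * g (x - z)

/-- `ω` is (a jointly measurable version of) the stationary Gaussian process on `ℝ^d`, defined on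
the probability space `(Ω, P)`, with covariance `Cov(ω(x), ω(y)) = K(x - y)` and
`E ω(x) = - Var(ω(x)) / 2`. -/
structure IsField {d : ℕ} {Ω : Type*} [MeasurableSpace Ω] (P : Measure Ω) (ω : Eu d → Ω → ℝ)
    (K : Eu d → ℝ) : Prop where
  gaussian : IsGaussianProcess ω P
  measurable : Measurable (Function.uncurry ω)
  cov : ∀ x y, cov[ω x, ω y; P] = K (x - y)
  mean : ∀ x, ∫ a, ω x a ∂P = -(1/2) * Var[ω x; P]

/-- The regularised mass `∫_D φ(x) e^{ω(x)} dx`. -/
noncomputable def mass {d : ℕ} {Ω : Type*} (D : Set (Eu d)) (φ : Eu d → ℝ) (ω : Eu d → Ω → ℝ)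
    (a : Ω) : ℝ := ∫ x in D, φ x * Real.exp (ω x a)

/-- `ν` is the law of the total mass `∫_D φ dM_μ` of the chaos with covariance function `g` and
intermittency parameter `μ`: for every admissible bump function `θ` the regularised fields exist,
and for every choice of them the regularised masses converge in law to `ν` as `ε → 0`. -/
structure IsTotalMassLaw {d : ℕ} (g : Eu d → ℝ) (μ : ℝ) (D : Set (Eu d)) (φ : Eu d → ℝ)
    (ν : Measure ℝ) : Prop where
  isProbabilityMeasure : IsProbabilityMeasure ν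
  exists_field : ∀ θ : Eu d → ℝ, IsBump θ → ∀ ε : ℝ, 0 < ε →
    ∃ (Ω : Type) (_ : MeasurableSpace Ω) (P : Measure Ω) (ω : Eu d → Ω → ℝ),
      IsProbabilityMeasure P ∧ IsField P ω (fun z => μ * mollify θ ε g z)
  tendsto : ∀ θ : Eu d → ℝ, IsBump θ →
    ∀ (Ω : ℝ → Type) (_ : ∀ ε, MeasurableSpace (Ω ε)) (P : ∀ ε, Measure (Ω ε))
      (ω : ∀ ε, Eu d → Ω ε → ℝ),
      (∀ ε, 0 < ε → IsField (P ε) (ω ε) (fun z => μ * mollify θ ε g z)) →
      ∀ F : BoundedContinuousFunction ℝ ℝ,
        Tendsto (fun ε => ∫ a, F (mass D φ (ω ε) a) ∂(P ε)) (𝓝[>] 0) (𝓝 (∫ m, F m ∂ν))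

/-- A law `ρ` on the real line is infinitely divisible if for every `n ≥ 1` it is the law of a sum
of `n` independent identically distributed random variables. -/
def IsInfDiv (ρ : Measure ℝ) : Prop :=
  ∀ n : ℕ, 1 ≤ n → ∃ (Ω : Type) (_ : MeasurableSpace Ω) (P : Measure Ω) (Y : Fin n → Ω → ℝ),
    IsProbabilityMeasure P ∧ (∀ i, Measurable (Y i)) ∧ iIndepFun Y P ∧
      (∀ i j, IdentDistrib (Y i) (Y j) P P) ∧ P.map (fun a => ∑ i, Y i a) = ρ

end Pool.Agent.H87.GMC
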