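import Mathlib

open MeasureTheory Filter Topology Set
open scoped NNReal ENNReal

namespace Pool.Agent.H87.GMC

/-- The logarithmic part of the kernel as a function of the distance. -/
noncomputable def G0 (r : ℝ) : ℝ := ∫ u in Ioi (1:ℝ), Real.exp (-(u * r) ^ 2 / 2) / u

lemma G0_integrand_le {r : ℝ} {u : ℝ} (hu : 1 < u) :
    Real.exp (-(u * r) ^ 2 / 2) / u ≤ Real.exp (-(r ^ 2 / 2) * u) := by
  have h1 : Real.exp (-(u * r) ^ 2 / 2) ≤ Real.exp (-(r ^ 2 / 2) * u) := by
    apply Real.exp_le_exp.mpr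
    have : u ≤ u ^ 2 := by nlinarith
    nlinarith [sq_nonneg r, mul_nonneg (sq_nonneg r) (sub_nonneg.mpr this)]
  calc Real.exp (-(u * r) ^ 2 / 2) / u ≤ Real.exp (-(u * r) ^ 2 / 2) :=
        div_le_self (Real.exp_pos _).le hu.le
    _ ≤ _ := h1

lemma G0_integrableOn {r : ℝ} (hr : 0 < r) :
    IntegrableOn (fun u => Real.exp (-(u * r) ^ 2 / 2) / u) (Ioi 1) := by
  have h1 := integrableOn_exp_mul_Ioi (a := -(r ^ 2 / 2)) (by have := sq_pos_of_pos hr; linarith) 1
  refine Integrable.mono' h1 ?_ ?_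
  · apply Measurable.aestronglyMeasurable
    fun_prop
  · filter_upwards [self_mem_ae_restrict measurableSet_Ioi] with u hu
    have hu' : (1:ℝ) < u := hu
    rw [Real.norm_of_nonneg (by positivity)]
    exact G0_integrand_le hu'

lemma G0_nonneg (r : ℝ) : 0 ≤ G0 r := by
  apply setIntegral_nonneg measurableSet_Ioi
  intro u hu
  have hu' : (1:ℝ) < u := hu
  positivity

lemma G0_le {r : ℝ} (hr : 0 < r) : G0 r ≤ 2 / r ^ 2 * Real.exp (-r ^ 2 / 2) := by
  have hneg : -(r ^ 2 / 2) < 0 := by have := sq_pos_of_pos hr; linarith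
  have h1 := integrableOn_exp_mul_Ioi hneg 1
  have h2 : G0 r ≤ ∫ u in Ioi (1:ℝ), Real.exp (-(r ^ 2 / 2) * u) := by
    apply setIntegral_mono_on (G0_integrableOn hr) h1 measurableSet_Ioi
    intro u hu
    exact G0_integrand_le hu
  rw [integral_exp_mul_Ioi hneg] at h2
  refine h2.trans (le_of_eq ?_)
  rw [mul_one]
  have : r ≠ 0 := hr.ne'
  field_simp

lemma G0_le_of_one_le {r : ℝ} (hr : 1 ≤ r) : G0 r ≤ 2 * Real.exp (-r ^ 2 / 2) := by
  have h1 := G0_le (lt_of_lt_of_le one_pos hr)
  refine h1.trans ?_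
  apply mul_le_mul_of_nonneg_right _ (Real.exp_pos _).le
  rw [div_le_iff₀ (by positivity)]
  nlinarith

lemma G0_eq {r : ℝ} (hr : 0 < r) : G0 r = ∫ s in Ioi r, Real.exp (-s ^ 2 / 2) / s := by
  have h1 := integral_comp_mul_left_Ioi (fun s => Real.exp (-s ^ 2 / 2) / s) 1 hr
  rw [mul_one] at h1
  have h2 : ∫ s in Ioi r, Real.exp (-s ^ 2 / 2) / s
      = r * ∫ x in Ioi (1:ℝ), Real.exp (-(r * x) ^ 2 / 2) / (r * x) := by
    rw [h1, smul_eq_mul, ← mul_assoc, mul_inv_cancel₀ hr.ne', one_mul]
  rw [h2, ← integral_const_mul]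
  unfold G0
  apply setIntegral_congr_fun measurableSet_Ioi
  intro u hu
  have hu' : (1:ℝ) < u := hu
  have : u ≠ 0 := by positivity
  have : r ≠ 0 := hr.ne'
  simp only
  rw [mul_comm u r]
  field_simp

lemma expdiv_integrableOn {r : ℝ} (hr : 0 < r) :
    IntegrableOn (fun s : ℝ => Real.exp (-s ^ 2 / 2) / s) (Ioi r) := by
  have h1 := G0_integrableOn hr
  have h2 := (integrableOn_Ioi_comp_mul_left_iff (fun s : ℝ => Real.exp (-s ^ 2 / 2) / s) 1 hr)
  rw [mul_one] at h2
  rw [← h2]
  have h3 : IntegrableOn (fun u => r⁻¹ * (Real.exp (-(u * r) ^ 2 / 2) / u)) (Ioi 1) :=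
    h1.const_mul _
  refine h3.congr_fun ?_ measurableSet_Ioi
  intro u hu
  have hu' : (1:ℝ) < u := hu
  have : u ≠ 0 := by positivity
  have : r ≠ 0 := hr.ne'
  simp only
  rw [mul_comm u r]
  field_simp

/-- derivative of the correction term -/
noncomputable def bfun (s : ℝ) : ℝ :=
  if s ≤ 0 then 0 else if s ≤ 1 then (1 - Real.exp (-s ^ 2 / 2)) / s
    else -(Real.exp (-s ^ 2 / 2) / s)

lemma measurable_bfun : Measurable bfun := by
  unfold bfun
  apply Measurable.ite measurableSet_Iic measurable_const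
  apply Measurable.ite measurableSet_Iic
  · fun_prop
  · fun_prop

lemma abs_bfun_le (s : ℝ) : |bfun s| ≤ 1 := by
  unfold bfun
  split_ifs with h1 h2
  · simp
  · have hs : 0 < s := not_le.mp h1
    have h3 : 1 - s ^ 2 / 2 ≤ Real.exp (-s ^ 2 / 2) := by
      have := Real.add_one_le_exp (-s ^ 2 / 2)
      linarith
    have h4 : Real.exp (-s ^ 2 / 2) ≤ 1 := Real.exp_le_one_iff.mpr (by nlinarith)
    rw [abs_of_nonneg (div_nonneg (by linarith) hs.le), div_le_one hs]
    nlinarith
  · have hs : 1 < s := not_le.mp h2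
    have h4 : Real.exp (-s ^ 2 / 2) ≤ 1 := Real.exp_le_one_iff.mpr (by nlinarith)
    rw [abs_neg, abs_of_nonneg (by positivity), div_le_one (by linarith)]
    linarith

lemma intervalIntegrable_bfun (a b : ℝ) : IntervalIntegrable bfun volume a b := by
  apply (intervalIntegrable_const (c := (1:ℝ))).mono_fun measurable_bfun.aestronglyMeasurable
  filter_upwards with s
  rw [Real.norm_eq_abs, Real.norm_eq_abs, abs_one]
  exact abs_bfun_le s

/-- The bounded continuous correction. -/
noncomputable def h0 (r : ℝ) : ℝ := G0 1 + ∫ s in (1:ℝ)..r, bfun s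

lemma continuous_h0 : Continuous h0 := by
  unfold h0
  exact continuous_const.add (intervalIntegral.continuous_primitive intervalIntegrable_bfun 1)

lemma G0_eq_log_add {r : ℝ} (hr : 0 < r) : G0 r = max (Real.log (1 / r)) 0 + h0 r := by
  unfold h0
  rcases le_total r 1 with h1 | h1
  · -- r ≤ 1
    have hlog : 0 ≤ Real.log (1 / r) := Real.log_nonneg (by rw [le_div_iff₀ hr]; linarith)
    rw [max_eq_left hlog, G0_eq hr, G0_eq one_pos]
    have h2 : Ioi r = Ioc r 1 ∪ Ioi 1 := (Ioc_union_Ioi_eq_Ioi h1).symm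
    rw [h2, setIntegral_union]
    · rw [← intervalIntegral.integral_of_le h1]
      have hsymm : ∫ s in (1:ℝ)..r, bfun s = -∫ s in r..(1:ℝ), bfun s :=
        intervalIntegral.integral_symm _ _
      have h3 : ∫ s in r..1, bfun s = ∫ s in r..1, ((1 / s) - Real.exp (-s ^ 2 / 2) / s) := by
        apply intervalIntegral.integral_congr_ae
        filter_upwards with s hs
        rw [uIoc_of_le h1] at hs
        unfold bfun
        rw [if_neg (not_le.mpr (lt_trans hr hs.1)), if_pos hs.2]
        ring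
      have hI1 : IntervalIntegrable (fun s : ℝ => 1 / s) volume r 1 := by
        apply ContinuousOn.intervalIntegrable
        rw [uIcc_of_le h1]
        apply ContinuousOn.div continuousOn_const continuousOn_id
        intro s hs
        exact (lt_of_lt_of_le hr hs.1).ne'
      have hI2 : IntervalIntegrable (fun s : ℝ => Real.exp (-s ^ 2 / 2) / s) volume r 1 := by
        rw [intervalIntegrable_iff_integrableOn_Ioc_of_le h1]
        exact (expdiv_integrableOn hr).mono_set (Ioc_subset_Ioi_self)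
      rw [hsymm, h3, intervalIntegral.integral_sub hI1 hI2, integral_one_div_of_pos hr one_pos]
      ring
    · exact Set.disjoint_left.mpr (fun x hx hx' => absurd hx.2 (not_le.mpr hx'))
    · exact measurableSet_Ioi
    · exact (expdiv_integrableOn hr).mono_set (Ioc_subset_Ioi_self)
    · exact expdiv_integrableOn one_pos
  · have hlog : Real.log (1 / r) ≤ 0 := by
      apply Real.log_nonpos (by positivity)
      rw [div_le_one hr]; exact h1
    rw [max_eq_right hlog, zero_add, G0_eq hr, G0_eq one_pos]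
    have h2 : Ioi (1:ℝ) = Ioc 1 r ∪ Ioi r := (Ioc_union_Ioi_eq_Ioi h1).symm
    rw [h2, setIntegral_union]
    · rw [← intervalIntegral.integral_of_le h1]
      have h3 : ∫ s in 1..r, bfun s = ∫ s in 1..r, -(Real.exp (-s ^ 2 / 2) / s) := by
        apply intervalIntegral.integral_congr_ae
        filter_upwards with s hs
        rw [uIoc_of_le h1] at hs
        unfold bfun
        rw [if_neg (not_le.mpr (lt_trans one_pos hs.1)), if_neg (not_le.mpr hs.1)]
      rw [h3, intervalIntegral.integral_neg]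
      ring
    · exact Set.disjoint_left.mpr (fun x hx hx' => absurd hx.2 (not_le.mpr hx'))
    · exact measurableSet_Ioi
    · exact (expdiv_integrableOn one_pos).mono_set (Ioc_subset_Ioi_self)
    · exact expdiv_integrableOn hr

lemma abs_h0_le {r : ℝ} (hr : 0 < r) : |h0 r| ≤ G0 1 + 3 := by
  have hG1 := G0_nonneg 1
  rcases le_total r 1 with h1 | h1
  · have h2 : ‖∫ s in (1:ℝ)..r, bfun s‖ ≤ 1 * |r - 1| :=
      intervalIntegral.norm_integral_le_of_norm_le_const (fun s _ => abs_bfun_le s)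
    rw [Real.norm_eq_abs, one_mul] at h2
    have h3 : |r - 1| ≤ 1 := by rw [abs_le]; constructor <;> linarith
    unfold h0
    calc |G0 1 + ∫ s in (1:ℝ)..r, bfun s| ≤ |G0 1| + |∫ s in (1:ℝ)..r, bfun s| := abs_add_le _ _
      _ ≤ G0 1 + 3 := by rw [abs_of_nonneg hG1]; linarith
  · have h4 := G0_eq_log_add hr
    have hlog : Real.log (1 / r) ≤ 0 := by
      apply Real.log_nonpos (by positivity)
      rw [div_le_one hr]; exact h1
    rw [max_eq_right hlog, zero_add] at h4
    rw [← h4, abs_of_nonneg (G0_nonneg r)]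
    have h5 := G0_le_of_one_le h1
    have h6 : Real.exp (-r ^ 2 / 2) ≤ 1 := Real.exp_le_one_iff.mpr (by nlinarith)
    linarith

lemma h0_le_of_le_one {r : ℝ} (h1 : r ≤ 1) : h0 r ≤ G0 1 := by
  unfold h0
  have : 0 ≤ ∫ s in r..1, bfun s := by
    apply intervalIntegral.integral_nonneg h1
    intro s hs
    unfold bfun
    split_ifs with h2 h3
    · exact le_rfl
    · have h4 : Real.exp (-s ^ 2 / 2) ≤ 1 := Real.exp_le_one_iff.mpr (by nlinarith [sq_nonneg s])
      exact div_nonneg (by linarith) (not_le.mp h2).le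
    · exact absurd hs.2 h3
  rw [intervalIntegral.integral_symm]
  linarith

/-- exponential of the kernel near the origin -/
lemma exp_mul_G0_le {t r : ℝ} (ht : 0 ≤ t) (hr : 0 < r) (h1 : r ≤ 1) :
    Real.exp (t * G0 r) ≤ Real.exp (t * G0 1) * r ^ (-t) := by
  have hlog : 0 ≤ Real.log (1 / r) := Real.log_nonneg (by rw [le_div_iff₀ hr]; linarith)
  have h2 := G0_eq_log_add hr
  rw [max_eq_left hlog] at h2
  have h3 := h0_le_of_le_one h1
  have h4 : r ^ (-t) = Real.exp (t * Real.log (1 / r)) := by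
    rw [Real.rpow_def_of_pos hr, one_div, Real.log_inv]
    congr 1
    ring
  rw [h4, ← Real.exp_add]
  apply Real.exp_le_exp.mpr
  rw [h2]
  nlinarith

end Pool.Agent.H87.GMC
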