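import Mathlib
import Pool.Agent.H87.GMC.Defs
import Pool.Agent.H87.GMC.Log

open MeasureTheory ProbabilityTheory Filter Topology Set
open scoped NNReal ENNReal InnerProductSpace

namespace Pool.Agent.H87.GMC

variable {d : ℕ}

/-- The Gaussian kernel at inverse scale `u`. -/
noncomputable def gk (u : ℝ) (x : Eu d) : ℝ := Real.exp (-(u * ‖x‖) ^ 2 / 2)

lemma gk_pos (u : ℝ) (x : Eu d) : 0 < gk u x := Real.exp_pos _

lemma gk_le_one (u : ℝ) (x : Eu d) : gk u x ≤ 1 :=
  Real.exp_le_one_iff.mpr (by nlinarith [sq_nonneg (u * ‖x‖)])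

lemma gk_neg (u : ℝ) (x : Eu d) : gk u (-x) = gk u x := by
  unfold gk; rw [norm_neg]

lemma continuous_gk (u : ℝ) : Continuous (gk u : Eu d → ℝ) := by
  unfold gk; fun_prop

/-- The covariance function of the counterexample. -/
noncomputable def gker (c : ℝ) (x : Eu d) : ℝ := G0 ‖x‖ + c * gk 1 x

/-- The measure on inverse scales. -/
noncomputable def scaleM (c : ℝ) : Measure ℝ :=
  (volume.restrict (Ioi 1)).withDensity (fun u => ENNReal.ofReal (1 / u))
    + ENNReal.ofReal c • Measure.dirac 1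

lemma measurable_G0 : Measurable G0 := by
  unfold G0
  have h1 : StronglyMeasurable (fun p : ℝ × ℝ => Real.exp (-(p.2 * p.1) ^ 2 / 2) / p.2) := by
    apply Measurable.stronglyMeasurable
    fun_prop
  exact (h1.integral_prod_right' (ν := volume.restrict (Ioi (1:ℝ)))).measurable

lemma integrable_gauss {b : ℝ} (hb : 0 < b) :
    Integrable (fun x : Eu d => Real.exp (-b * ‖x‖ ^ 2)) := by
  by_contra h
  have h1 := GaussianFourier.integral_rexp_neg_mul_sq_norm (V := Eu d) hb
  rw [integral_undef h] at h1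
  have : (0:ℝ) < (Real.pi / b) ^ ((Module.finrank ℝ (Eu d) : ℝ) / 2) := by positivity
  linarith

lemma integrable_exp_G0_sub_one (hd : 1 ≤ d) {t : ℝ} (ht0 : 0 ≤ t) (ht : t < d) :
    Integrable (fun x : Eu d => Real.exp (t * G0 ‖x‖) - 1) := by
  have hmeas : Measurable (fun x : Eu d => Real.exp (t * G0 ‖x‖) - 1) := by
    have := measurable_G0
    fun_prop
  have : Nonempty (Fin d) := ⟨⟨0, hd⟩⟩
  have hfin : Module.finrank ℝ (Eu d) = d := by simp
  rw [← integrableOn_univ, ← union_compl_self (Metric.ball (0 : Eu d) 1)]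
  apply IntegrableOn.union
  · refine integrableOn_ball_of_norm_le_rpow (C := Real.exp (t * G0 1)) (α := t) ?_ ?_ ?_ ?_
    · rw [hfin]; exact hd
    · rw [hfin]; exact ht
    · have h0 : ∀ᵐ x : Eu d ∂(volume.restrict (Metric.ball (0 : Eu d) 1)), x ≠ 0 := by
        apply ae_restrict_of_ae
        rw [ae_iff]
        simp
      filter_upwards [h0, ae_restrict_mem Metric.isOpen_ball.measurableSet] with x hx hx1
      have hx2 : 0 < ‖x‖ := norm_pos_iff.mpr hx
      have hx3 : ‖x‖ ≤ 1 := by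
        rw [mem_ball_zero_iff] at hx1; exact hx1.le
      have h1 : 1 ≤ Real.exp (t * G0 ‖x‖) := Real.one_le_exp (mul_nonneg ht0 (G0_nonneg _))
      rw [Real.norm_of_nonneg (by linarith)]
      have := exp_mul_G0_le ht0 hx2 hx3
      linarith
    · exact hmeas.aestronglyMeasurable
  · have hI : Integrable (fun x : Eu d => (t * 2 * Real.exp (2 * t)) * Real.exp (-(1/2) * ‖x‖ ^ 2)) :=
      (integrable_gauss (by norm_num)).const_mul _
    refine Integrable.mono' hI.integrableOn hmeas.aestronglyMeasurable ?_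
    filter_upwards [ae_restrict_mem Metric.isOpen_ball.measurableSet.compl] with x hx
    have hx1 : 1 ≤ ‖x‖ := by
      rw [mem_compl_iff, mem_ball_zero_iff, not_lt] at hx; exact hx
    have h1 : 1 ≤ Real.exp (t * G0 ‖x‖) := Real.one_le_exp (mul_nonneg ht0 (G0_nonneg _))
    rw [Real.norm_of_nonneg (by linarith)]
    have h2 := G0_le_of_one_le hx1
    have h3 : Real.exp (-‖x‖ ^ 2 / 2) ≤ 1 := Real.exp_le_one_iff.mpr (by nlinarith)
    have h4 : G0 ‖x‖ ≤ 2 := by linarith
    have h5 : Real.exp (t * G0 ‖x‖) - 1 ≤ (t * G0 ‖x‖) * Real.exp (t * G0 ‖x‖) := by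
      have h6 := Real.add_one_le_exp (-(t * G0 ‖x‖))
      have h7 : Real.exp (t * G0 ‖x‖) * Real.exp (-(t * G0 ‖x‖)) = 1 := by
        rw [← Real.exp_add]; simp
      nlinarith [Real.exp_pos (t * G0 ‖x‖)]
    have h8 : Real.exp (t * G0 ‖x‖) ≤ Real.exp (2 * t) := Real.exp_le_exp.mpr (by nlinarith)
    have h9 : (t * G0 ‖x‖) * Real.exp (t * G0 ‖x‖)
        ≤ (t * (2 * Real.exp (-‖x‖ ^ 2 / 2))) * Real.exp (2 * t) := by
      apply mul_le_mul _ h8 (Real.exp_pos _).le (by positivity)
      exact mul_le_mul_of_nonneg_left h2 ht0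
    have h10 : Real.exp (-(1/2) * ‖x‖ ^ 2) = Real.exp (-‖x‖ ^ 2 / 2) := by congr 1; ring
    rw [h10]
    linarith

lemma integrable_G0_norm (hd : 1 ≤ d) : Integrable (fun x : Eu d => G0 ‖x‖) := by
  have h1 := (integrable_exp_G0_sub_one hd (t := 1/2) (by norm_num)
    (by have : (1:ℝ) ≤ d := by exact_mod_cast hd
        linarith)).const_mul 2
  refine Integrable.mono' h1 (measurable_G0.comp measurable_norm).aestronglyMeasurable ?_
  filter_upwards with x
  rw [Real.norm_of_nonneg (G0_nonneg _)]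
  have := Real.add_one_le_exp (1/2 * G0 ‖x‖)
  linarith

lemma integrable_gk_one : Integrable (gk 1 : Eu d → ℝ) := by
  have h := integrable_gauss (d := d) (b := 1/2) (by norm_num)
  refine h.congr ?_
  filter_upwards with x
  unfold gk
  congr 1
  ring

lemma integrable_gker (hd : 1 ≤ d) (c : ℝ) : Integrable (gker c : Eu d → ℝ) :=
  (integrable_G0_norm hd).add (integrable_gk_one.const_mul c)

lemma gker_nonneg {c : ℝ} (hc : 0 ≤ c) (x : Eu d) : 0 ≤ gker c x :=
  add_nonneg (G0_nonneg _) (mul_nonneg hc (gk_pos _ _).le)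

lemma measurable_gker (c : ℝ) : Measurable (gker c : Eu d → ℝ) := by
  unfold gker
  exact (measurable_G0.comp measurable_norm).add ((continuous_gk 1).measurable.const_mul c)

lemma gker_neg (c : ℝ) (x : Eu d) : gker c (-x) = gker c x := by
  unfold gker; rw [norm_neg, gk_neg]

/-! ### integration against the scale measure -/

instance (c : ℝ) : SFinite (scaleM c) := by
  unfold scaleM; infer_instance

lemma lintegral_scaleM (c : ℝ) {f : ℝ → ℝ≥0∞} (hf : Measurable f) :
    ∫⁻ u, f u ∂(scaleM c)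
      = (∫⁻ u in Ioi 1, ENNReal.ofReal (1 / u) * f u) + ENNReal.ofReal c * f 1 := by
  unfold scaleM
  rw [lintegral_add_measure, lintegral_smul_measure, lintegral_dirac' _ hf,
    lintegral_withDensity_eq_lintegral_mul _ (by fun_prop) hf]
  rfl

lemma integrable_gk_scaleM (c : ℝ) {x : Eu d} (hx : x ≠ 0) :
    Integrable (fun u => gk u x) (scaleM c) := by
  have hm : Measurable (fun u => gk u x) := by unfold gk; fun_prop
  refine ⟨hm.aestronglyMeasurable, ?_⟩
  rw [hasFiniteIntegral_iff_ofReal (Eventually.of_forall fun u => (gk_pos u x).le),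
    lintegral_scaleM c hm.ennreal_ofReal]
  apply ENNReal.add_lt_top.mpr
  constructor
  · have h1 := G0_integrableOn (norm_pos_iff.mpr hx)
    have h2 : ∫⁻ u in Ioi (1:ℝ), ENNReal.ofReal (1 / u) * ENNReal.ofReal (gk u x)
        = ∫⁻ u in Ioi (1:ℝ), ENNReal.ofReal (Real.exp (-(u * ‖x‖) ^ 2 / 2) / u) := by
      apply setLIntegral_congr_fun measurableSet_Ioi
      intro u hu
      have hu' : (1:ℝ) < u := hu
      simp only
      rw [← ENNReal.ofReal_mul (by positivity)]
      unfold gk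
      congr 1
      ring
    rw [h2]
    have h3 := h1.hasFiniteIntegral
    rw [hasFiniteIntegral_iff_ofReal] at h3
    · exact h3
    · filter_upwards [self_mem_ae_restrict measurableSet_Ioi] with u hu
      have hu' : (1:ℝ) < u := hu
      simp only [Pi.zero_apply]
      positivity
  · exact ENNReal.mul_lt_top ENNReal.ofReal_lt_top ENNReal.ofReal_lt_top

lemma integral_gk_scaleM {c : ℝ} (hc : 0 ≤ c) {x : Eu d} (hx : x ≠ 0) :
    ∫ u, gk u x ∂(scaleM c) = gker c x := by
  have hm : Measurable (fun u => gk u x) := by unfold gk; fun_prop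
  rw [integral_eq_lintegral_of_nonneg_ae (Eventually.of_forall fun u => (gk_pos u x).le)
    hm.aestronglyMeasurable, lintegral_scaleM c hm.ennreal_ofReal]
  have h1 := G0_integrableOn (norm_pos_iff.mpr hx)
  have h2 : ∫⁻ u in Ioi (1:ℝ), ENNReal.ofReal (1 / u) * ENNReal.ofReal (gk u x)
      = ENNReal.ofReal (G0 ‖x‖) := by
    unfold G0
    rw [ofReal_integral_eq_lintegral_ofReal h1]
    · apply setLIntegral_congr_fun measurableSet_Ioi
      intro u hu
      have hu' : (1:ℝ) < u := hu
      simp only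
      rw [← ENNReal.ofReal_mul (by positivity)]
      unfold gk
      congr 1
      ring
    · filter_upwards [self_mem_ae_restrict measurableSet_Ioi] with u hu
      have hu' : (1:ℝ) < u := hu
      simp only [Pi.zero_apply]
      positivity
  rw [h2, ← ENNReal.ofReal_mul hc, ← ENNReal.ofReal_add (G0_nonneg _)
    (mul_nonneg hc (gk_pos _ _).le), ENNReal.toReal_ofReal]
  · rfl
  · exact add_nonneg (G0_nonneg _) (mul_nonneg hc (gk_pos _ _).le)

/-! ### spectral representation -/

/-- the standard Gaussian measure on frequencies -/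
noncomputable abbrev gam (d : ℕ) : Measure (Eu d) := stdGaussian (Eu d)

lemma integral_cos_gam (u : ℝ) (x : Eu d) :
    ∫ ξ, Real.cos (u * ⟪ξ, x⟫_ℝ) ∂(gam d) = gk u x := by
  have h1 := charFun_stdGaussian (E := Eu d) (u • x)
  rw [charFun_apply] at h1
  have h2 := congrArg Complex.re h1
  have h3 : Integrable (fun ξ : Eu d => Complex.exp (⟪ξ, u • x⟫_ℝ * Complex.I)) (gam d) := by
    apply Integrable.of_bound (C := 1)
    · fun_prop
    · filter_upwards with ξ
      rw [Complex.norm_exp_ofReal_mul_I]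
  have h4 : (∫ ξ, Complex.exp (⟪ξ, u • x⟫_ℝ * Complex.I) ∂(gam d)).re
      = ∫ ξ, (Complex.exp (⟪ξ, u • x⟫_ℝ * Complex.I)).re ∂(gam d) := by
    exact (integral_re h3).symm
  rw [h4] at h2
  have h5 : ∀ ξ : Eu d, (Complex.exp (⟪ξ, u • x⟫_ℝ * Complex.I)).re = Real.cos (u * ⟪ξ, x⟫_ℝ) := by
    intro ξ
    rw [Complex.exp_ofReal_mul_I_re, real_inner_smul_right]
  simp_rw [h5] at h2
  rw [h2]
  unfold gk
  rw [norm_smul, Real.norm_eq_abs]
  have h6 : (-((|u| * ‖x‖ : ℝ) : ℂ) ^ 2 / 2) = ((-(u * ‖x‖) ^ 2 / 2 : ℝ) : ℂ) := by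
    push_cast
    rw [mul_pow, mul_pow]
    congr 3
    norm_cast
    exact sq_abs u
  rw [h6, Complex.exp_ofReal_re]

end Pool.Agent.H87.GMC
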