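import Mathlib
import Pool.Agent.H87.GMC.Kernel

open MeasureTheory ProbabilityTheory Filter Topology Set
open scoped NNReal ENNReal InnerProductSpace

namespace Pool.Agent.H87.GMC

variable {d : ℕ}

/-- The exponential of a real number as an extended nonnegative number. -/
noncomputable def eexp (t : ℝ) : ℝ≥0∞ := ENNReal.ofReal (Real.exp t)

lemma eexp_add (s t : ℝ) : eexp (s + t) = eexp s * eexp t := by
  unfold eexp
  rw [Real.exp_add, ENNReal.ofReal_mul (Real.exp_pos _).le]

lemma eexp_mono {s t : ℝ} (h : s ≤ t) : eexp s ≤ eexp t :=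
  ENNReal.ofReal_le_ofReal (Real.exp_le_exp.mpr h)

lemma eexp_ne_top (t : ℝ) : eexp t ≠ ∞ := ENNReal.ofReal_ne_top

lemma measurable_eexp : Measurable eexp := by unfold eexp; fun_prop

/-- two fold integral -/
noncomputable def L2i (l : Measure (Eu d)) (f : Eu d → ℝ) : ℝ≥0∞ :=
  ∫⁻ y, ∫⁻ x, eexp (f (x - y)) ∂l ∂l

/-- three fold integral -/
noncomputable def L3i (l : Measure (Eu d)) (f : Eu d → ℝ) : ℝ≥0∞ :=
  ∫⁻ z, ∫⁻ y, ∫⁻ x, eexp (f (x - y) + f (x - z) + f (y - z)) ∂l ∂l ∂l

/-- four fold integral -/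
noncomputable def L4i (l : Measure (Eu d)) (f : Eu d → ℝ) : ℝ≥0∞ :=
  ∫⁻ w, ∫⁻ z, ∫⁻ y, ∫⁻ x, eexp (f (x - y) + f (x - z) + f (x - w)
    + f (y - z) + f (y - w) + f (z - w)) ∂l ∂l ∂l ∂l

/-- The reference measure lives on a ball, with bounded density, which is bounded below on the
concentric ball of half radius. -/
structure IsRef (l : Measure (Eu d)) (x₀ : Eu d) (r : ℝ) (C c₀ : ℝ≥0) : Prop where
  finite : IsFiniteMeasure l
  rpos : 0 < r
  cpos : 0 < c₀
  le : l ≤ (C : ℝ≥0∞) • (volume.restrict (Metric.ball x₀ r))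
  ge : (c₀ : ℝ≥0∞) • (volume.restrict (Metric.closedBall x₀ (r / 2))) ≤ l

lemma IsRef.ae_mem {l : Measure (Eu d)} {x₀ : Eu d} {r : ℝ} {C c₀ : ℝ≥0}
    (h : IsRef l x₀ r C c₀) : ∀ᵐ x ∂l, x ∈ Metric.ball x₀ r := by
  have h1 : l ≪ volume.restrict (Metric.ball x₀ r) :=
    (Measure.absolutelyContinuous_of_le h.le).trans Measure.smul_absolutelyContinuous
  exact h1.ae_le (ae_restrict_mem Metric.isOpen_ball.measurableSet)

/-- the constant in the chord bound -/
noncomputable def chord (r : ℝ) : ℝ := (1 - Real.exp (-(2 * r ^ 2))) / (4 * r ^ 2)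

lemma chord_pos {r : ℝ} (hr : 0 < r) : 0 < chord r := by
  unfold chord
  have h1 : Real.exp (-(2 * r ^ 2)) < 1 := by
    rw [Real.exp_lt_one_iff]
    have : 0 < r ^ 2 := by positivity
    linarith
  apply div_pos (by linarith) (by positivity)

lemma gk_one_le {r : ℝ} (hr : 0 < r) {x : Eu d} (hx : ‖x‖ ≤ 2 * r) :
    gk 1 x ≤ 1 - chord r * ‖x‖ ^ 2 := by
  unfold gk chord
  set s := ‖x‖ ^ 2 / (4 * r ^ 2) with hs
  have hr2 : 0 < 4 * r ^ 2 := by positivity
  have hs0 : 0 ≤ s := by positivity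
  have hs1 : s ≤ 1 := by
    rw [hs, div_le_one hr2]
    have := norm_nonneg x
    nlinarith
  have hconv := convexOn_exp.2 (mem_univ (0:ℝ)) (mem_univ (-(2 * r ^ 2)))
    (show 0 ≤ 1 - s by linarith) hs0 (by ring)
  simp only [smul_eq_mul, mul_zero, zero_add, Real.exp_zero, mul_one] at hconv
  have h1 : -(1 * ‖x‖) ^ 2 / 2 = s * -(2 * r ^ 2) := by
    rw [hs]; field_simp; ring
  rw [h1]
  have h2 : (1 - Real.exp (-(2 * r ^ 2))) / (4 * r ^ 2) * ‖x‖ ^ 2
      = (1 - Real.exp (-(2 * r ^ 2))) * s := by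
    rw [hs]; ring
  rw [h2]
  linarith

/-- Gaussian constant -/
noncomputable def gaussC (d : ℕ) (r : ℝ) : ℝ := (Real.pi / chord r) ^ ((d : ℝ) / 2)

lemma gaussC_pos (d : ℕ) {r : ℝ} (hr : 0 < r) : 0 < gaussC d r := by
  unfold gaussC
  have := chord_pos hr
  positivity

lemma lintegral_gauss {r : ℝ} (hr : 0 < r) {δ : ℝ} (hδ : 0 < δ) (y : Eu d) :
    ∫⁻ x : Eu d, eexp (-(chord r / δ ^ 2) * ‖x - y‖ ^ 2) = ENNReal.ofReal (gaussC d r * δ ^ d) := by
  have hc := chord_pos hr
  have hb : 0 < chord r / δ ^ 2 := by positivity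
  rw [lintegral_sub_right_eq_self (fun x : Eu d => eexp (-(chord r / δ ^ 2) * ‖x‖ ^ 2)) y]
  unfold eexp
  rw [← ofReal_integral_eq_lintegral_ofReal (integrable_gauss hb)
    (Eventually.of_forall fun x => (Real.exp_pos _).le),
    GaussianFourier.integral_rexp_neg_mul_sq_norm hb]
  congr 1
  unfold gaussC
  have h1 : Real.pi / (chord r / δ ^ 2) = Real.pi / chord r * δ ^ 2 := by
    field_simp
  have h2 : (Module.finrank ℝ (Eu d) : ℝ) = d := by simp
  rw [h1, h2, Real.mul_rpow (by positivity) (by positivity)]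
  congr 1
  rw [← Real.rpow_natCast δ 2, ← Real.rpow_mul hδ.le, ← Real.rpow_natCast δ d]
  congr 1
  push_cast
  ring

section

variable {l : Measure (Eu d)} {x₀ : Eu d} {r : ℝ} {C c₀ : ℝ≥0}

lemma IsRef.gauss_le (h : IsRef l x₀ r C c₀) {δ : ℝ} (hδ : 0 < δ) (y : Eu d) :
    ∫⁻ x, eexp (-(chord r / δ ^ 2) * ‖x - y‖ ^ 2) ∂l
      ≤ ENNReal.ofReal (C * gaussC d r * δ ^ d) := by
  have hle : l ≤ (C : ℝ≥0∞) • volume := by
    refine h.le.trans ?_
    gcongr
    exact Measure.restrict_le_self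
  calc ∫⁻ x, eexp (-(chord r / δ ^ 2) * ‖x - y‖ ^ 2) ∂l
      ≤ ∫⁻ x, eexp (-(chord r / δ ^ 2) * ‖x - y‖ ^ 2) ∂((C : ℝ≥0∞) • volume) :=
        lintegral_mono' hle le_rfl
    _ = ENNReal.ofReal (C * gaussC d r * δ ^ d) := by
        rw [lintegral_smul_measure, lintegral_gauss h.rpos hδ, smul_eq_mul, mul_assoc,
          ENNReal.ofReal_mul (p := (C : ℝ)) C.coe_nonneg, ENNReal.ofReal_coe_nnreal]

/-- pointwise bound of the exponent -/
lemma IsRef.pair_le (h : IsRef l x₀ r C c₀) {δ : ℝ} (hδ : 0 < δ) {x y : Eu d}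
    (hx : x ∈ Metric.ball x₀ r) (hy : y ∈ Metric.ball x₀ r) :
    1 / δ ^ 2 * gk 1 (x - y) ≤ 1 / δ ^ 2 + -(chord r / δ ^ 2) * ‖x - y‖ ^ 2 := by
  have h1 : ‖x - y‖ ≤ 2 * r := by
    rw [← dist_eq_norm_sub]
    have h2 := dist_triangle_right x y x₀
    rw [Metric.mem_ball] at hx hy
    linarith
  have h2 := gk_one_le h.rpos h1
  calc 1 / δ ^ 2 * gk 1 (x - y) ≤ 1 / δ ^ 2 * (1 - chord r * ‖x - y‖ ^ 2) := by gcongr
    _ = _ := by ring

lemma pair_le_one {δ : ℝ} (hδ : 0 < δ) (x : Eu d) : 1 / δ ^ 2 * gk 1 x ≤ 1 / δ ^ 2 := by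
  have := gk_le_one 1 x
  exact mul_le_of_le_one_right (by positivity) this

lemma IsRef.L2i_le (h : IsRef l x₀ r C c₀) {δ : ℝ} (hδ : 0 < δ) :
    L2i l (fun x => 1 / δ ^ 2 * gk 1 x)
      ≤ eexp (1 / δ ^ 2) * ENNReal.ofReal (C * gaussC d r * δ ^ d) * l univ := by
  unfold L2i
  calc ∫⁻ y, ∫⁻ x, eexp (1 / δ ^ 2 * gk 1 (x - y)) ∂l ∂l
      ≤ ∫⁻ _, eexp (1 / δ ^ 2) * ENNReal.ofReal (C * gaussC d r * δ ^ d) ∂l := by
        apply lintegral_mono_ae
        filter_upwards [h.ae_mem] with y hy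
        calc ∫⁻ x, eexp (1 / δ ^ 2 * gk 1 (x - y)) ∂l
            ≤ ∫⁻ x, eexp (1 / δ ^ 2) * eexp (-(chord r / δ ^ 2) * ‖x - y‖ ^ 2) ∂l := by
              apply lintegral_mono_ae
              filter_upwards [h.ae_mem] with x hx
              rw [← eexp_add]
              exact eexp_mono (h.pair_le hδ hx hy)
          _ = eexp (1 / δ ^ 2) * ∫⁻ x, eexp (-(chord r / δ ^ 2) * ‖x - y‖ ^ 2) ∂l := by
              rw [lintegral_const_mul' _ _ (eexp_ne_top _)]
          _ ≤ _ := by
              gcongr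
              exact h.gauss_le hδ y
    _ = _ := by rw [lintegral_const]

lemma IsRef.L4i_le (h : IsRef l x₀ r C c₀) {δ : ℝ} (hδ : 0 < δ) :
    L4i l (fun x => 1 / δ ^ 2 * gk 1 x)
      ≤ eexp (6 * (1 / δ ^ 2)) * ENNReal.ofReal (C * gaussC d r * δ ^ d) ^ 3 * l univ := by
  unfold L4i
  set b := 1 / δ ^ 2 with hb
  set G := ENNReal.ofReal (C * gaussC d r * δ ^ d) with hG
  have hGt : G ≠ ∞ := ENNReal.ofReal_ne_top
  calc ∫⁻ w, ∫⁻ z, ∫⁻ y, ∫⁻ x, eexp (b * gk 1 (x - y) + b * gk 1 (x - z) + b * gk 1 (x - w)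
        + b * gk 1 (y - z) + b * gk 1 (y - w) + b * gk 1 (z - w)) ∂l ∂l ∂l ∂l
      ≤ ∫⁻ _, eexp (6 * b) * G ^ 3 ∂l := by
        apply lintegral_mono_ae
        filter_upwards [h.ae_mem] with w hw
        calc ∫⁻ z, ∫⁻ y, ∫⁻ x, eexp (b * gk 1 (x - y) + b * gk 1 (x - z) + b * gk 1 (x - w)
              + b * gk 1 (y - z) + b * gk 1 (y - w) + b * gk 1 (z - w)) ∂l ∂l ∂l
            ≤ ∫⁻ z, eexp (-(chord r / δ ^ 2) * ‖z - w‖ ^ 2) * (eexp (6 * b) * G ^ 2) ∂l := by
              apply lintegral_mono_ae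
              filter_upwards [h.ae_mem] with z hz
              calc ∫⁻ y, ∫⁻ x, eexp (b * gk 1 (x - y) + b * gk 1 (x - z) + b * gk 1 (x - w)
                    + b * gk 1 (y - z) + b * gk 1 (y - w) + b * gk 1 (z - w)) ∂l ∂l
                  ≤ ∫⁻ y, eexp (-(chord r / δ ^ 2) * ‖y - w‖ ^ 2)
                    * (eexp (-(chord r / δ ^ 2) * ‖z - w‖ ^ 2) * (eexp (6 * b) * G)) ∂l := by
                    apply lintegral_mono_ae
                    filter_upwards [h.ae_mem] with y hy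
                    calc ∫⁻ x, eexp (b * gk 1 (x - y) + b * gk 1 (x - z) + b * gk 1 (x - w)
                          + b * gk 1 (y - z) + b * gk 1 (y - w) + b * gk 1 (z - w)) ∂l
                        ≤ ∫⁻ x, eexp (-(chord r / δ ^ 2) * ‖x - w‖ ^ 2)
                          * (eexp (-(chord r / δ ^ 2) * ‖y - w‖ ^ 2)
                          * (eexp (-(chord r / δ ^ 2) * ‖z - w‖ ^ 2) * eexp (6 * b))) ∂l := by
                          apply lintegral_mono_ae
                          filter_upwards [h.ae_mem] with x hx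
                          rw [← eexp_add, ← eexp_add, ← eexp_add]
                          apply eexp_mono
                          have e1 := h.pair_le hδ hx hw
                          have e2 := h.pair_le hδ hy hw
                          have e3 := h.pair_le hδ hz hw
                          have e4 := pair_le_one hδ (x - y)
                          have e5 := pair_le_one hδ (x - z)
                          have e6 := pair_le_one hδ (y - z)
                          rw [← hb] at e1 e2 e3 e4 e5 e6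
                          linarith
                      _ = (∫⁻ x, eexp (-(chord r / δ ^ 2) * ‖x - w‖ ^ 2) ∂l)
                          * (eexp (-(chord r / δ ^ 2) * ‖y - w‖ ^ 2)
                          * (eexp (-(chord r / δ ^ 2) * ‖z - w‖ ^ 2) * eexp (6 * b))) := by
                          rw [lintegral_mul_const']
                          exact ENNReal.mul_ne_top (eexp_ne_top _)
                            (ENNReal.mul_ne_top (eexp_ne_top _) (eexp_ne_top _))
                      _ ≤ G * (eexp (-(chord r / δ ^ 2) * ‖y - w‖ ^ 2)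
                          * (eexp (-(chord r / δ ^ 2) * ‖z - w‖ ^ 2) * eexp (6 * b))) := by
                          gcongr
                          exact h.gauss_le hδ w
                      _ = _ := by ring
                _ = (∫⁻ y, eexp (-(chord r / δ ^ 2) * ‖y - w‖ ^ 2) ∂l)
                    * (eexp (-(chord r / δ ^ 2) * ‖z - w‖ ^ 2) * (eexp (6 * b) * G)) := by
                    rw [lintegral_mul_const']
                    exact ENNReal.mul_ne_top (eexp_ne_top _)
                      (ENNReal.mul_ne_top (eexp_ne_top _) hGt)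
                _ ≤ G * (eexp (-(chord r / δ ^ 2) * ‖z - w‖ ^ 2) * (eexp (6 * b) * G)) := by
                    gcongr
                    exact h.gauss_le hδ w
                _ = _ := by ring
          _ = (∫⁻ z, eexp (-(chord r / δ ^ 2) * ‖z - w‖ ^ 2) ∂l) * (eexp (6 * b) * G ^ 2) := by
              rw [lintegral_mul_const']
              exact ENNReal.mul_ne_top (eexp_ne_top _) (ENNReal.pow_ne_top hGt)
          _ ≤ G * (eexp (6 * b) * G ^ 2) := by
              gcongr
              exact h.gauss_le hδ w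
          _ = _ := by ring
    _ = _ := by rw [lintegral_const]

lemma gk_one_ge {δ : ℝ} {x : Eu d} {k : ℝ} (hx : ‖x‖ ≤ k * δ) :
    1 - k ^ 2 * δ ^ 2 / 2 ≤ gk 1 x := by
  unfold gk
  have h1 := Real.add_one_le_exp (-(1 * ‖x‖) ^ 2 / 2)
  have h2 : ‖x‖ ^ 2 ≤ (k * δ) ^ 2 := by
    have := norm_nonneg x
    gcongr
  nlinarith

lemma IsRef.ball_ge (h : IsRef l x₀ r C c₀) {δ : ℝ} (hδ : 0 < δ) (hδr : δ ≤ r / 4) {z : Eu d}
    (hz : z ∈ Metric.ball x₀ (r / 4)) :
    (c₀ : ℝ≥0∞) * (ENNReal.ofReal (δ ^ d) * volume (Metric.ball (0 : Eu d) 1))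
      ≤ l (Metric.ball z δ) := by
  have h1 := h.ge (Metric.ball z δ)
  rw [Measure.smul_apply, Measure.restrict_apply Metric.isOpen_ball.measurableSet] at h1
  have h2 : Metric.ball z δ ∩ Metric.closedBall x₀ (r / 2) = Metric.ball z δ := by
    apply inter_eq_left.mpr
    intro x hx
    rw [Metric.mem_ball] at hx hz
    rw [Metric.mem_closedBall]
    have := dist_triangle x z x₀
    linarith
  rw [h2, Measure.addHaar_ball_of_pos _ _ hδ, smul_eq_mul] at h1
  have h3 : Module.finrank ℝ (Eu d) = d := by simp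
  rw [h3] at h1
  exact h1

lemma IsRef.L3i_ge (h : IsRef l x₀ r C c₀) {δ : ℝ} (hδ : 0 < δ) (hδr : δ ≤ r / 4) :
    eexp (3 * (1 / δ ^ 2) - 3)
      * ((c₀ : ℝ≥0∞) * (ENNReal.ofReal (δ ^ d) * volume (Metric.ball (0 : Eu d) 1))) ^ 2
      * l (Metric.ball x₀ (r / 4)) ≤ L3i l (fun x => 1 / δ ^ 2 * gk 1 x) := by
  unfold L3i
  set b := 1 / δ ^ 2 with hb
  have hb0 : 0 < b := by positivity
  set A := (c₀ : ℝ≥0∞) * (ENNReal.ofReal (δ ^ d) * volume (Metric.ball (0 : Eu d) 1)) with hA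
  calc eexp (3 * b - 3) * A ^ 2 * l (Metric.ball x₀ (r / 4))
      = ∫⁻ _ in Metric.ball x₀ (r / 4), eexp (3 * b - 3) * A ^ 2 ∂l := by
        rw [setLIntegral_const]
    _ ≤ ∫⁻ z in Metric.ball x₀ (r / 4), ∫⁻ y, ∫⁻ x,
          eexp (b * gk 1 (x - y) + b * gk 1 (x - z) + b * gk 1 (y - z)) ∂l ∂l ∂l := by
        apply setLIntegral_mono' Metric.isOpen_ball.measurableSet
        intro z hz
        have hball := h.ball_ge hδ hδr hz
        rw [← hA] at hball
        calc eexp (3 * b - 3) * A ^ 2 ≤ eexp (3 * b - 3) * l (Metric.ball z δ) ^ 2 := by gcongr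
          _ = ∫⁻ _ in Metric.ball z δ, eexp (3 * b - 3) * l (Metric.ball z δ) ∂l := by
              rw [setLIntegral_const, pow_two, mul_assoc]
          _ ≤ ∫⁻ y in Metric.ball z δ, ∫⁻ x,
                eexp (b * gk 1 (x - y) + b * gk 1 (x - z) + b * gk 1 (y - z)) ∂l ∂l := by
              apply setLIntegral_mono' Metric.isOpen_ball.measurableSet
              intro y hy
              calc eexp (3 * b - 3) * l (Metric.ball z δ)
                  = ∫⁻ _ in Metric.ball z δ, eexp (3 * b - 3) ∂l := by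
                    rw [setLIntegral_const]
                _ ≤ ∫⁻ x in Metric.ball z δ,
                    eexp (b * gk 1 (x - y) + b * gk 1 (x - z) + b * gk 1 (y - z)) ∂l := by
                    apply setLIntegral_mono' Metric.isOpen_ball.measurableSet
                    intro x hx
                    apply eexp_mono
                    rw [Metric.mem_ball] at hx hy
                    have hxz : ‖x - z‖ ≤ 1 * δ := by
                      rw [← dist_eq_norm_sub, one_mul]; exact hx.le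
                    have hyz : ‖y - z‖ ≤ 1 * δ := by
                      rw [← dist_eq_norm_sub, one_mul]; exact hy.le
                    have hxy : ‖x - y‖ ≤ 2 * δ := by
                      rw [← dist_eq_norm_sub]
                      have := dist_triangle_right x y z
                      linarith
                    have e1 := mul_le_mul_of_nonneg_left (gk_one_ge hxz) hb0.le
                    have e2 := mul_le_mul_of_nonneg_left (gk_one_ge hyz) hb0.le
                    have e3 := mul_le_mul_of_nonneg_left (gk_one_ge hxy) hb0.le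
                    have e4 : b * δ ^ 2 = 1 := by rw [hb]; field_simp
                    nlinarith
                _ ≤ _ := setLIntegral_le_lintegral _ _
          _ ≤ _ := setLIntegral_le_lintegral _ _
    _ ≤ _ := setLIntegral_le_lintegral _ _

lemma IsRef.measure_ball_pos (h : IsRef l x₀ r C c₀) : 0 < l (Metric.ball x₀ (r / 4)) := by
  have hr := h.rpos
  have h1 := h.ball_ge (show 0 < r / 4 by linarith) le_rfl
    (Metric.mem_ball_self (x := x₀) (show 0 < r / 4 by linarith))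
  refine lt_of_lt_of_le ?_ h1
  have h2 : 0 < volume (Metric.ball (0 : Eu d) 1) := Metric.measure_ball_pos _ _ (by norm_num)
  have h3 : 0 < ENNReal.ofReal ((r / 4) ^ d) := by
    rw [ENNReal.ofReal_pos]; positivity
  have h4 : 0 < (c₀ : ℝ≥0∞) := by exact_mod_cast h.cpos
  exact ENNReal.mul_pos h4.ne' (ENNReal.mul_pos h3.ne' h2.ne').ne'

/-- The moments of the exponential of the Gaussian kernel violate the necessary condition. -/
lemma IsRef.violation (hd : 1 ≤ d) (h : IsRef l x₀ r C c₀) : ∃ β : ℝ, 0 < β ∧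
    L2i l (fun x => β * gk 1 x) ≠ ∞ ∧ L4i l (fun x => β * gk 1 x) ≠ ∞ ∧
    L4i l (fun x => β * gk 1 x) * L2i l (fun x => β * gk 1 x) ^ 6
      < L3i l (fun x => β * gk 1 x) ^ 4 * l univ ^ 4 := by
  have hfin := h.finite
  have hr := h.rpos
  set V := volume (Metric.ball (0 : Eu d) 1) with hV
  have hV0 : V ≠ 0 := (Metric.measure_ball_pos _ _ (by norm_num)).ne'
  have hVt : V ≠ ∞ := (measure_ball_lt_top).ne
  set B := l (Metric.ball x₀ (r / 4)) with hB
  have hB0 : B ≠ 0 := h.measure_ball_pos.ne'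
  set Λ := l univ with hΛ
  have hΛt : Λ ≠ ∞ := measure_ne_top _ _
  have hΛ0 : Λ ≠ 0 := by
    intro h0
    apply hB0
    rw [← nonpos_iff_eq_zero, ← h0]
    exact measure_mono (subset_univ _)
  have hc0 : (c₀ : ℝ≥0∞) ≠ 0 := by exact_mod_cast h.cpos.ne'
  set K := ENNReal.ofReal (C * gaussC d r) with hK
  have hKt : K ≠ ∞ := ENNReal.ofReal_ne_top
  set Q := eexp (-12) * ((c₀ : ℝ≥0∞) * V) ^ 8 * B ^ 4 * Λ ^ 4 with hQ
  have hexp0 : ∀ t, eexp t ≠ 0 := by
    intro t
    unfold eexp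
    rw [Ne, ENNReal.ofReal_eq_zero, not_le]
    exact Real.exp_pos _
  have hQ0 : 0 < Q := by
    rw [hQ]
    have : eexp (-12) * ((c₀ : ℝ≥0∞) * V) ^ 8 * B ^ 4 * Λ ^ 4 ≠ 0 := by
      refine mul_ne_zero (mul_ne_zero (mul_ne_zero (hexp0 _) ?_) ?_) ?_
      · exact pow_ne_zero _ (mul_ne_zero hc0 hV0)
      · exact pow_ne_zero _ hB0
      · exact pow_ne_zero _ hΛ0
    exact pos_iff_ne_zero.mpr this
  have hlim : Tendsto (fun δ : ℝ => ENNReal.ofReal (δ ^ d) * (K ^ 9 * Λ ^ 7)) (𝓝[>] 0) (𝓝 0) := by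
    have h1 : Tendsto (fun δ : ℝ => ENNReal.ofReal (δ ^ d)) (𝓝[>] 0) (𝓝 0) := by
      have h2 : Continuous (fun δ : ℝ => ENNReal.ofReal (δ ^ d)) :=
        ENNReal.continuous_ofReal.comp (continuous_pow d)
      have h3 := h2.tendsto 0
      rw [zero_pow (by omega), ENNReal.ofReal_zero] at h3
      exact h3.mono_left nhdsWithin_le_nhds
    have h4 := ENNReal.Tendsto.mul_const (b := K ^ 9 * Λ ^ 7) h1
      (Or.inr (ENNReal.mul_ne_top (ENNReal.pow_ne_top hKt) (ENNReal.pow_ne_top hΛt)))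
    rw [zero_mul] at h4
    exact h4
  have hev := hlim.eventually (gt_mem_nhds hQ0)
  have hev2 : ∀ᶠ δ : ℝ in 𝓝[>] 0, δ ≤ r / 4 := by
    have : Iic (r / 4) ∈ 𝓝 (0:ℝ) := Iic_mem_nhds (by linarith)
    exact mem_nhdsWithin_of_mem_nhds this
  obtain ⟨δ, ⟨hδ1, hδ2⟩, hδ3⟩ := ((hev.and hev2).and self_mem_nhdsWithin).exists
  have hδ : 0 < δ := hδ3
  refine ⟨1 / δ ^ 2, by positivity, ?_, ?_, ?_⟩
  · refine ne_top_of_le_ne_top ?_ (h.L2i_le hδ)
    exact ENNReal.mul_ne_top (ENNReal.mul_ne_top (eexp_ne_top _) ENNReal.ofReal_ne_top) hΛt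
  · refine ne_top_of_le_ne_top ?_ (h.L4i_le hδ)
    exact ENNReal.mul_ne_top (ENNReal.mul_ne_top (eexp_ne_top _)
      (ENNReal.pow_ne_top ENNReal.ofReal_ne_top)) hΛt
  · have h2 := h.L2i_le hδ
    have h4 := h.L4i_le hδ
    have h3 := h.L3i_ge hδ hδ2
    set b := 1 / δ ^ 2 with hb
    set D := ENNReal.ofReal (δ ^ d) with hD
    have hD0 : D ≠ 0 := by
      rw [hD, Ne, ENNReal.ofReal_eq_zero, not_le]; positivity
    have hDt : D ≠ ∞ := ENNReal.ofReal_ne_top
    have hG : ENNReal.ofReal (C * gaussC d r * δ ^ d) = K * D := by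
      rw [hK, hD, ENNReal.ofReal_mul]
      have := gaussC_pos d hr
      positivity
    rw [hG] at h2 h4
    have e12 : eexp (6 * b) * eexp b ^ 6 = eexp (12 * b) := by
      have : eexp b ^ 6 = eexp (6 * b) := by
        unfold eexp
        rw [← ENNReal.ofReal_pow (Real.exp_pos _).le, ← Real.exp_nat_mul]
        norm_num
      rw [this, ← eexp_add]
      congr 1
      ring
    have e12' : eexp (3 * b - 3) ^ 4 = eexp (12 * b) * eexp (-12) := by
      rw [← eexp_add]
      unfold eexp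
      rw [← ENNReal.ofReal_pow (Real.exp_pos _).le, ← Real.exp_nat_mul]
      congr 2
      push_cast
      ring
    calc L4i l (fun x => b * gk 1 x) * L2i l (fun x => b * gk 1 x) ^ 6
        ≤ (eexp (6 * b) * (K * D) ^ 3 * Λ) * (eexp b * (K * D) * Λ) ^ 6 := by gcongr
      _ = (eexp (12 * b) * D ^ 8) * (D * (K ^ 9 * Λ ^ 7)) := by
          rw [← e12]; ring
      _ < (eexp (12 * b) * D ^ 8) * Q := by
          apply (ENNReal.mul_lt_mul_iff_right _ _).mpr hδ1
          · exact mul_ne_zero (hexp0 _) (pow_ne_zero _ hD0)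
          · exact ENNReal.mul_ne_top (eexp_ne_top _) (ENNReal.pow_ne_top hDt)
      _ = (eexp (3 * b - 3) * ((c₀ : ℝ≥0∞) * (D * V)) ^ 2 * B) ^ 4 * Λ ^ 4 := by
          rw [mul_pow, mul_pow, e12', hQ]; ring
      _ ≤ L3i l (fun x => b * gk 1 x) ^ 4 * Λ ^ 4 := by gcongr

end

end Pool.Agent.H87.GMC
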