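import Mathlib
import Pool.Agent.H87.GMC.Kernel

open MeasureTheory ProbabilityTheory Filter Topology Set
open scoped NNReal ENNReal InnerProductSpace

namespace Pool.Agent.H87.GMC

variable {d : ℕ}

lemma integrable_conv_prod {f g : Eu d → ℝ} (hf : Integrable f) (hg : Integrable g) :
    Integrable (fun p : Eu d × Eu d => g (p.1 - p.2) * f p.2) := by
  have h := hf.convolution_integrand (ContinuousLinearMap.mul ℝ ℝ) hg
  refine h.congr ?_
  filter_upwards with p
  simp only [ContinuousLinearMap.mul_apply']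
  ring

lemma gk_posDef (s : ℝ) {v : Eu d → ℝ} (hv : Integrable v) :
    0 ≤ ∫ p : Eu d × Eu d, v p.1 * gk s (p.1 - p.2) * v p.2 := by
  have h1 : ∀ p : Eu d × Eu d, v p.1 * gk s (p.1 - p.2) * v p.2
      = ∫ ξ, v p.1 * v p.2 * Real.cos (s * ⟪ξ, p.1 - p.2⟫_ℝ) ∂(gam d) := by
    intro p
    rw [integral_const_mul, integral_cos_gam]
    ring
  simp_rw [h1]
  have hvv : Integrable (fun p : Eu d × Eu d => v p.1 * v p.2) := hv.mul_prod hv
  have hI : Integrable (Function.uncurry fun (p : Eu d × Eu d) (ξ : Eu d) =>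
      v p.1 * v p.2 * Real.cos (s * ⟪ξ, p.1 - p.2⟫_ℝ)) (volume.prod (gam d)) := by
    have h2 : Integrable (fun q : (Eu d × Eu d) × Eu d => (v q.1.1 * v q.1.2) * (1:ℝ))
        (volume.prod (gam d)) :=
      Integrable.mul_prod (f := fun p : Eu d × Eu d => v p.1 * v p.2) (g := fun _ : Eu d => (1:ℝ))
        hvv (integrable_const 1)
    have h3 : Measurable (fun q : (Eu d × Eu d) × Eu d => Real.cos (s * ⟪q.2, q.1.1 - q.1.2⟫_ℝ)) := by
      fun_prop
    have h4 := h2.bdd_mul (c := 1) h3.aestronglyMeasurable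
      (Eventually.of_forall fun q => by
        rw [Real.norm_eq_abs]; exact Real.abs_cos_le_one _)
    refine h4.congr ?_
    filter_upwards with q
    simp only [Function.uncurry]
    ring
  rw [integral_integral_swap hI]
  apply integral_nonneg
  intro ξ
  simp only [Pi.zero_apply]
  have hc : ∀ p : Eu d × Eu d, v p.1 * v p.2 * Real.cos (s * ⟪ξ, p.1 - p.2⟫_ℝ)
      = (v p.1 * Real.cos (s * ⟪ξ, p.1⟫_ℝ)) * (v p.2 * Real.cos (s * ⟪ξ, p.2⟫_ℝ))
        + (v p.1 * Real.sin (s * ⟪ξ, p.1⟫_ℝ)) * (v p.2 * Real.sin (s * ⟪ξ, p.2⟫_ℝ)) := by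
    intro p
    rw [inner_sub_right, mul_sub, Real.cos_sub]
    ring
  simp_rw [hc]
  have hic : Integrable (fun x => v x * Real.cos (s * ⟪ξ, x⟫_ℝ)) := by
    have := hv.bdd_mul (f := fun x => Real.cos (s * ⟪ξ, x⟫_ℝ)) (c := 1)
      (by fun_prop) (Eventually.of_forall fun q => by
        rw [Real.norm_eq_abs]; exact Real.abs_cos_le_one _)
    refine this.congr ?_
    filter_upwards with x
    ring
  have his : Integrable (fun x => v x * Real.sin (s * ⟪ξ, x⟫_ℝ)) := by
    have := hv.bdd_mul (f := fun x => Real.sin (s * ⟪ξ, x⟫_ℝ)) (c := 1)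
      (by fun_prop) (Eventually.of_forall fun q => by
        rw [Real.norm_eq_abs]; exact Real.abs_sin_le_one _)
    refine this.congr ?_
    filter_upwards with x
    ring
  have e1 := integral_prod_mul (μ := (volume : Measure (Eu d))) (ν := (volume : Measure (Eu d)))
    (fun x => v x * Real.cos (s * ⟪ξ, x⟫_ℝ)) (fun x => v x * Real.cos (s * ⟪ξ, x⟫_ℝ))
  have e2 := integral_prod_mul (μ := (volume : Measure (Eu d))) (ν := (volume : Measure (Eu d)))
    (fun x => v x * Real.sin (s * ⟪ξ, x⟫_ℝ)) (fun x => v x * Real.sin (s * ⟪ξ, x⟫_ℝ))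
  rw [Measure.volume_eq_prod, integral_add (hic.mul_prod hic) (his.mul_prod his), e1, e2]
  exact add_nonneg (mul_self_nonneg _) (mul_self_nonneg _)

lemma ae_prod_ne (hd : 1 ≤ d) : ∀ᵐ p : Eu d × Eu d, p.1 - p.2 ≠ 0 := by
  have : Nonempty (Fin d) := ⟨⟨0, hd⟩⟩
  have hm : MeasurableSet {p : Eu d × Eu d | p.1 - p.2 = 0} :=
    measurableSet_eq_fun (by fun_prop) measurable_const
  have h1 : (volume : Measure (Eu d × Eu d)) {p : Eu d × Eu d | p.1 - p.2 = 0} = 0 := by
    rw [Measure.volume_eq_prod, Measure.measure_prod_null hm]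
    filter_upwards with x
    have : Prod.mk x ⁻¹' {p : Eu d × Eu d | p.1 - p.2 = 0} = {x} := by
      ext y
      simp [sub_eq_zero, eq_comm]
    rw [this]
    simp
  rw [ae_iff]
  simpa using h1

theorem isPosDef_gker (hd : 1 ≤ d) {c : ℝ} (hc : 0 ≤ c) : IsPosDef (gker c : Eu d → ℝ) := by
  refine ⟨gker_neg c, fun v hv hvc => ?_⟩
  have hvI : Integrable v := hv.integrable_of_hasCompactSupport hvc
  obtain ⟨C, hC⟩ := hv.bounded_above_of_compact_support hvc
  have hI : Integrable (fun p : Eu d × Eu d => v p.1 * gker c (p.1 - p.2) * v p.2) := by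
    have h1 := integrable_conv_prod hvI (integrable_gker hd c)
    have h2 := h1.bdd_mul (f := fun p : Eu d × Eu d => v p.1) (c := C)
      (by fun_prop) (Eventually.of_forall fun q => hC _)
    refine h2.congr ?_
    filter_upwards with p
    ring
  rw [Measure.volume_eq_prod] at hI
  rw [← integral_prod (fun p : Eu d × Eu d => v p.1 * gker c (p.1 - p.2) * v p.2) hI]
  -- rewrite the kernel as a mixture
  have h3 : ∫ p : Eu d × Eu d, v p.1 * gker c (p.1 - p.2) * v p.2
      = ∫ p : Eu d × Eu d, ∫ s, v p.1 * gk s (p.1 - p.2) * v p.2 ∂(scaleM c) := by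
    apply integral_congr_ae
    filter_upwards [ae_prod_ne hd] with p hp
    rw [integral_mul_const, integral_const_mul, integral_gk_scaleM hc hp]
  rw [← Measure.volume_eq_prod, h3]
  let F : (Eu d × Eu d) × ℝ → ℝ := fun q => v q.1.1 * gk q.2 (q.1.1 - q.1.2) * v q.1.2
  have hmeas : Measurable F := by
    simp only [F]
    unfold gk
    have := hv.measurable
    fun_prop
  have h4 : Integrable (fun p : Eu d × Eu d => |v p.1| * gker c (p.1 - p.2) * |v p.2|) := by
    rw [Measure.volume_eq_prod]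
    refine hI.norm.congr ?_
    filter_upwards with p
    rw [norm_mul, norm_mul, Real.norm_eq_abs, Real.norm_eq_abs, Real.norm_eq_abs,
      abs_of_nonneg (gker_nonneg hc _)]
  have hI2 : Integrable F (volume.prod (scaleM c)) := by
    rw [integrable_prod_iff hmeas.aestronglyMeasurable]
    constructor
    · filter_upwards [ae_prod_ne hd] with p hp
      have h7 := ((integrable_gk_scaleM c hp).const_mul (v p.1)).mul_const (v p.2)
      exact h7
    · refine h4.congr ?_
      filter_upwards [ae_prod_ne hd] with p hp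
      have h5 : ∀ s, ‖F (p, s)‖ = |v p.1| * gk s (p.1 - p.2) * |v p.2| := by
        intro s
        simp only [F]
        rw [norm_mul, norm_mul, Real.norm_eq_abs, Real.norm_eq_abs, Real.norm_eq_abs,
          abs_of_nonneg (gk_pos _ _).le]
      simp_rw [h5]
      rw [integral_mul_const, integral_const_mul, integral_gk_scaleM hc hp]
  have h6 : ∫ p : Eu d × Eu d, ∫ s, v p.1 * gk s (p.1 - p.2) * v p.2 ∂(scaleM c)
      = ∫ q, F q ∂(volume.prod (scaleM c)) := (integral_prod F hI2).symm
  rw [h6, integral_prod_symm F hI2]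
  apply integral_nonneg
  intro s
  exact gk_posDef s hvI

/-- The covariance function of the counterexample is admissible. -/
theorem isKernel_gker (hd : 1 ≤ d) {c : ℝ} (hc : 0 ≤ c) : IsKernel (gker c : Eu d → ℝ) := by
  refine ⟨isPosDef_gker hd hc, fun x => h0 ‖x‖ + c * gk 1 x, ?_, ?_, ?_⟩
  · exact (continuous_h0.comp continuous_norm).add ((continuous_gk 1).const_mul c)
  · refine ⟨max (G0 1 + 3) |h0 0| + c, fun x => ?_⟩
    have h1 : |h0 ‖x‖| ≤ max (G0 1 + 3) |h0 0| := by
      rcases (norm_nonneg x).eq_or_lt with hx | hx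
      · rw [← hx]; exact le_max_right _ _
      · exact (abs_h0_le hx).trans (le_max_left _ _)
    have h2 : |c * gk 1 x| ≤ c := by
      rw [abs_of_nonneg (mul_nonneg hc (gk_pos _ _).le)]
      exact mul_le_of_le_one_right hc (gk_le_one _ _)
    exact (abs_add_le _ _).trans (add_le_add h1 h2)
  · intro x hx
    unfold gker
    rw [G0_eq_log_add (norm_pos_iff.mpr hx)]
    ring

end Pool.Agent.H87.GMC
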