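import Mathlib
import Pool.Agent.H87.GMC.PosDef

open MeasureTheory ProbabilityTheory Filter Topology Set
open scoped NNReal ENNReal InnerProductSpace

namespace Pool.Agent.H87.GMC

variable {d : ℕ}

/-- The Fourier transform of an even function. -/
noncomputable def thetaHat (θ : Eu d → ℝ) (v : Eu d) : ℝ := ∫ z, θ z * Real.cos ⟪v, z⟫_ℝ

lemma IsBump.integrable {θ : Eu d → ℝ} (h : IsBump θ) : Integrable θ := by
  by_contra hcon
  have := h.integral_eq_one
  rw [integral_undef hcon] at this
  exact zero_ne_one this

lemma IsBump.bounded {θ : Eu d → ℝ} (h : IsBump θ) : ∃ C, ∀ x, |θ x| ≤ C := by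
  obtain ⟨C, hC⟩ := h.decay 0
  refine ⟨C, fun x => ?_⟩
  have := hC x
  rw [abs_of_nonneg (h.nonneg x)]
  simpa using this

lemma thetaHat_zero {θ : Eu d → ℝ} (h : IsBump θ) : thetaHat θ 0 = 1 := by
  unfold thetaHat
  simp [h.integral_eq_one]

lemma abs_thetaHat_le {θ : Eu d → ℝ} (h : IsBump θ) (v : Eu d) : |thetaHat θ v| ≤ 1 := by
  unfold thetaHat
  rw [← Real.norm_eq_abs]
  refine (norm_integral_le_of_norm_le h.integrable ?_).trans (le_of_eq h.integral_eq_one)
  filter_upwards with z
  rw [norm_mul, Real.norm_eq_abs, Real.norm_eq_abs, abs_of_nonneg (h.nonneg z)]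
  exact mul_le_of_le_one_right (h.nonneg z) (Real.abs_cos_le_one _)

lemma continuous_thetaHat {θ : Eu d → ℝ} (h : IsBump θ) : Continuous (thetaHat θ) := by
  unfold thetaHat
  apply continuous_of_dominated (bound := θ)
  · intro v
    have := h.continuous
    fun_prop
  · intro v
    filter_upwards with z
    rw [norm_mul, Real.norm_eq_abs, Real.norm_eq_abs, abs_of_nonneg (h.nonneg z)]
    exact mul_le_of_le_one_right (h.nonneg z) (Real.abs_cos_le_one _)
  · exact h.integrable
  · filter_upwards with z
    fun_prop

/-- a tent function -/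
noncomputable def tent (x : Eu d) : ℝ := max 0 (1 - ‖x‖)

lemma continuous_tent : Continuous (tent : Eu d → ℝ) := by unfold tent; fun_prop

lemma tent_nonneg (x : Eu d) : 0 ≤ tent x := le_max_left _ _

lemma tent_le_one (x : Eu d) : tent x ≤ 1 := by
  unfold tent
  apply max_le zero_le_one
  have := norm_nonneg x
  linarith

lemma tent_hasCompactSupport : HasCompactSupport (tent : Eu d → ℝ) := by
  apply HasCompactSupport.of_support_subset_isCompact (isCompact_closedBall (0 : Eu d) 1)
  intro x hx
  rw [mem_closedBall_zero_iff]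
  by_contra hcon
  apply hx
  unfold tent
  rw [max_eq_left]
  linarith [not_le.mp hcon]

lemma tent_integrable : Integrable (tent : Eu d → ℝ) :=
  continuous_tent.integrable_of_hasCompactSupport tent_hasCompactSupport

/-- autocorrelation of the tent -/
noncomputable def tentA (s : Eu d) : ℝ := ∫ w, tent w * tent (w - s)

lemma abs_tentA_le (s : Eu d) : |tentA s| ≤ ∫ w, tent (w : Eu d) := by
  unfold tentA
  rw [← Real.norm_eq_abs]
  apply norm_integral_le_of_norm_le tent_integrable
  filter_upwards with w
  rw [Real.norm_of_nonneg (mul_nonneg (tent_nonneg _) (tent_nonneg _))]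
  exact mul_le_of_le_one_right (tent_nonneg _) (tent_le_one _)

lemma continuous_tentA : Continuous (tentA : Eu d → ℝ) := by
  unfold tentA
  apply continuous_of_dominated (bound := tent)
  · intro v
    have := continuous_tent (d := d)
    fun_prop
  · intro v
    filter_upwards with w
    rw [Real.norm_of_nonneg (mul_nonneg (tent_nonneg _) (tent_nonneg _))]
    exact mul_le_of_le_one_right (tent_nonneg _) (tent_le_one _)
  · exact tent_integrable
  · filter_upwards with z
    have := continuous_tent (d := d)
    fun_prop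

lemma tentA_zero_pos : 0 < (tentA (0 : Eu d)) := by
  unfold tentA
  simp only [sub_zero]
  have h1 : Continuous (fun w : Eu d => tent w * tent w) := continuous_tent.mul continuous_tent
  apply h1.integral_pos_of_hasCompactSupport_nonneg_nonzero (x := 0)
  · exact tent_hasCompactSupport.mul_left
  · intro w; exact mul_self_nonneg _
  · unfold tent
    simp

lemma thetaHat_nonneg {θ : Eu d → ℝ} (h : IsBump θ) (v : Eu d) : 0 ≤ thetaHat θ v := by
  -- for each scale `T`
  have key : ∀ n : ℕ, 0 ≤ ∫ z, θ z * Real.cos ⟪v, z⟫_ℝ * tentA (((n : ℝ) + 1)⁻¹ • z) := by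
    intro n
    set T : ℝ := (n : ℝ) + 1 with hT
    have hTpos : 0 < T := by positivity
    let χ : Eu d → ℝ := fun x => tent (T⁻¹ • x)
    have hχc : Continuous χ := continuous_tent.comp (continuous_const_smul _)
    have hχs : HasCompactSupport χ := by
      have := (tent_hasCompactSupport (d := d)).comp_homeomorph (Homeomorph.smulOfNeZero T⁻¹ (by positivity))
      exact this
    have hχI : Integrable χ := hχc.integrable_of_hasCompactSupport hχs
    have hχ0 : ∀ x, 0 ≤ χ x := fun x => tent_nonneg _
    have hχ1 : ∀ x, χ x ≤ 1 := fun x => tent_le_one _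
    -- general computation for a test function
    have hgen : ∀ f : Eu d → ℝ, Continuous f → (∀ x, |f x| ≤ 1) →
        ∫ x, ∫ y, (χ x * f x) * θ (x - y) * (χ y * f y)
          = ∫ z, ∫ x, θ z * ((χ x * f x) * (χ (x - z) * f (x - z))) := by
      intro f hf hf1
      have h1 : ∀ x, ∫ y, (χ x * f x) * θ (x - y) * (χ y * f y)
          = ∫ z, θ z * ((χ x * f x) * (χ (x - z) * f (x - z))) := by
        intro x
        have h2 := integral_sub_left_eq_self
          (fun y => (χ x * f x) * θ (x - y) * (χ y * f y)) (volume : Measure (Eu d)) x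
        rw [← h2]
        congr 1
        funext z
        rw [sub_sub_cancel]
        ring
      simp_rw [h1]
      apply integral_integral_swap
      have h3 : Integrable (fun p : Eu d × Eu d => χ p.1 * θ p.2) (volume.prod volume) :=
        hχI.mul_prod h.integrable
      have h4 : Measurable (fun p : Eu d × Eu d => f p.1 * (χ (p.1 - p.2) * f (p.1 - p.2))) := by
        have := hf.measurable
        have := hχc.measurable
        fun_prop
      have h5 := h3.bdd_mul (c := 1) h4.aestronglyMeasurable
        (Eventually.of_forall fun q => by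
          rw [Real.norm_eq_abs, abs_mul, abs_mul, abs_of_nonneg (hχ0 _)]
          have a1 := hf1 q.1
          have a2 := hf1 (q.1 - q.2)
          have a3 := hχ1 (q.1 - q.2)
          have a4 := hχ0 (q.1 - q.2)
          have a5 := abs_nonneg (f q.1)
          have a6 := abs_nonneg (f (q.1 - q.2))
          calc |f q.1| * (χ (q.1 - q.2) * |f (q.1 - q.2)|) ≤ 1 * (1 * 1) := by gcongr
            _ = 1 := by norm_num)
      refine h5.congr ?_
      filter_upwards with p
      simp only [Function.uncurry]
      ring
    have hcos := h.posDef.2 (fun x => χ x * Real.cos ⟪v, x⟫_ℝ) (by fun_prop)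
      (hχs.mul_right)
    have hsin := h.posDef.2 (fun x => χ x * Real.sin ⟪v, x⟫_ℝ) (by fun_prop)
      (hχs.mul_right)
    rw [hgen (fun x => Real.cos ⟪v, x⟫_ℝ) (by fun_prop) (fun x => Real.abs_cos_le_one _)] at hcos
    rw [hgen (fun x => Real.sin ⟪v, x⟫_ℝ) (by fun_prop) (fun x => Real.abs_sin_le_one _)] at hsin
    -- integrability of inner and outer integrals
    have hinner : ∀ f : Eu d → ℝ, Continuous f → (∀ x, |f x| ≤ 1) → ∀ z,
        Integrable (fun x => θ z * ((χ x * f x) * (χ (x - z) * f (x - z)))) := by
      intro f hf hf1 z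
      have h4 : Measurable (fun x : Eu d => θ z * (f x * (χ (x - z) * f (x - z)))) := by
        have := hf.measurable
        have := hχc.measurable
        fun_prop
      have h5 := hχI.bdd_mul (c := |θ z|) h4.aestronglyMeasurable
        (Eventually.of_forall fun q => by
          rw [Real.norm_eq_abs, abs_mul, abs_mul, abs_mul, abs_of_nonneg (hχ0 _)]
          have a1 := hf1 q
          have a2 := hf1 (q - z)
          have a3 := hχ1 (q - z)
          have a4 := hχ0 (q - z)
          calc |θ z| * (|f q| * (χ (q - z) * |f (q - z)|)) ≤ |θ z| * (1 * (1 * 1)) := by gcongr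
            _ = |θ z| := by norm_num)
      refine h5.congr ?_
      filter_upwards with x
      ring
    have houter : ∀ f : Eu d → ℝ, Continuous f → (∀ x, |f x| ≤ 1) →
        Integrable (fun z => ∫ x, θ z * ((χ x * f x) * (χ (x - z) * f (x - z)))) := by
      intro f hf hf1
      have h3 : Integrable (fun p : Eu d × Eu d => χ p.1 * θ p.2) (volume.prod volume) :=
        hχI.mul_prod h.integrable
      have h4 : Measurable (fun p : Eu d × Eu d => f p.1 * (χ (p.1 - p.2) * f (p.1 - p.2))) := by
        have := hf.measurable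
        have := hχc.measurable
        fun_prop
      have h5 := h3.bdd_mul (c := 1) h4.aestronglyMeasurable
        (Eventually.of_forall fun q => by
          rw [Real.norm_eq_abs, abs_mul, abs_mul, abs_of_nonneg (hχ0 _)]
          have a1 := hf1 q.1
          have a2 := hf1 (q.1 - q.2)
          have a3 := hχ1 (q.1 - q.2)
          have a4 := hχ0 (q.1 - q.2)
          have a5 := abs_nonneg (f q.1)
          have a6 := abs_nonneg (f (q.1 - q.2))
          calc |f q.1| * (χ (q.1 - q.2) * |f (q.1 - q.2)|) ≤ 1 * (1 * 1) := by gcongr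
            _ = 1 := by norm_num)
      have h6 := h5.integral_prod_right
      refine h6.congr ?_
      filter_upwards with z
      congr 1
      funext x
      ring
    have hsum := add_nonneg hcos hsin
    rw [← integral_add (houter _ (by fun_prop) (fun x => Real.abs_cos_le_one _))
      (houter _ (by fun_prop) (fun x => Real.abs_sin_le_one _))] at hsum
    have h7 : ∀ z, (∫ x, θ z * ((χ x * Real.cos ⟪v, x⟫_ℝ) * (χ (x - z) * Real.cos ⟪v, x - z⟫_ℝ)))
        + (∫ x, θ z * ((χ x * Real.sin ⟪v, x⟫_ℝ) * (χ (x - z) * Real.sin ⟪v, x - z⟫_ℝ)))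
        = T ^ d * (θ z * Real.cos ⟪v, z⟫_ℝ * tentA (T⁻¹ • z)) := by
      intro z
      rw [← integral_add (hinner _ (by fun_prop) (fun x => Real.abs_cos_le_one _) z)
        (hinner _ (by fun_prop) (fun x => Real.abs_sin_le_one _) z)]
      have h8 : ∀ x, θ z * ((χ x * Real.cos ⟪v, x⟫_ℝ) * (χ (x - z) * Real.cos ⟪v, x - z⟫_ℝ))
          + θ z * ((χ x * Real.sin ⟪v, x⟫_ℝ) * (χ (x - z) * Real.sin ⟪v, x - z⟫_ℝ))
          = (θ z * Real.cos ⟪v, z⟫_ℝ) * (χ x * χ (x - z)) := by
        intro x
        have h9 : Real.cos ⟪v, z⟫_ℝ = Real.cos ⟪v, x⟫_ℝ * Real.cos ⟪v, x - z⟫_ℝ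
            + Real.sin ⟪v, x⟫_ℝ * Real.sin ⟪v, x - z⟫_ℝ := by
          rw [← Real.cos_sub, ← inner_sub_right, sub_sub_cancel]
        rw [h9]
        ring
      simp_rw [h8]
      rw [integral_const_mul]
      have h10 : ∫ x, χ x * χ (x - z) = T ^ d * tentA (T⁻¹ • z) := by
        have h11 := Measure.integral_comp_inv_smul (volume : Measure (Eu d))
          (fun w => tent w * tent (w - T⁻¹ • z)) T
        simp only [finrank_euclideanSpace, Fintype.card_fin, smul_eq_mul] at h11
        rw [abs_of_pos (by positivity)] at h11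
        unfold tentA
        rw [← h11]
        congr 1
        funext x
        simp only [χ]
        rw [smul_sub]
      rw [h10]
      ring
    simp_rw [h7] at hsum
    rw [integral_const_mul] at hsum
    exact nonneg_of_mul_nonneg_right hsum (by positivity)
  have hlim : Tendsto (fun n : ℕ => ∫ z, θ z * Real.cos ⟪v, z⟫_ℝ * tentA (((n : ℝ) + 1)⁻¹ • z)) atTop
      (𝓝 (∫ z, θ z * Real.cos ⟪v, z⟫_ℝ * tentA (0 : Eu d))) := by
    apply tendsto_integral_of_dominated_convergence (fun z => θ z * ∫ w, tent (w : Eu d))
    · intro n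
      have := h.continuous
      have := continuous_tentA (d := d)
      fun_prop
    · exact h.integrable.mul_const _
    · intro n
      filter_upwards with z
      rw [norm_mul, norm_mul, Real.norm_eq_abs, Real.norm_eq_abs, Real.norm_eq_abs,
        abs_of_nonneg (h.nonneg z)]
      have a1 := Real.abs_cos_le_one ⟪v, z⟫_ℝ
      have a2 := abs_tentA_le (((n : ℝ) + 1)⁻¹ • z)
      have a3 := h.nonneg z
      calc θ z * |Real.cos ⟪v, z⟫_ℝ| * |tentA (((n : ℝ) + 1)⁻¹ • z)|
          ≤ θ z * 1 * ∫ w, tent (w : Eu d) := by gcongr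
        _ = _ := by ring
    · filter_upwards with z
      apply Tendsto.const_mul
      have h1 : Tendsto (fun n : ℕ => (((n : ℝ) + 1)⁻¹ • z)) atTop (𝓝 0) := by
        have h2 := (tendsto_one_div_add_atTop_nhds_zero_nat (𝕜 := ℝ)).smul_const z
        simpa using h2
      exact (continuous_tentA.tendsto _).comp h1
  have h1 := ge_of_tendsto' hlim key
  rw [integral_mul_const] at h1
  exact nonneg_of_mul_nonneg_left h1 tentA_zero_pos

end Pool.Agent.H87.GMC
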