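import Mathlib

open MeasureTheory ProbabilityTheory Filter Topology
open scoped NNReal ENNReal InnerProductSpace

namespace Pool.Agent.H87.GMC

/-- A separable real Hilbert space has a sequence satisfying Parseval's identity. -/
lemma exists_parseval (H : Type*) [NormedAddCommGroup H] [InnerProductSpace ℝ H]
    [CompleteSpace H] [SecondCountableTopology H] :
    ∃ c : ℕ → H, ∀ x y : H, HasSum (fun i => ⟪x, c i⟫_ℝ * ⟪c i, y⟫_ℝ) ⟪x, y⟫_ℝ := by
  obtain ⟨w, b, hb⟩ := exists_hilbertBasis ℝ H
  have hcount : Countable w := by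
    have hdisj : (Set.univ : Set w).PairwiseDisjoint (fun i => Metric.ball (b i) (1/2 : ℝ)) := by
      intro i _ j _ hij
      apply Metric.ball_disjoint_ball
      have h1 : ‖b i - b j‖ ^ 2 = 2 := by
        rw [← real_inner_self_eq_norm_sq, inner_sub_left, inner_sub_right, inner_sub_right]
        have hi := b.orthonormal.1 i
        have hj := b.orthonormal.1 j
        have hij' := b.orthonormal.2 hij
        have hji' := b.orthonormal.2 (Ne.symm hij)
        rw [real_inner_self_eq_norm_sq, real_inner_self_eq_norm_sq, hi, hj, hij', hji']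
        norm_num
      have h2 : (0:ℝ) ≤ ‖b i - b j‖ := norm_nonneg _
      rw [dist_eq_norm]
      nlinarith
    have := hdisj.countable_of_isOpen (fun i _ => Metric.isOpen_ball)
      (fun i _ => ⟨b i, Metric.mem_ball_self (by norm_num)⟩)
    exact Set.countable_univ_iff.mp this
  -- extend to ℕ
  obtain ⟨e, he⟩ := Countable.exists_injective_nat w
  classical
  let c : ℕ → H := fun n => if h : ∃ i, e i = n then b h.choose else 0
  have hc1 : ∀ i, c (e i) = b i := by
    intro i
    have h : ∃ j, e j = e i := ⟨i, rfl⟩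
    have h2 : h.choose = i := he h.choose_spec
    simp only [c, dif_pos h, h2]
  refine ⟨c, fun x y => ?_⟩
  have h1 := b.hasSum_inner_mul_inner x y
  rw [← he.hasSum_iff]
  · have h3 : ((fun i => ⟪x, c i⟫_ℝ * ⟪c i, y⟫_ℝ) ∘ e) = fun i => ⟪x, b i⟫_ℝ * ⟪b i, y⟫_ℝ := by
      funext i
      simp only [Function.comp, hc1]
    rw [h3]; exact h1
  · intro n hn
    have : c n = 0 := by
      simp only [c]
      rw [dif_neg]
      intro h
      exact hn ⟨_, h.choose_spec⟩
    simp [this]

section construction

variable {H : Type} [NormedAddCommGroup H] [InnerProductSpace ℝ H] 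

/-- the canonical noise space -/
noncomputable abbrev NoiseP : Measure (ℕ → ℝ) := Measure.infinitePi (fun _ : ℕ => gaussianReal 0 1)

/-- partial sums -/
noncomputable def partialSum (c : ℕ → H) (h : H) (n : ℕ) (a : ℕ → ℝ) : ℝ :=
  ∑ i ∈ Finset.range (n + 1), ⟪h, c i⟫_ℝ * a i

/-- the isonormal process, as a pointwise limit -/
noncomputable def isoW (c : ℕ → H) (h : H) (a : ℕ → ℝ) : ℝ :=
  limUnder atTop (fun n => partialSum c h n a)

lemma indep_coord : iIndepFun (fun (i : ℕ) (a : ℕ → ℝ) => a i) NoiseP := by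
  have := iIndepFun_infinitePi (P := fun _ : ℕ => gaussianReal 0 1) (X := fun _ x => x)
    (fun _ => measurable_id)
  exact this

lemma map_coord (i : ℕ) : NoiseP.map (fun a => a i) = gaussianReal 0 1 := by
  have := Measure.infinitePi_map_eval (μ := fun _ : ℕ => gaussianReal 0 1) i
  exact this

lemma hasGaussianLaw_coord (i : ℕ) : HasGaussianLaw (fun a : ℕ → ℝ => a i) NoiseP where
  isGaussian_map := by
    rw [map_coord]; infer_instance

lemma memLp_coord (i : ℕ) : MemLp (fun a : ℕ → ℝ => a i) 2 NoiseP :=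
  (hasGaussianLaw_coord i).memLp_two

lemma integral_coord (i : ℕ) : ∫ a, a i ∂NoiseP = 0 := by
  have h : ∫ a, a i ∂NoiseP = ∫ x, x ∂(NoiseP.map (fun a => a i)) := by
    rw [integral_map (measurable_pi_apply i).aemeasurable (by fun_prop)]
  rw [h, map_coord]
  simp

lemma variance_coord (i : ℕ) : Var[fun a : ℕ → ℝ => a i; NoiseP] = 1 := by
  have h : Var[fun a : ℕ → ℝ => a i; NoiseP] = Var[id; NoiseP.map (fun a => a i)] := by
    rw [variance_map (X := id) aemeasurable_id (measurable_pi_apply i).aemeasurable]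
    rfl
  rw [h, map_coord]
  simp

lemma measurable_partialSum (c : ℕ → H) (h : H) (n : ℕ) : Measurable (partialSum c h n) := by
  unfold partialSum
  fun_prop

lemma memLp_partialSum (c : ℕ → H) (h : H) (n : ℕ) : MemLp (partialSum c h n) 2 NoiseP := by
  unfold partialSum
  apply memLp_finsetSum
  intro i _
  exact (memLp_coord i).const_mul _

lemma map_partialSum (c : ℕ → H) (h : H) (n : ℕ) :
    NoiseP.map (partialSum c h n) = gaussianReal 0 (∑ i ∈ Finset.range (n + 1), ⟪h, c i⟫_ℝ ^ 2).toNNReal := by
  have hG : HasGaussianLaw (partialSum c h n) NoiseP := by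
    have h1 : iIndepFun (fun (i : Finset.range (n+1)) (a : ℕ → ℝ) => ⟪h, c i⟫_ℝ * a i) NoiseP := by
      have h2 := indep_coord.precomp (g := fun i : Finset.range (n+1) => (i : ℕ)) Subtype.val_injective
      exact h2.comp (fun i x => ⟪h, c i⟫_ℝ * x) (fun i => by fun_prop)
    have h3 := h1.hasGaussianLaw_sum
      (fun i : Finset.range (n+1) => (hasGaussianLaw_coord (i : ℕ)).fun_smul ⟪h, c i⟫_ℝ)
    have h4 : partialSum c h n = ∑ i : Finset.range (n+1), fun a : ℕ → ℝ => ⟪h, c i⟫_ℝ * a i := by
      ext a
      rw [Finset.sum_apply]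
      unfold partialSum
      rw [← Finset.sum_coe_sort]
    rw [h4]; exact h3
  rw [hG.map_eq_gaussianReal]
  have hmean : ∫ a, partialSum c h n a ∂NoiseP = 0 := by
    unfold partialSum
    rw [integral_finsetSum]
    · simp [integral_const_mul, integral_coord]
    · intro i _
      exact ((memLp_coord i).integrable (by norm_num)).const_mul _
  have hvar : Var[partialSum c h n; NoiseP] = ∑ i ∈ Finset.range (n + 1), ⟪h, c i⟫_ℝ ^ 2 := by
    have h5 : partialSum c h n = ∑ i ∈ Finset.range (n+1), fun a : ℕ → ℝ => ⟪h, c i⟫_ℝ * a i := by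
      ext a
      rw [Finset.sum_apply]
      rfl
    rw [h5, IndepFun.variance_sum]
    · apply Finset.sum_congr rfl
      intro i _
      rw [variance_const_mul, variance_coord, mul_one]
    · intro i _
      exact (memLp_coord i).const_mul _
    · intro i _ j _ hij
      have h6 := indep_coord.indepFun hij
      exact h6.comp (φ := fun x => ⟪h, c i⟫_ℝ * x) (ψ := fun x => ⟪h, c j⟫_ℝ * x)
        (by fun_prop) (by fun_prop)
  rw [hmean, hvar]

/-- The Parseval property. -/
def IsParseval (c : ℕ → H) : Prop :=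
  ∀ x y : H, HasSum (fun i => ⟪x, c i⟫_ℝ * ⟪c i, y⟫_ℝ) ⟪x, y⟫_ℝ

lemma IsParseval.hasSum_sq {c : ℕ → H} (hc : IsParseval c) (h : H) :
    HasSum (fun i => ⟪h, c i⟫_ℝ ^ 2) (‖h‖ ^ 2) := by
  have := hc h h
  rw [real_inner_self_eq_norm_sq] at this
  convert this using 2
  rw [real_inner_comm, sq]

lemma IsParseval.sum_le {c : ℕ → H} (hc : IsParseval c) (h : H) (n : ℕ) :
    ∑ i ∈ Finset.range (n + 1), ⟪h, c i⟫_ℝ ^ 2 ≤ ‖h‖ ^ 2 :=
  sum_le_hasSum _ (fun i _ => sq_nonneg _) (hc.hasSum_sq h)

/-- the natural filtration of the coordinates -/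
noncomputable abbrev coordFiltration : Filtration ℕ (MeasurableSpace.pi : MeasurableSpace (ℕ → ℝ)) :=
  Filtration.natural (fun i (a : ℕ → ℝ) => a i) (fun i => (measurable_pi_apply i).stronglyMeasurable)

lemma martingale_partialSum (c : ℕ → H) (h : H) :
    Martingale (partialSum c h) coordFiltration NoiseP := by
  apply martingale_of_condExp_sub_eq_zero_nat
  · intro n
    unfold partialSum
    apply Finset.stronglyMeasurable_fun_sum
    intro i hi
    have h1 : StronglyMeasurable[coordFiltration i] (fun a : ℕ → ℝ => a i) :=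
      Filtration.stronglyAdapted_natural (fun i => (measurable_pi_apply i).stronglyMeasurable) i
    have h2 : StronglyMeasurable[coordFiltration n] (fun a : ℕ → ℝ => a i) :=
      h1.mono (coordFiltration.mono (Nat.lt_succ_iff.mp (Finset.mem_range.mp hi)))
    exact h2.const_mul _
  · intro n
    exact (memLp_partialSum c h n).integrable (by norm_num)
  · intro n
    have h1 : partialSum c h (n+1) - partialSum c h n
        = ⟪h, c (n+1)⟫_ℝ • (fun a : ℕ → ℝ => a (n+1)) := by
      ext a
      simp only [Pi.sub_apply, Pi.smul_apply, smul_eq_mul]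
      unfold partialSum
      rw [Finset.sum_range_succ _ (n+1)]
      ring
    rw [h1]
    refine (condExp_smul _ _ _).trans ?_
    have h2 := indep_coord.condExp_natural_ae_eq_of_lt
      (fun i => (measurable_pi_apply i).stronglyMeasurable) (Nat.lt_succ_self n)
    filter_upwards [h2] with a ha
    simp only [Pi.smul_apply, Pi.zero_apply]
    rw [ha, integral_coord]
    simp

lemma ae_tendsto_partialSum {c : ℕ → H} (hc : IsParseval c) (h : H) :
    ∀ᵐ a ∂NoiseP, Tendsto (fun n => partialSum c h n a) atTop (𝓝 (isoW c h a)) := by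
  have hbdd : ∀ n, eLpNorm (partialSum c h n) 1 NoiseP ≤ ((‖h‖₊ : ℝ≥0) : ℝ≥0∞) := by
    intro n
    refine (eLpNorm_le_eLpNorm_of_exponent_le (p := 1) (q := 2) (by norm_num)
      (measurable_partialSum c h n).aestronglyMeasurable).trans ?_
    have h1 : eLpNorm (partialSum c h n) 2 NoiseP
        = ENNReal.ofReal (√(∑ i ∈ Finset.range (n + 1), ⟪h, c i⟫_ℝ ^ 2)) := by
      have h2 := map_partialSum c h n
      have hs : 0 ≤ ∑ i ∈ Finset.range (n + 1), ⟪h, c i⟫_ℝ ^ 2 :=
        Finset.sum_nonneg (fun i _ => sq_nonneg _)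
      have hvar : Var[partialSum c h n; NoiseP] = ∑ i ∈ Finset.range (n + 1), ⟪h, c i⟫_ℝ ^ 2 := by
        have h3 := variance_map (X := id) (μ := NoiseP) aemeasurable_id
          (measurable_partialSum c h n).aemeasurable
        rw [h2, variance_id_gaussianReal] at h3
        rw [Function.id_comp] at h3
        rw [← h3, Real.coe_toNNReal _ hs]
      have hmean : ∫ a, partialSum c h n a ∂NoiseP = 0 := by
        have h4 : ∫ a, partialSum c h n a ∂NoiseP = ∫ x, x ∂(NoiseP.map (partialSum c h n)) := by
          rw [integral_map (measurable_partialSum c h n).aemeasurable (by fun_prop)]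
        rw [h4, h2]
        simp
      rw [variance_of_integral_eq_zero (measurable_partialSum c h n).aemeasurable hmean] at hvar
      rw [(memLp_partialSum c h n).eLpNorm_eq_integral_rpow_norm (by norm_num) (by norm_num)]
      rw [Real.sqrt_eq_rpow]
      congr 1
      rw [← hvar]
      congr 1
      · congr 1
        ext a
        simp
      · norm_num
    rw [h1]
    have h2 : √(∑ i ∈ Finset.range (n + 1), ⟪h, c i⟫_ℝ ^ 2) ≤ ‖h‖ := by
      rw [Real.sqrt_le_left (norm_nonneg h)]
      exact hc.sum_le h n
    calc ENNReal.ofReal (√(∑ i ∈ Finset.range (n + 1), ⟪h, c i⟫_ℝ ^ 2))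
        ≤ ENNReal.ofReal ‖h‖ := ENNReal.ofReal_le_ofReal h2
      _ = _ := by
        rw [ofReal_norm]; rfl
  have h1 := (martingale_partialSum c h).submartingale.ae_tendsto_limitProcess hbdd
  filter_upwards [h1] with a ha
  have h2 := ha.limUnder_eq
  unfold isoW
  rw [h2]
  exact ha

lemma measurable_isoW_uncurry [MeasurableSpace H] [BorelSpace H] (c : ℕ → H) :
    Measurable (Function.uncurry (isoW c)) := by
  have h1 : ∀ n, StronglyMeasurable (fun p : H × (ℕ → ℝ) => partialSum c p.1 n p.2) := by
    intro n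
    unfold partialSum
    apply Measurable.stronglyMeasurable
    apply Finset.measurable_fun_sum
    intro i _
    have h2 : Measurable (fun p : H × (ℕ → ℝ) => ⟪p.1, c i⟫_ℝ) := by
      have h3 : Continuous (fun h : H => ⟪h, c i⟫_ℝ) := by fun_prop
      exact h3.measurable.comp measurable_fst
    have h4 : Measurable (fun p : H × (ℕ → ℝ) => p.2 i) :=
      (measurable_pi_apply i).comp measurable_snd
    exact h2.mul h4
  have h5 := StronglyMeasurable.limUnder (l := atTop) h1
  exact h5.measurable

lemma measurable_isoW (c : ℕ → H) (h : H) : Measurable (isoW c h) := by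
  have h1 : ∀ n, StronglyMeasurable (fun a : (ℕ → ℝ) => partialSum c h n a) := by
    intro n
    exact (measurable_partialSum c h n).stronglyMeasurable
  have h5 := StronglyMeasurable.limUnder (l := atTop) h1
  exact h5.measurable

lemma map_isoW {c : ℕ → H} (hc : IsParseval c) (h : H) :
    NoiseP.map (isoW c h) = gaussianReal 0 (‖h‖₊ ^ 2) := by
  have hm := measurable_isoW c h
  have : IsProbabilityMeasure (NoiseP.map (isoW c h)) :=
    Measure.isProbabilityMeasure_map hm.aemeasurable
  apply Measure.ext_of_charFun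
  ext t
  rw [charFun_gaussianReal]
  have h1 : Tendsto (fun n => charFun (NoiseP.map (partialSum c h n)) t) atTop
      (𝓝 (charFun (NoiseP.map (isoW c h)) t)) := by
    have h2 : ∀ n, charFun (NoiseP.map (partialSum c h n)) t
        = ∫ a, Complex.exp (t * partialSum c h n a * Complex.I) ∂NoiseP := by
      intro n
      rw [charFun_apply_real, integral_map (measurable_partialSum c h n).aemeasurable (by fun_prop)]
    have h3 : charFun (NoiseP.map (isoW c h)) t
        = ∫ a, Complex.exp (t * isoW c h a * Complex.I) ∂NoiseP := by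
      rw [charFun_apply_real, integral_map hm.aemeasurable (by fun_prop)]
    rw [h3]
    simp_rw [h2]
    apply tendsto_integral_of_dominated_convergence (fun _ => 1)
    · intro n
      have := measurable_partialSum c h n
      fun_prop
    · exact integrable_const 1
    · intro n
      filter_upwards with a
      rw [← Complex.ofReal_mul, Complex.norm_exp_ofReal_mul_I]
    · filter_upwards [ae_tendsto_partialSum hc h] with a ha
      have h4 : Continuous (fun x : ℝ => Complex.exp (t * x * Complex.I)) := by fun_prop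
      exact (h4.tendsto _).comp ha
  have h2 : Tendsto (fun n => charFun (NoiseP.map (partialSum c h n)) t) atTop
      (𝓝 (Complex.exp (t * (0:ℝ) * Complex.I - ((‖h‖₊ ^ 2 : ℝ≥0) : ℝ) * t ^ 2 / 2))) := by
    have h3 : ∀ n, charFun (NoiseP.map (partialSum c h n)) t
      = Complex.exp (t * (0:ℝ) * Complex.I
        - ((∑ i ∈ Finset.range (n + 1), ⟪h, c i⟫_ℝ ^ 2 : ℝ) : ℂ) * t ^ 2 / 2) := by
      intro n
      rw [map_partialSum, charFun_gaussianReal,
        Real.coe_toNNReal _ (Finset.sum_nonneg (fun i _ => sq_nonneg _))]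
    simp_rw [h3]
    have h4 := ((hc.hasSum_sq h).tendsto_sum_nat).comp (tendsto_add_atTop_nat 1)
    have h5 : Continuous (fun x : ℝ => Complex.exp (t * (0:ℝ) * Complex.I - (x : ℂ) * t ^ 2 / 2)) := by
      fun_prop
    have h6 := (h5.tendsto (‖h‖ ^ 2)).comp h4
    have h7 : (((‖h‖₊ ^ 2 : ℝ≥0) : ℝ)) = ‖h‖ ^ 2 := by simp
    rw [h7]
    exact h6
  exact tendsto_nhds_unique h1 h2

lemma isoW_sum_ae {c : ℕ → H} (hc : IsParseval c) {ι : Type*} (s : Finset ι) (r : ι → ℝ)
    (h : ι → H) :
    (fun a => ∑ i ∈ s, r i * isoW c (h i) a) =ᵐ[NoiseP] isoW c (∑ i ∈ s, r i • h i) := by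
  have h1 : ∀ᵐ a ∂NoiseP, ∀ i ∈ s, Tendsto (fun n => partialSum c (h i) n a) atTop
      (𝓝 (isoW c (h i) a)) := by
    rw [Finset.eventually_all]
    intro i _
    exact ae_tendsto_partialSum hc (h i)
  filter_upwards [h1, ae_tendsto_partialSum hc (∑ i ∈ s, r i • h i)] with a ha hb
  have h2 : Tendsto (fun n => ∑ i ∈ s, r i * partialSum c (h i) n a) atTop
      (𝓝 (∑ i ∈ s, r i * isoW c (h i) a)) := by
    apply tendsto_finset_sum
    intro i hi
    exact (ha i hi).const_mul _
  have h3 : (fun n => ∑ i ∈ s, r i * partialSum c (h i) n a)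
      = fun n => partialSum c (∑ i ∈ s, r i • h i) n a := by
    funext n
    unfold partialSum
    simp_rw [Finset.mul_sum]
    rw [Finset.sum_comm]
    apply Finset.sum_congr rfl
    intro j _
    rw [sum_inner, Finset.sum_mul]
    apply Finset.sum_congr rfl
    intro i _
    rw [real_inner_smul_left]
    ring
  rw [h3] at h2
  exact tendsto_nhds_unique h2 hb

lemma isGaussianProcess_isoW {c : ℕ → H} (hc : IsParseval c) :
    IsGaussianProcess (isoW c) NoiseP where
  hasGaussianLaw I := by
    classical
    constructor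
    have hmeas : Measurable (fun a => I.restrict (isoW c · a)) := by
      apply measurable_pi_lambda
      intro i
      exact measurable_isoW c i
    apply isGaussian_of_map_eq_gaussianReal
    intro L
    refine ⟨0, ‖∑ i : I, (L (Pi.single i 1)) • (i : H)‖₊ ^ 2, ?_⟩
    rw [Measure.map_map (by fun_prop) hmeas]
    have h1 : (L ∘ fun a => I.restrict (isoW c · a))
        = fun a => ∑ i : I, (L (Pi.single i 1)) * isoW c (i : H) a := by
      funext a
      simp only [Function.comp]
      have h2 : (I.restrict (isoW c · a)) = ∑ i : I, (isoW c (i : H) a) • (Pi.single i 1 : I → ℝ) := by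
        funext j
        simp [Finset.sum_apply, Pi.single_apply]
      rw [h2, map_sum]
      apply Finset.sum_congr rfl
      intro i _
      rw [map_smul, smul_eq_mul, mul_comm]
    rw [h1]
    rw [Measure.map_congr (isoW_sum_ae hc Finset.univ (fun i : I => L (Pi.single i 1))
      (fun i : I => (i : H)))]
    exact map_isoW hc _

lemma integral_isoW {c : ℕ → H} (hc : IsParseval c) (h : H) : ∫ a, isoW c h a ∂NoiseP = 0 := by
  have h4 : ∫ a, isoW c h a ∂NoiseP = ∫ x, x ∂(NoiseP.map (isoW c h)) := by
    rw [integral_map (measurable_isoW c h).aemeasurable (by fun_prop)]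
  rw [h4, map_isoW hc]
  simp

lemma variance_isoW {c : ℕ → H} (hc : IsParseval c) (h : H) :
    Var[isoW c h; NoiseP] = ‖h‖ ^ 2 := by
  have h3 := variance_map (X := id) (μ := NoiseP) aemeasurable_id
    (measurable_isoW c h).aemeasurable
  rw [map_isoW hc, variance_id_gaussianReal] at h3
  rw [Function.id_comp] at h3
  rw [← h3]
  simp

lemma cov_isoW {c : ℕ → H} (hc : IsParseval c) (h h' : H) :
    cov[isoW c h, isoW c h'; NoiseP] = ⟪h, h'⟫_ℝ := by
  have hL : ∀ g : H, MemLp (isoW c g) 2 NoiseP := fun g =>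
    ((isGaussianProcess_isoW hc).hasGaussianLaw_eval g).memLp_two
  have h1 := variance_add (hL h) (hL h')
  have h2 : (isoW c h + isoW c h') =ᵐ[NoiseP] isoW c (h + h') := by
    have h3 := isoW_sum_ae hc (Finset.univ : Finset (Fin 2)) (fun _ => 1) ![h, h']
    simp only [Fin.sum_univ_two, one_mul, one_smul, Matrix.cons_val_zero, Matrix.cons_val_one] at h3
    exact h3
  rw [variance_congr h2, variance_isoW hc, variance_isoW hc, variance_isoW hc] at h1
  have h4 := norm_add_sq_real h h'
  linarith

end construction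

/-- **Existence of a jointly measurable isonormal Gaussian process** over a separable real
Hilbert space. -/
theorem exists_isonormal (H : Type) [NormedAddCommGroup H] [InnerProductSpace ℝ H]
    [CompleteSpace H] [SecondCountableTopology H] [MeasurableSpace H] [BorelSpace H] :
    ∃ W : H → (ℕ → ℝ) → ℝ, Measurable (Function.uncurry W) ∧ IsGaussianProcess W NoiseP ∧
      (∀ h, ∫ a, W h a ∂NoiseP = 0) ∧ (∀ h h', cov[W h, W h'; NoiseP] = ⟪h, h'⟫_ℝ) := by
  obtain ⟨c, hc⟩ := exists_parseval H
  exact ⟨isoW c, measurable_isoW_uncurry c, isGaussianProcess_isoW hc, integral_isoW hc,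
    cov_isoW hc⟩

end Pool.Agent.H87.GMC
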