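import Mathlib
import Pool.Agent.H87.GMC.Isonormal

open MeasureTheory ProbabilityTheory Filter Topology
open scoped NNReal ENNReal InnerProductSpace

namespace Pool.Agent.H87.GMC

/-- A jointly measurable Gaussian field on an index space `X` with covariance kernel `K` and with
mean equal to minus half of the variance. -/
structure IsGField {X Ω : Type*} [MeasurableSpace X] [MeasurableSpace Ω] (P : Measure Ω)
    (ω : X → Ω → ℝ) (K : X → X → ℝ) : Prop where
  gaussian : IsGaussianProcess ω P
  measurable : Measurable (Function.uncurry ω)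
  cov : ∀ x y, cov[ω x, ω y; P] = K x y
  mean : ∀ x, ∫ a, ω x a ∂P = -(1/2) * K x x

section basics

variable {X Ω : Type*} [MeasurableSpace X] [MeasurableSpace Ω] {P : Measure Ω}
  {ω : X → Ω → ℝ} {K : X → X → ℝ}

lemma IsGField.isProb (h : IsGField P ω K) : IsProbabilityMeasure P :=
  h.gaussian.isProbabilityMeasure

lemma IsGField.meas (h : IsGField P ω K) (x : X) : Measurable (ω x) :=
  h.measurable.comp (measurable_const.prodMk measurable_id)

lemma IsGField.memLp (h : IsGField P ω K) (x : X) : MemLp (ω x) 2 P :=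
  (h.gaussian.hasGaussianLaw_eval x).memLp_two

lemma IsGField.symm (h : IsGField P ω K) (x y : X) : K x y = K y x := by
  rw [← h.cov, ← h.cov, covariance_comm]

lemma IsGField.comp (h : IsGField P ω K) {Y : Type*} [MeasurableSpace Y] {e : Y → X}
    (he : Measurable e) : IsGField P (fun y => ω (e y)) (fun y y' => K (e y) (e y')) where
  gaussian := by
    have := h.gaussian.comp_right e
    exact this
  measurable := h.measurable.comp ((he.comp measurable_fst).prodMk measurable_snd)
  cov := fun x y => h.cov _ _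
  mean := fun x => h.mean _

lemma IsGField.map_sum (h : IsGField P ω K) {ι : Type*} [Fintype ι] (r : ι → ℝ) (x : ι → X) :
    ∃ v : ℝ≥0, (v : ℝ) = ∑ i, ∑ j, r i * r j * K (x i) (x j) ∧
    P.map (fun a => ∑ i, r i * ω (x i) a)
      = gaussianReal (∑ i, r i * (-(1/2) * K (x i) (x i))) v := by
  have := h.isProb
  have h1 : HasGaussianLaw (fun a => ∑ i, r i * ω (x i) a) P := by
    have h2 := (h.gaussian.comp_right x).smul r
    exact h2.hasGaussianLaw_fun_sum (I := Finset.univ)
  have hL : ∀ i, MemLp (fun a => r i * ω (x i) a) 2 P := fun i => (h.memLp (x i)).const_mul _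
  have hv : Var[fun a => ∑ i, r i * ω (x i) a; P] = ∑ i, ∑ j, r i * r j * K (x i) (x j) := by
    rw [← covariance_self h1.aemeasurable, covariance_fun_sum_fun_sum hL hL]
    apply Finset.sum_congr rfl
    intro i _
    apply Finset.sum_congr rfl
    intro j _
    rw [covariance_const_mul_left, covariance_const_mul_right, h.cov]
    ring
  refine ⟨(Var[fun a => ∑ i, r i * ω (x i) a; P]).toNNReal, ?_, ?_⟩
  · rw [Real.coe_toNNReal _ (variance_nonneg _ _), hv]
  · rw [h1.map_eq_gaussianReal]
    congr 1
    rw [integral_finsetSum _ (fun i _ => (hL i).integrable (by norm_num))]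
    simp_rw [integral_const_mul, h.mean]

/-- Exponential moments of a Gaussian field. -/
lemma IsGField.lintegral_exp_sum (h : IsGField P ω K) {ι : Type*} [Fintype ι] (x : ι → X) :
    ∫⁻ a, ENNReal.ofReal (Real.exp (∑ i, ω (x i) a)) ∂P
      = ENNReal.ofReal (Real.exp ((∑ i, ∑ j, K (x i) (x j) - ∑ i, K (x i) (x i)) / 2)) := by
  obtain ⟨v, hv, hmap⟩ := h.map_sum (fun _ => 1) x
  simp only [one_mul] at hv hmap
  have hm : Measurable (fun a => ∑ i, ω (x i) a) := Finset.measurable_fun_sum _ (fun i _ => h.meas _)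
  have h1 : ∫⁻ a, ENNReal.ofReal (Real.exp (∑ i, ω (x i) a)) ∂P
      = ∫⁻ y, ENNReal.ofReal (Real.exp y) ∂(P.map (fun a => ∑ i, ω (x i) a)) := by
    rw [lintegral_map (by fun_prop) hm]
  rw [h1, hmap, ← ofReal_integral_eq_lintegral_ofReal]
  · have h2 := congrFun (mgf_id_gaussianReal (μ := ∑ i, -(1/2) * K (x i) (x i)) (v := v)) 1
    simp only [mgf, id, one_mul, mul_one, one_pow] at h2
    rw [h2, hv]
    congr 2
    rw [← Finset.mul_sum]
    ring
  · have h3 := integrable_exp_mul_gaussianReal (μ := ∑ i, -(1/2) * K (x i) (x i)) (v := v) 1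
    simpa using h3
  · exact Eventually.of_forall (fun y => (Real.exp_pos y).le)

lemma dual_comp_vector {Y Ω₁ : Type*} {n : ℕ} (L : StrongDual ℝ (Fin n → ℝ)) (x : Fin n → Y)
    (w : Y → Ω₁ → ℝ) : (L ∘ fun a i => w (x i) a)
      = fun a => ∑ i, L (Pi.single i 1) * w (x i) a := by
  funext a
  simp only [Function.comp]
  have h2 : (fun i => w (x i) a) = ∑ i, (w (x i) a) • (Pi.single i 1 : Fin n → ℝ) := by
    funext j
    simp [Finset.sum_apply, Pi.single_apply]
  rw [h2, map_sum]
  apply Finset.sum_congr rfl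
  intro i _
  rw [map_smul, smul_eq_mul, mul_comm]

/-- finite-dimensional laws depend only on the kernel -/
lemma IsGField.map_vector {Ω' : Type*} [MeasurableSpace Ω'] {P' : Measure Ω'}
    {ω' : X → Ω' → ℝ} (h : IsGField P ω K) (h' : IsGField P' ω' K) {n : ℕ} (x : Fin n → X) :
    P.map (fun a i => ω (x i) a) = P'.map (fun a i => ω' (x i) a) := by
  have := h.isProb
  have := h'.isProb
  have hm : Measurable (fun a i => ω (x i) a) := measurable_pi_lambda _ (fun i => h.meas _)
  have hm' : Measurable (fun a i => ω' (x i) a) := measurable_pi_lambda _ (fun i => h'.meas _)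
  have := Measure.isProbabilityMeasure_map (μ := P) hm.aemeasurable
  have := Measure.isProbabilityMeasure_map (μ := P') hm'.aemeasurable
  apply Measure.ext_of_charFunDual
  ext L
  rw [charFunDual_eq_charFun_map_one, charFunDual_eq_charFun_map_one,
    Measure.map_map (by fun_prop) hm, Measure.map_map (by fun_prop) hm']
  rw [dual_comp_vector L x ω, dual_comp_vector L x ω']
  obtain ⟨v, hv, hmap⟩ := h.map_sum (fun i => L (Pi.single i 1)) x
  obtain ⟨v', hv', hmap'⟩ := h'.map_sum (fun i => L (Pi.single i 1)) x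
  have : v = v' := by
    apply NNReal.coe_injective
    rw [hv, hv']
  rw [hmap, hmap', this]

end basics

section mass

variable {X Ω : Type*} [MeasurableSpace X] [MeasurableSpace Ω] {P : Measure Ω}
  {ω : X → Ω → ℝ} {K : X → X → ℝ}

/-- The total mass of the exponential of a field. -/
noncomputable def gmass (l : Measure X) (ω : X → Ω → ℝ) (a : Ω) : ℝ := ∫ x, Real.exp (ω x a) ∂l

/-- The total mass as an extended nonnegative number. -/
noncomputable def lmass (l : Measure X) (ω : X → Ω → ℝ) (a : Ω) : ℝ≥0∞ :=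
  ∫⁻ x, ENNReal.ofReal (Real.exp (ω x a)) ∂l

lemma IsGField.meas_left (h : IsGField P ω K) (a : Ω) : Measurable (fun x => ω x a) :=
  h.measurable.comp (measurable_id.prodMk measurable_const)

lemma IsGField.gmass_eq (h : IsGField P ω K) (l : Measure X) (a : Ω) :
    gmass l ω a = (lmass l ω a).toReal := by
  unfold gmass lmass
  rw [integral_eq_lintegral_of_nonneg_ae (Eventually.of_forall fun x => (Real.exp_pos _).le)]
  have := h.meas_left a
  fun_prop

lemma IsGField.measurable_lmass (h : IsGField P ω K) (l : Measure X) [SFinite l] :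
    Measurable (lmass l ω) := by
  unfold lmass
  have h1 : Measurable (fun p : Ω × X => ENNReal.ofReal (Real.exp (ω p.2 p.1))) := by
    have := h.measurable.comp (measurable_swap (α := Ω) (β := X))
    exact (Real.measurable_exp.comp this).ennreal_ofReal
  exact h1.lintegral_prod_right'

lemma IsGField.measurable_gmass (h : IsGField P ω K) (l : Measure X) [SFinite l] :
    Measurable (gmass l ω) := by
  have : gmass l ω = fun a => (lmass l ω a).toReal := funext (h.gmass_eq l)
  rw [this]
  exact (h.measurable_lmass l).ennreal_toReal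

/-- expansion of one factor of the mass -/
lemma IsGField.lintegral_mul_lmass (h : IsGField P ω K) (l : Measure X) [SFinite l]
    {G : Ω → ℝ≥0∞} (hG : Measurable G) :
    ∫⁻ a, G a * lmass l ω a ∂P
      = ∫⁻ x, ∫⁻ a, G a * ENNReal.ofReal (Real.exp (ω x a)) ∂P ∂l := by
  have := h.isProb
  have h1 : Measurable (fun p : Ω × X => ENNReal.ofReal (Real.exp (ω p.2 p.1))) := by
    have := h.measurable.comp (measurable_swap (α := Ω) (β := X))
    exact (Real.measurable_exp.comp this).ennreal_ofReal
  rw [← lintegral_lintegral_swap (μ := P) (ν := l)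
    (f := fun a x => G a * ENNReal.ofReal (Real.exp (ω x a)))]
  · congr 1
    funext a
    unfold lmass
    rw [lintegral_const_mul]
    exact h1.comp (measurable_const.prodMk measurable_id)
  · exact ((hG.comp measurable_fst).mul h1).aemeasurable

lemma IsGField.lintegral_lmass (h : IsGField P ω K) (l : Measure X) [SFinite l] :
    ∫⁻ a, lmass l ω a ∂P = l Set.univ := by
  have h1 := h.lintegral_mul_lmass l (G := fun _ => 1) measurable_const
  simp only [one_mul] at h1
  rw [h1]
  have h2 : ∀ x, ∫⁻ a, ENNReal.ofReal (Real.exp (ω x a)) ∂P = 1 := by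
    intro x
    have h3 := h.lintegral_exp_sum (fun _ : Fin 1 => x)
    simpa using h3
  simp [h2]

lemma IsGField.lintegral_two (h : IsGField P ω K) (l l' : Measure X) [SFinite l] [SFinite l'] :
    ∫⁻ a, lmass l ω a * lmass l' ω a ∂P
      = ∫⁻ y, ∫⁻ x, ENNReal.ofReal (Real.exp (K x y)) ∂l ∂l' := by
  rw [h.lintegral_mul_lmass l' (h.measurable_lmass l)]
  congr 1
  funext y
  have hF : ∀ z, Measurable (fun a => ENNReal.ofReal (Real.exp (ω z a))) := fun z =>
    (Real.measurable_exp.comp (h.meas z)).ennreal_ofReal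
  simp_rw [mul_comm (lmass l ω _)]
  rw [h.lintegral_mul_lmass l (hF y)]
  congr 1
  funext x
  have h3 := h.lintegral_exp_sum ![x, y]
  simp only [Fin.sum_univ_two, Matrix.cons_val_zero, Matrix.cons_val_one] at h3
  rw [h.symm y x] at h3
  have h4 : ∀ a, ENNReal.ofReal (Real.exp (ω y a)) * ENNReal.ofReal (Real.exp (ω x a))
      = ENNReal.ofReal (Real.exp (ω x a + ω y a)) := by
    intro a
    rw [← ENNReal.ofReal_mul (Real.exp_pos _).le, ← Real.exp_add, add_comm]
  simp_rw [h4, h3]
  congr 2
  ring

lemma IsGField.lintegral_three (h : IsGField P ω K) (l : Measure X) [SFinite l] :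
    ∫⁻ a, lmass l ω a ^ 3 ∂P
      = ∫⁻ z, ∫⁻ y, ∫⁻ x, ENNReal.ofReal (Real.exp (K x y + K x z + K y z)) ∂l ∂l ∂l := by
  have hF : ∀ z, Measurable (fun a => ENNReal.ofReal (Real.exp (ω z a))) := fun z =>
    (Real.measurable_exp.comp (h.meas z)).ennreal_ofReal
  have hL := h.measurable_lmass l
  have h1 : ∀ a, lmass l ω a ^ 3 = (lmass l ω a * lmass l ω a) * lmass l ω a := by
    intro a; ring
  simp_rw [h1]
  rw [h.lintegral_mul_lmass l (G := fun a => lmass l ω a * lmass l ω a) (hL.mul hL)]
  congr 1
  funext z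
  have h2 : ∀ a, lmass l ω a * lmass l ω a * ENNReal.ofReal (Real.exp (ω z a))
    = (lmass l ω a * ENNReal.ofReal (Real.exp (ω z a))) * lmass l ω a := by
    intro a; ring
  simp_rw [h2]
  rw [h.lintegral_mul_lmass l
    (G := fun a => lmass l ω a * ENNReal.ofReal (Real.exp (ω z a))) (hL.mul (hF z))]
  congr 1
  funext y
  have h3 : ∀ a, lmass l ω a * ENNReal.ofReal (Real.exp (ω z a)) * ENNReal.ofReal (Real.exp (ω y a))
    = (ENNReal.ofReal (Real.exp (ω z a)) * ENNReal.ofReal (Real.exp (ω y a))) * lmass l ω a := by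
    intro a; ring
  simp_rw [h3]
  rw [h.lintegral_mul_lmass l
    (G := fun a => ENNReal.ofReal (Real.exp (ω z a)) * ENNReal.ofReal (Real.exp (ω y a)))
    ((hF z).mul (hF y))]
  congr 1
  funext x
  have h5 := h.lintegral_exp_sum ![x, y, z]
  simp only [Fin.sum_univ_three, Matrix.cons_val_zero, Matrix.cons_val_one, Matrix.cons_val] at h5
  rw [h.symm y x, h.symm z x, h.symm z y] at h5
  have h4 : ∀ a, ENNReal.ofReal (Real.exp (ω z a)) * ENNReal.ofReal (Real.exp (ω y a))
      * ENNReal.ofReal (Real.exp (ω x a))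
      = ENNReal.ofReal (Real.exp (ω x a + ω y a + ω z a)) := by
    intro a
    rw [← ENNReal.ofReal_mul (Real.exp_pos _).le, ← ENNReal.ofReal_mul (by positivity),
      ← Real.exp_add, ← Real.exp_add]
    congr 2
    ring
  simp_rw [h4, h5]
  congr 2
  ring

lemma IsGField.lintegral_four (h : IsGField P ω K) (l : Measure X) [SFinite l] :
    ∫⁻ a, lmass l ω a ^ 4 ∂P
      = ∫⁻ w, ∫⁻ z, ∫⁻ y, ∫⁻ x, ENNReal.ofReal (Real.exp
          (K x y + K x z + K x w + K y z + K y w + K z w)) ∂l ∂l ∂l ∂l := by
  have hF : ∀ z, Measurable (fun a => ENNReal.ofReal (Real.exp (ω z a))) := fun z =>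
    (Real.measurable_exp.comp (h.meas z)).ennreal_ofReal
  have hL := h.measurable_lmass l
  have h1 : ∀ a, lmass l ω a ^ 4 = (lmass l ω a * lmass l ω a * lmass l ω a) * lmass l ω a := by
    intro a; ring
  simp_rw [h1]
  rw [h.lintegral_mul_lmass l (G := fun a => lmass l ω a * lmass l ω a * lmass l ω a)
    ((hL.mul hL).mul hL)]
  congr 1
  funext w
  have h2 : ∀ a, lmass l ω a * lmass l ω a * lmass l ω a * ENNReal.ofReal (Real.exp (ω w a))
    = (lmass l ω a * lmass l ω a * ENNReal.ofReal (Real.exp (ω w a))) * lmass l ω a := by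
    intro a; ring
  simp_rw [h2]
  rw [h.lintegral_mul_lmass l
    (G := fun a => lmass l ω a * lmass l ω a * ENNReal.ofReal (Real.exp (ω w a)))
    ((hL.mul hL).mul (hF w))]
  congr 1
  funext z
  have h3 : ∀ a, lmass l ω a * lmass l ω a * ENNReal.ofReal (Real.exp (ω w a))
      * ENNReal.ofReal (Real.exp (ω z a))
    = (lmass l ω a * ENNReal.ofReal (Real.exp (ω w a)) * ENNReal.ofReal (Real.exp (ω z a)))
      * lmass l ω a := by
    intro a; ring
  simp_rw [h3]
  rw [h.lintegral_mul_lmass l
    (G := fun a => lmass l ω a * ENNReal.ofReal (Real.exp (ω w a))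
      * ENNReal.ofReal (Real.exp (ω z a))) ((hL.mul (hF w)).mul (hF z))]
  congr 1
  funext y
  have h4 : ∀ a, lmass l ω a * ENNReal.ofReal (Real.exp (ω w a)) * ENNReal.ofReal (Real.exp (ω z a))
      * ENNReal.ofReal (Real.exp (ω y a))
    = (ENNReal.ofReal (Real.exp (ω w a)) * ENNReal.ofReal (Real.exp (ω z a))
      * ENNReal.ofReal (Real.exp (ω y a))) * lmass l ω a := by
    intro a; ring
  simp_rw [h4]
  rw [h.lintegral_mul_lmass l
    (G := fun a => ENNReal.ofReal (Real.exp (ω w a)) * ENNReal.ofReal (Real.exp (ω z a))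
      * ENNReal.ofReal (Real.exp (ω y a))) (((hF w).mul (hF z)).mul (hF y))]
  congr 1
  funext x
  have h5 := h.lintegral_exp_sum ![x, y, z, w]
  simp only [Fin.sum_univ_four, Matrix.cons_val_zero, Matrix.cons_val_one, Matrix.cons_val] at h5
  rw [h.symm y x, h.symm z x, h.symm z y, h.symm w x, h.symm w y, h.symm w z] at h5
  have h6 : ∀ a, ENNReal.ofReal (Real.exp (ω w a)) * ENNReal.ofReal (Real.exp (ω z a))
      * ENNReal.ofReal (Real.exp (ω y a)) * ENNReal.ofReal (Real.exp (ω x a))
      = ENNReal.ofReal (Real.exp (ω x a + ω y a + ω z a + ω w a)) := by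
    intro a
    rw [← ENNReal.ofReal_mul (Real.exp_pos _).le, ← ENNReal.ofReal_mul (by positivity),
      ← ENNReal.ofReal_mul (by positivity), ← Real.exp_add, ← Real.exp_add, ← Real.exp_add]
    congr 2
    ring
  simp_rw [h6, h5]
  congr 2
  ring

end mass

section uniqueness

variable {X Ω : Type*} [MeasurableSpace X] [MeasurableSpace Ω] {P : Measure Ω}
  {ω : X → Ω → ℝ} {K : X → X → ℝ}

lemma IsGField.ae_integrable (h : IsGField P ω K) (l : Measure X) [IsFiniteMeasure l] :
    ∀ᵐ a ∂P, Integrable (fun x => Real.exp (ω x a)) l := by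
  have := h.isProb
  have h1 : ∫⁻ a, lmass l ω a ∂P ≠ ∞ := by
    rw [h.lintegral_lmass l]; exact measure_ne_top _ _
  filter_upwards [ae_lt_top (h.measurable_lmass l) h1] with a ha
  have hm := h.meas_left a
  refine ⟨by fun_prop, ?_⟩
  rw [hasFiniteIntegral_iff_ofReal (Eventually.of_forall fun x => (Real.exp_pos _).le)]
  exact ha

/-- The empirical average at sample points `u` -/
noncomputable def empAvg (ω : X → Ω → ℝ) (u : ℕ → X) (n : ℕ) (a : Ω) : ℝ :=
  (∑ i ∈ Finset.range n, Real.exp (ω (u i) a)) / n

lemma IsGField.measurable_empAvg (h : IsGField P ω K) (n : ℕ) :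
    Measurable (fun p : (ℕ → X) × Ω => empAvg ω p.1 n p.2) := by
  unfold empAvg
  apply Measurable.div_const
  apply Finset.measurable_fun_sum
  intro i _
  have h1 : Measurable (fun p : (ℕ → X) × Ω => (p.1 i, p.2)) :=
    ((measurable_pi_apply i).comp measurable_fst).prodMk measurable_snd
  exact Real.measurable_exp.comp (h.measurable.comp h1)

lemma IsGField.tendsto_empAvg (h : IsGField P ω K) (l : Measure X) [IsProbabilityMeasure l]
    (F : BoundedContinuousFunction ℝ ℝ) (c : ℝ) :
    Tendsto (fun n => ∫ u, ∫ a, F (c * empAvg ω u n a) ∂P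
      ∂(Measure.infinitePi (fun _ : ℕ => l))) atTop (𝓝 (∫ a, F (c * gmass l ω a) ∂P)) := by
  have := h.isProb
  set U := Measure.infinitePi (fun _ : ℕ => l) with hU
  have hmeas : ∀ n, Measurable (fun p : (ℕ → X) × Ω => F (c * empAvg ω p.1 n p.2)) := by
    intro n
    exact F.continuous.measurable.comp ((h.measurable_empAvg n).const_mul c)
  have hint : ∀ n, Integrable (fun p : (ℕ → X) × Ω => F (c * empAvg ω p.1 n p.2)) (U.prod P) := by
    intro n
    apply Integrable.of_bound (hmeas n).aestronglyMeasurable ‖F‖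
    exact Eventually.of_forall (fun p => F.norm_coe_le_norm _)
  have hswap : ∀ n, ∫ u, ∫ a, F (c * empAvg ω u n a) ∂P ∂U
      = ∫ a, ∫ u, F (c * empAvg ω u n a) ∂U ∂P := by
    intro n
    exact integral_integral_swap (hint n)
  simp_rw [hswap]
  apply tendsto_integral_of_dominated_convergence (fun _ => ‖F‖)
  · intro n
    have := (hint n).swap.integral_prod_left
    exact this.aestronglyMeasurable
  · exact integrable_const _
  · intro n
    filter_upwards with a
    refine (norm_integral_le_of_norm_le_const (C := ‖F‖) ?_).trans ?_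
    · exact Eventually.of_forall (fun u => F.norm_coe_le_norm _)
    · simp
  · filter_upwards [h.ae_integrable l] with a ha
    have hm := h.meas_left a
    have hlim : ∀ᵐ u ∂U, Tendsto (fun n : ℕ => empAvg ω u n a) atTop (𝓝 (gmass l ω a)) := by
      have h0 : ∫ u : ℕ → X, Real.exp (ω (u 0) a) ∂U = gmass l ω a := by
        have h1 : gmass l ω a = ∫ x, Real.exp (ω x a) ∂(U.map (fun u => u 0)) := by
          rw [hU, Measure.infinitePi_map_eval]; rfl
        rw [h1, integral_map (measurable_pi_apply 0).aemeasurable (by fun_prop)]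
      have h2 := strong_law_ae_real (μ := U) (fun i (u : ℕ → X) => Real.exp (ω (u i) a)) ?_ ?_ ?_
      · rw [← h0]
        exact h2
      · have h3 : Integrable (fun x => Real.exp (ω x a)) (U.map (fun u => u 0)) := by
          rw [hU, Measure.infinitePi_map_eval]; exact ha
        have h4 : AEStronglyMeasurable (fun x => Real.exp (ω x a)) (U.map (fun u => u 0)) := by
          fun_prop
        exact (integrable_map_measure h4 (measurable_pi_apply 0).aemeasurable).mp h3
      · intro i j hij
        have h3 := iIndepFun_infinitePi (P := fun _ : ℕ => l) (X := fun _ x => Real.exp (ω x a))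
          (fun _ => by fun_prop)
        exact h3.indepFun hij
      · intro i
        have hf : Measurable (fun x => Real.exp (ω x a)) := by fun_prop
        refine ⟨(hf.comp (measurable_pi_apply i)).aemeasurable,
          (hf.comp (measurable_pi_apply 0)).aemeasurable, ?_⟩
        have h4 : ∀ j, U.map (fun u : ℕ → X => Real.exp (ω (u j) a))
            = l.map (fun x => Real.exp (ω x a)) := by
          intro j
          have h5 : (fun u : ℕ → X => Real.exp (ω (u j) a))
            = (fun x => Real.exp (ω x a)) ∘ (fun u : ℕ → X => u j) := rfl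
          rw [h5, ← Measure.map_map hf (measurable_pi_apply j), hU, Measure.infinitePi_map_eval]
        rw [h4, h4]
    have hconst : F (c * gmass l ω a) = ∫ u, F (c * gmass l ω a) ∂U := by simp
    rw [hconst]
    apply tendsto_integral_of_dominated_convergence (fun _ => ‖F‖)
    · intro n
      exact ((hmeas n).comp (measurable_id.prodMk measurable_const)).aestronglyMeasurable
    · exact integrable_const _
    · intro n
      exact Eventually.of_forall (fun u => F.norm_coe_le_norm _)
    · filter_upwards [hlim] with u hu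
      exact (F.continuous.tendsto _).comp (hu.const_mul c)

/-- The law of the total mass depends only on the covariance kernel. -/
theorem IsGField.integral_gmass_eq {Ω' : Type*} [MeasurableSpace Ω'] {P' : Measure Ω'}
    {ω' : X → Ω' → ℝ} (h : IsGField P ω K) (h' : IsGField P' ω' K) (l : Measure X)
    [IsFiniteMeasure l] (F : BoundedContinuousFunction ℝ ℝ) :
    ∫ a, F (gmass l ω a) ∂P = ∫ a, F (gmass l ω' a) ∂P' := by
  have := h.isProb
  have := h'.isProb
  by_cases hl : l = 0
  · simp [hl, gmass]
  have : NeZero l := ⟨hl⟩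
  set l₁ : Measure X := (l Set.univ)⁻¹ • l with hl₁
  have hp : IsProbabilityMeasure l₁ := by
    rw [hl₁]; infer_instance
  set c := (l Set.univ).toReal with hc
  have hl2 : l = (l Set.univ) • l₁ := by
    rw [hl₁, smul_smul, ENNReal.mul_inv_cancel (by simpa using hl) (measure_ne_top _ _), one_smul]
  have hg : ∀ a, gmass l ω a = c * gmass l₁ ω a := by
    intro a
    unfold gmass
    conv_lhs => rw [hl2]
    rw [integral_smul_measure, smul_eq_mul]
  have hg' : ∀ a, gmass l ω' a = c * gmass l₁ ω' a := by
    intro a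
    unfold gmass
    conv_lhs => rw [hl2]
    rw [integral_smul_measure, smul_eq_mul]
  simp_rw [hg, hg']
  have t1 := h.tendsto_empAvg l₁ F c
  have t2 := h'.tendsto_empAvg l₁ F c
  have heq : ∀ n (u : ℕ → X), ∫ a, F (c * empAvg ω u n a) ∂P = ∫ a, F (c * empAvg ω' u n a) ∂P' := by
    intro n u
    have h3 := h.map_vector h' (fun i : Fin n => u i)
    have hcont : Continuous (fun v : Fin n → ℝ => F (c * ((∑ i, Real.exp (v i)) / n))) := by
      fun_prop
    have h4 : ∫ a, F (c * empAvg ω u n a) ∂P
        = ∫ v, F (c * ((∑ i, Real.exp (v i)) / n)) ∂(P.map (fun a (i : Fin n) => ω (u i) a)) := by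
      rw [integral_map (measurable_pi_lambda _ (fun i => h.meas _)).aemeasurable
        hcont.aestronglyMeasurable]
      congr 1
      funext a
      unfold empAvg
      rw [Finset.sum_range]
    have h5 : ∫ a, F (c * empAvg ω' u n a) ∂P'
        = ∫ v, F (c * ((∑ i, Real.exp (v i)) / n)) ∂(P'.map (fun a (i : Fin n) => ω' (u i) a)) := by
      rw [integral_map (measurable_pi_lambda _ (fun i => h'.meas _)).aemeasurable
        hcont.aestronglyMeasurable]
      congr 1
      funext a
      unfold empAvg
      rw [Finset.sum_range]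
    rw [h4, h5, h3]
  simp_rw [heq] at t1
  exact tendsto_nhds_unique t1 t2

end uniqueness

end Pool.Agent.H87.GMC
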