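import Mathlib
import Pool.Agent.H87.GMC.Field

open MeasureTheory ProbabilityTheory Filter Topology Set
open scoped NNReal ENNReal InnerProductSpace

namespace Pool.Agent.H87.GMC

variable {X Y Ω : Type*} [MeasurableSpace X] [MeasurableSpace Y] [MeasurableSpace Ω] {P : Measure Ω}
  {ω : Y → Ω → ℝ} {K : Y → Y → ℝ}

lemma IsGField.lmass_map (h : IsGField P ω K) (l : Measure X) {e : X → Y} (he : Measurable e)
    (a : Ω) : lmass (l.map e) ω a = lmass l (fun x => ω (e x)) a := by
  unfold lmass
  rw [lintegral_map _ he]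
  exact (Real.measurable_exp.comp (h.meas_left a)).ennreal_ofReal

lemma IsGField.measurable_K (h : IsGField P ω K) :
    Measurable (fun p : Y × Y => Real.exp (K p.1 p.2)) := by
  have := h.isProb
  -- the exponential of the kernel is a two point function
  have h1 : ∀ p : Y × Y, Real.exp (K p.1 p.2)
      = (∫⁻ a, ENNReal.ofReal (Real.exp (ω p.1 a + ω p.2 a)) ∂P).toReal := by
    intro p
    have h3 := h.lintegral_exp_sum ![p.1, p.2]
    simp only [Fin.sum_univ_two, Matrix.cons_val_zero, Matrix.cons_val_one] at h3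
    rw [h.symm p.2 p.1] at h3
    rw [h3, ENNReal.toReal_ofReal (Real.exp_pos _).le]
    congr 1
    ring
  simp_rw [h1]
  apply Measurable.ennreal_toReal
  have h2 : Measurable (fun q : (Y × Y) × Ω => ENNReal.ofReal (Real.exp (ω q.1.1 q.2 + ω q.1.2 q.2))) := by
    have m1 : Measurable (fun q : (Y × Y) × Ω => ω q.1.1 q.2) :=
      h.measurable.comp ((measurable_fst.comp measurable_fst).prodMk measurable_snd)
    have m2 : Measurable (fun q : (Y × Y) × Ω => ω q.1.2 q.2) :=
      h.measurable.comp ((measurable_snd.comp measurable_fst).prodMk measurable_snd)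
    exact (Real.measurable_exp.comp (m1.add m2)).ennreal_ofReal
  exact h2.lintegral_prod_right'

/-- two point function of the masses of two fields defined from the same field -/
lemma IsGField.lintegral_two_map (h : IsGField P ω K) (l : Measure X) [SFinite l] {e e' : X → Y}
    (he : Measurable e) (he' : Measurable e') :
    ∫⁻ a, lmass l (fun x => ω (e x)) a * lmass l (fun x => ω (e' x)) a ∂P
      = ∫⁻ y, ∫⁻ x, ENNReal.ofReal (Real.exp (K (e x) (e' y))) ∂l ∂l := by
  have h1 := h.lintegral_two (l.map e) (l.map e')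
  simp_rw [h.lmass_map l he, h.lmass_map l he'] at h1
  have hK : Measurable (fun p : Y × Y => ENNReal.ofReal (Real.exp (K p.2 p.1))) :=
    (h.measurable_K.comp measurable_swap).ennreal_ofReal
  rw [h1, lintegral_map _ he']
  · congr 1
    funext y
    rw [lintegral_map _ he]
    exact hK.comp (measurable_const.prodMk measurable_id)
  · exact hK.lintegral_prod_right'

lemma IsGField.integral_two_map (h : IsGField P ω K) (l : Measure X) [IsFiniteMeasure l]
    {e e' : X → Y} (he : Measurable e) (he' : Measurable e') {C : ℝ}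
    (hC : ∀ x y, K (e x) (e' y) ≤ C) :
    Integrable (fun a => gmass l (fun x => ω (e x)) a * gmass l (fun x => ω (e' x)) a) P ∧
    ∫ a, gmass l (fun x => ω (e x)) a * gmass l (fun x => ω (e' x)) a ∂P
      = ∫ y, ∫ x, Real.exp (K (e x) (e' y)) ∂l ∂l := by
  have hf := h.comp he
  have hf' := h.comp he'
  have h1 := h.lintegral_two_map l he he'
  have hbound : ∀ y, ∫⁻ x, ENNReal.ofReal (Real.exp (K (e x) (e' y))) ∂l
      ≤ ENNReal.ofReal (Real.exp C) * l univ := by
    intro y
    calc ∫⁻ x, ENNReal.ofReal (Real.exp (K (e x) (e' y))) ∂l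
        ≤ ∫⁻ _, ENNReal.ofReal (Real.exp C) ∂l := by
          apply lintegral_mono
          intro x
          exact ENNReal.ofReal_le_ofReal (Real.exp_le_exp.mpr (hC x y))
      _ = _ := by rw [lintegral_const]
  have hfin0 : ENNReal.ofReal (Real.exp C) * l univ < ∞ :=
    ENNReal.mul_lt_top ENNReal.ofReal_lt_top (measure_lt_top _ _)
  have hfin : ∫⁻ y, ∫⁻ x, ENNReal.ofReal (Real.exp (K (e x) (e' y))) ∂l ∂l < ∞ := by
    calc ∫⁻ y, ∫⁻ x, ENNReal.ofReal (Real.exp (K (e x) (e' y))) ∂l ∂l
        ≤ ∫⁻ _, ENNReal.ofReal (Real.exp C) * l univ ∂l := lintegral_mono hbound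
      _ = ENNReal.ofReal (Real.exp C) * l univ * l univ := by rw [lintegral_const]
      _ < ∞ := ENNReal.mul_lt_top hfin0 (measure_lt_top _ _)
  have hm : Measurable (fun a => lmass l (fun x => ω (e x)) a * lmass l (fun x => ω (e' x)) a) :=
    (hf.measurable_lmass l).mul (hf'.measurable_lmass l)
  have h2 : (fun a => gmass l (fun x => ω (e x)) a * gmass l (fun x => ω (e' x)) a)
      = fun a => (lmass l (fun x => ω (e x)) a * lmass l (fun x => ω (e' x)) a).toReal := by
    funext a
    rw [hf.gmass_eq, hf'.gmass_eq, ENNReal.toReal_mul]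
  rw [h2]
  have hne : ∫⁻ a, lmass l (fun x => ω (e x)) a * lmass l (fun x => ω (e' x)) a ∂P ≠ ∞ := by
    rw [h1]; exact hfin.ne
  refine ⟨integrable_toReal_of_lintegral_ne_top hm.aemeasurable hne, ?_⟩
  rw [integral_toReal hm.aemeasurable (ae_lt_top hm hne), h1]
  have hKm : Measurable (fun p : X × X => Real.exp (K (e p.2) (e' p.1))) := by
    exact h.measurable_K.comp ((he.comp measurable_snd).prodMk (he'.comp measurable_fst))
  have h3 : ∀ y, ∫ x, Real.exp (K (e x) (e' y)) ∂l
      = (∫⁻ x, ENNReal.ofReal (Real.exp (K (e x) (e' y))) ∂l).toReal := by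
    intro y
    apply integral_eq_lintegral_of_nonneg_ae (Eventually.of_forall fun x => (Real.exp_pos _).le)
    exact (hKm.comp (measurable_const.prodMk measurable_id)).aestronglyMeasurable
  simp_rw [h3]
  rw [integral_toReal]
  · exact hKm.ennreal_ofReal.lintegral_prod_right'.aemeasurable
  · filter_upwards with y
    exact (hbound y).trans_lt hfin0

/-- The `L²` distance between the masses of two fields defined from the same field. -/
lemma IsGField.integral_sub_sq (h : IsGField P ω K) (l : Measure X) [IsFiniteMeasure l]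
    {e e' : X → Y} (he : Measurable e) (he' : Measurable e') {C : ℝ}
    (h11 : ∀ x y, K (e x) (e y) ≤ C) (h12 : ∀ x y, K (e x) (e' y) ≤ C)
    (h22 : ∀ x y, K (e' x) (e' y) ≤ C) :
    Integrable (fun a => (gmass l (fun x => ω (e x)) a - gmass l (fun x => ω (e' x)) a) ^ 2) P ∧
    ∫ a, (gmass l (fun x => ω (e x)) a - gmass l (fun x => ω (e' x)) a) ^ 2 ∂P
      = (∫ y, ∫ x, Real.exp (K (e x) (e y)) ∂l ∂l)
        - 2 * (∫ y, ∫ x, Real.exp (K (e x) (e' y)) ∂l ∂l)
        + ∫ y, ∫ x, Real.exp (K (e' x) (e' y)) ∂l ∂l := by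
  obtain ⟨i1, e1⟩ := h.integral_two_map l he he h11
  obtain ⟨i2, e2⟩ := h.integral_two_map l he he' h12
  obtain ⟨i3, e3⟩ := h.integral_two_map l he' he' h22
  have h1 : (fun a => (gmass l (fun x => ω (e x)) a - gmass l (fun x => ω (e' x)) a) ^ 2)
      = fun a => (gmass l (fun x => ω (e x)) a * gmass l (fun x => ω (e x)) a
        - 2 * (gmass l (fun x => ω (e x)) a * gmass l (fun x => ω (e' x)) a))
        + gmass l (fun x => ω (e' x)) a * gmass l (fun x => ω (e' x)) a := by
    funext a; ring
  rw [h1]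
  have i12 : Integrable (fun a => gmass l (fun x => ω (e x)) a * gmass l (fun x => ω (e x)) a
        - 2 * (gmass l (fun x => ω (e x)) a * gmass l (fun x => ω (e' x)) a)) P :=
    i1.sub (i2.const_mul 2)
  refine ⟨i12.add i3, ?_⟩
  rw [integral_add i12 i3, integral_sub i1 (i2.const_mul 2), integral_const_mul, e1, e2, e3]

end Pool.Agent.H87.GMC
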