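import Mathlib
import Pool.Agent.H87.GMC.Bump

open MeasureTheory ProbabilityTheory Filter Topology Set
open scoped NNReal ENNReal InnerProductSpace

namespace Pool.Agent.H87.GMC

variable {d : ℕ}

lemma mollify_eq {θ : Eu d → ℝ} {ε : ℝ} (hε : 0 < ε) (g : Eu d → ℝ) (x : Eu d) :
    mollify θ ε g x = ∫ w, θ w * g (x - ε • w) := by
  unfold mollify
  have h1 := Measure.integral_comp_inv_smul (volume : Measure (Eu d))
    (fun w => θ w * g (x - ε • w)) ε
  simp only [finrank_euclideanSpace, Fintype.card_fin, smul_eq_mul] at h1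
  rw [abs_of_pos (by positivity)] at h1
  have h2 : ∀ z : Eu d, ε⁻¹ ^ d * θ (ε⁻¹ • z) * g (x - z)
      = ε⁻¹ ^ d * (θ (ε⁻¹ • z) * g (x - ε • ε⁻¹ • z)) := by
    intro z
    rw [smul_smul, mul_inv_cancel₀ hε.ne', one_smul]
    ring
  simp_rw [h2]
  rw [integral_const_mul, h1, ← mul_assoc, ← mul_pow, inv_mul_cancel₀ hε.ne', one_pow, one_mul]

lemma integral_theta_sin {θ : Eu d → ℝ} (h : IsBump θ) (v : Eu d) :
    ∫ w, θ w * Real.sin ⟪v, w⟫_ℝ = 0 := by
  have h1 := integral_neg_eq_self (fun w => θ w * Real.sin ⟪v, w⟫_ℝ) (volume : Measure (Eu d))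
  simp only [h.posDef.1, inner_neg_right, Real.sin_neg, mul_neg] at h1
  rw [integral_neg] at h1
  linarith

lemma theta_gk {θ : Eu d → ℝ} (h : IsBump θ) (ε u : ℝ) (x : Eu d) :
    ∫ w, θ w * gk u (x - ε • w)
      = ∫ ξ, thetaHat θ ((ε * u) • ξ) * Real.cos (u * ⟪ξ, x⟫_ℝ) ∂(gam d) := by
  have h1 : ∀ w, θ w * gk u (x - ε • w)
      = ∫ ξ, θ w * Real.cos (u * ⟪ξ, x - ε • w⟫_ℝ) ∂(gam d) := by
    intro w
    rw [integral_const_mul, integral_cos_gam]
  simp_rw [h1]
  let F : Eu d × Eu d → ℝ := fun p => θ p.1 * Real.cos (u * ⟪p.2, x - ε • p.1⟫_ℝ)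
  have hF : Integrable F (volume.prod (gam d)) := by
    have h2 : Integrable (fun p : Eu d × Eu d => θ p.1 * (1:ℝ)) (volume.prod (gam d)) :=
      Integrable.mul_prod (f := θ) (g := fun _ : Eu d => (1:ℝ)) h.integrable (integrable_const 1)
    have h3 : Measurable (fun p : Eu d × Eu d => Real.cos (u * ⟪p.2, x - ε • p.1⟫_ℝ)) := by
      fun_prop
    have h4 := h2.bdd_mul (c := 1) h3.aestronglyMeasurable
      (Eventually.of_forall fun q => by
        rw [Real.norm_eq_abs]; exact Real.abs_cos_le_one _)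
    refine h4.congr ?_
    filter_upwards with q
    simp only [F]
    ring
  have h5 : ∫ w, ∫ ξ, θ w * Real.cos (u * ⟪ξ, x - ε • w⟫_ℝ) ∂(gam d)
      = ∫ q, F q ∂(volume.prod (gam d)) := (integral_prod F hF).symm
  rw [h5, integral_prod_symm F hF]
  congr 1
  funext ξ
  have h6 : ∀ w, F (w, ξ) = Real.cos (u * ⟪ξ, x⟫_ℝ) * (θ w * Real.cos ⟪(ε * u) • ξ, w⟫_ℝ)
      + Real.sin (u * ⟪ξ, x⟫_ℝ) * (θ w * Real.sin ⟪(ε * u) • ξ, w⟫_ℝ) := by
    intro w
    simp only [F]
    have h7 : u * ⟪ξ, x - ε • w⟫_ℝ = u * ⟪ξ, x⟫_ℝ - ⟪(ε * u) • ξ, w⟫_ℝ := by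
      rw [inner_sub_right, real_inner_smul_right, real_inner_smul_left]
      ring
    rw [h7, Real.cos_sub]
    ring
  simp_rw [h6]
  have hic : Integrable (fun w => θ w * Real.cos ⟪(ε * u) • ξ, w⟫_ℝ) := by
    have := h.integrable.bdd_mul (f := fun w => Real.cos ⟪(ε * u) • ξ, w⟫_ℝ) (c := 1)
      (by fun_prop) (Eventually.of_forall fun q => by
        rw [Real.norm_eq_abs]; exact Real.abs_cos_le_one _)
    refine this.congr ?_
    filter_upwards with x
    ring
  have his : Integrable (fun w => θ w * Real.sin ⟪(ε * u) • ξ, w⟫_ℝ) := by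
    have := h.integrable.bdd_mul (f := fun w => Real.sin ⟪(ε * u) • ξ, w⟫_ℝ) (c := 1)
      (by fun_prop) (Eventually.of_forall fun q => by
        rw [Real.norm_eq_abs]; exact Real.abs_sin_le_one _)
    refine this.congr ?_
    filter_upwards with x
    ring
  rw [integral_add (hic.const_mul _) (his.const_mul _), integral_const_mul, integral_const_mul,
    integral_theta_sin h]
  unfold thetaHat
  ring

lemma integrable_theta_gker (hd : 1 ≤ d) {θ : Eu d → ℝ} (h : IsBump θ) {c : ℝ}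
    {ε : ℝ} (hε : 0 < ε) (x : Eu d) : Integrable (fun w => θ w * gker c (x - ε • w)) := by
  obtain ⟨C, hC⟩ := h.bounded
  have h1 : Integrable (fun w : Eu d => gker c (x - ε • w)) := by
    have h2 := (integrable_gker hd c).comp_sub_left x
    have h3 := h2.comp_smul (R := ε) hε.ne'
    exact h3
  exact h1.bdd_mul (c := C) h.continuous.aestronglyMeasurable (Eventually.of_forall hC)

lemma ae_sub_smul_ne (hd : 1 ≤ d) {ε : ℝ} (hε : 0 < ε) (x : Eu d) :
    ∀ᵐ w : Eu d, x - ε • w ≠ 0 := by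
  have : Nonempty (Fin d) := ⟨⟨0, hd⟩⟩
  have h1 : ∀ᵐ w : Eu d, w ≠ ε⁻¹ • x := by
    rw [ae_iff]; simp
  filter_upwards [h1] with w hw h2
  apply hw
  rw [sub_eq_zero] at h2
  rw [h2, smul_smul, inv_mul_cancel₀ hε.ne', one_smul]

lemma integrable_theta_gk_prod (hd : 1 ≤ d) {θ : Eu d → ℝ} (h : IsBump θ) {c : ℝ} (hc : 0 ≤ c)
    {ε : ℝ} (hε : 0 < ε) (x : Eu d) :
    Integrable (fun q : Eu d × ℝ => θ q.1 * gk q.2 (x - ε • q.1)) (volume.prod (scaleM c)) := by
  have hmeas : Measurable (fun q : Eu d × ℝ => θ q.1 * gk q.2 (x - ε • q.1)) := by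
    unfold gk
    have := h.continuous.measurable
    fun_prop
  rw [integrable_prod_iff hmeas.aestronglyMeasurable]
  constructor
  · filter_upwards [ae_sub_smul_ne hd hε x] with w hw
    have h7 := (integrable_gk_scaleM c hw).const_mul (θ w)
    exact h7
  · refine (integrable_theta_gker hd h (c := c) hε x).congr ?_
    filter_upwards [ae_sub_smul_ne hd hε x] with w hw
    have h5 : ∀ s, ‖θ w * gk s (x - ε • w)‖ = θ w * gk s (x - ε • w) := by
      intro s
      rw [norm_mul, Real.norm_eq_abs, Real.norm_eq_abs, abs_of_nonneg (h.nonneg w),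
        abs_of_nonneg (gk_pos _ _).le]
    simp_rw [h5]
    rw [integral_const_mul, integral_gk_scaleM hc hw]

/-- the spectral measure -/
noncomputable abbrev specM (d : ℕ) (c : ℝ) : Measure (ℝ × Eu d) := (scaleM c).prod (gam d)

/-- The mollified covariance is a superposition of cosines with nonnegative weights. -/
theorem spectral (hd : 1 ≤ d) {θ : Eu d → ℝ} (h : IsBump θ) {c : ℝ} (hc : 0 ≤ c)
    {ε : ℝ} (hε : 0 < ε) :
    Integrable (fun q : ℝ × Eu d => thetaHat θ ((ε * q.1) • q.2)) (specM d c) ∧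
    ∀ x : Eu d, mollify θ ε (gker c) x
      = ∫ q : ℝ × Eu d, thetaHat θ ((ε * q.1) • q.2) * Real.cos (q.1 * ⟪q.2, x⟫_ℝ) ∂(specM d c) := by
  have hcont : Continuous (fun q : ℝ × Eu d => thetaHat θ ((ε * q.1) • q.2)) := by
    have := continuous_thetaHat h
    fun_prop
  have hI : Integrable (fun q : ℝ × Eu d => thetaHat θ ((ε * q.1) • q.2)) (specM d c) := by
    rw [integrable_prod_iff hcont.aestronglyMeasurable]
    constructor
    · filter_upwards with u
      apply Integrable.of_bound (C := 1)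
      · have := continuous_thetaHat h
        fun_prop
      · filter_upwards with ξ
        exact abs_thetaHat_le h _
    · have h1 := (integrable_theta_gk_prod hd h hc hε 0).integral_prod_right
      refine h1.congr ?_
      filter_upwards with u
      have h2 := theta_gk h ε u 0
      simp only [inner_zero_right, mul_zero, Real.cos_zero, mul_one] at h2
      rw [h2]
      congr 1
      funext ξ
      rw [Real.norm_of_nonneg (thetaHat_nonneg h _)]
  refine ⟨hI, fun x => ?_⟩
  have hIx : Integrable (fun q : ℝ × Eu d =>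
      thetaHat θ ((ε * q.1) • q.2) * Real.cos (q.1 * ⟪q.2, x⟫_ℝ)) (specM d c) := by
    have := hI.bdd_mul (f := fun q : ℝ × Eu d => Real.cos (q.1 * ⟪q.2, x⟫_ℝ)) (c := 1)
      (by fun_prop) (Eventually.of_forall fun q => by
        rw [Real.norm_eq_abs]; exact Real.abs_cos_le_one _)
    refine this.congr ?_
    filter_upwards with x
    ring
  rw [integral_prod _ hIx, mollify_eq hε]
  have h3 : ∫ w, θ w * gker c (x - ε • w)
      = ∫ w, ∫ u, θ w * gk u (x - ε • w) ∂(scaleM c) := by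
    apply integral_congr_ae
    filter_upwards [ae_sub_smul_ne hd hε x] with w hw
    rw [integral_const_mul, integral_gk_scaleM hc hw]
  rw [h3]
  have h4 := integral_prod _ (integrable_theta_gk_prod hd h hc hε x)
  have h5 := integral_prod_symm _ (integrable_theta_gk_prod hd h hc hε x)
  simp only at h4 h5
  rw [← h4, h5]
  congr 1
  funext u
  exact theta_gk h ε u x

end Pool.Agent.H87.GMC
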