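import Mathlib
import Pool.Agent.H87.GMC.Field
import Pool.Agent.H87.GMC.Spectral

open MeasureTheory ProbabilityTheory Filter Topology Set
open scoped NNReal ENNReal InnerProductSpace

namespace Pool.Agent.H87.GMC

/-- The canonical Gaussian field indexed by a separable Hilbert space. -/
theorem exists_hilbert_field (H : Type) [NormedAddCommGroup H] [InnerProductSpace ℝ H]
    [CompleteSpace H] [SecondCountableTopology H] [MeasurableSpace H] [BorelSpace H] :
    ∃ ω : H → (ℕ → ℝ) → ℝ, IsGField NoiseP ω (fun h h' => ⟪h, h'⟫_ℝ) := by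
  obtain ⟨W, hWm, hWg, hW0, hWc⟩ := exists_isonormal H
  have hWmeas : ∀ h, Measurable (W h) := fun h => hWm.comp (measurable_const.prodMk measurable_id)
  have hWL : ∀ h, MemLp (W h) 2 NoiseP := fun h => (hWg.hasGaussianLaw_eval h).memLp_two
  refine ⟨fun h a => W h a - ‖h‖ ^ 2 / 2, ?_, ?_, ?_, ?_⟩
  · constructor
    intro I
    constructor
    have h1 := (hWg.hasGaussianLaw I).isGaussian_map
    have h2 : (fun a => I.restrict (fun h => W h a - ‖h‖ ^ 2 / 2))
        = (fun v : I → ℝ => v + (fun i : I => -(‖(i : H)‖ ^ 2 / 2))) ∘ (fun a => I.restrict (W · a)) := by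
      funext a
      funext i
      simp [sub_eq_add_neg]
    have hm : Measurable (fun a => I.restrict (W · a)) :=
      measurable_pi_lambda _ (fun i => hWmeas _)
    have hm2 : Measurable (fun v : I → ℝ => v + (fun i : I => -(‖(i : H)‖ ^ 2 / 2))) := by
      fun_prop
    rw [h2, ← Measure.map_map hm2 hm]
    infer_instance
  · have h3 : Measurable (fun p : H × (ℕ → ℝ) => ‖p.1‖ ^ 2 / 2) := by fun_prop
    exact hWm.sub h3
  · intro h h'
    have h1 := covariance_sub_const_left (μ := NoiseP) (Y := fun a => W h' a - ‖h'‖ ^ 2 / 2)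
      ((hWL h).integrable (by norm_num)) (‖h‖ ^ 2 / 2)
    have h2 := covariance_sub_const_right (μ := NoiseP) (X := W h)
      ((hWL h').integrable (by norm_num)) (‖h'‖ ^ 2 / 2)
    rw [h1, h2, hWc]
  · intro h
    rw [integral_sub ((hWL h).integrable (by norm_num)) (integrable_const _), hW0]
    simp
    ring

variable {d : ℕ}

/-- A filter is a nonnegative integrable measurable function of the spectral variable. -/
structure IsFilter (c : ℝ) (a : ℝ × Eu d → ℝ) : Prop where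
  measurable : Measurable a
  nonneg : ∀ q, 0 ≤ a q
  integrable : Integrable a (specM d c)

/-- the feature function -/
noncomputable def featFun (μ : ℝ) (a : ℝ × Eu d → ℝ) (x : Eu d) (q : ℝ × Eu d) : ℂ :=
  (√(μ * a q) : ℝ) * Complex.exp ((q.1 * ⟪q.2, x⟫_ℝ : ℝ) * Complex.I)

lemma norm_featFun (μ : ℝ) (a : ℝ × Eu d → ℝ) (x : Eu d) (q : ℝ × Eu d) :
    ‖featFun μ a x q‖ = √(μ * a q) := by
  unfold featFun
  rw [norm_mul, Complex.norm_exp_ofReal_mul_I, mul_one, Complex.norm_real,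
    Real.norm_of_nonneg (Real.sqrt_nonneg _)]

lemma measurable_featFun {μ : ℝ} {c : ℝ} {a : ℝ × Eu d → ℝ} (ha : IsFilter c a) (x : Eu d) :
    Measurable (featFun μ a x) := by
  unfold featFun
  have := ha.measurable
  fun_prop

lemma memLp_featFun {μ : ℝ} (hμ : 0 ≤ μ) {c : ℝ} {a : ℝ × Eu d → ℝ} (ha : IsFilter c a)
    (x : Eu d) : MemLp (featFun μ a x) 2 (specM d c) := by
  rw [memLp_two_iff_integrable_sq_norm (measurable_featFun ha x).aestronglyMeasurable]
  refine (ha.integrable.const_mul μ).congr ?_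
  filter_upwards with q
  rw [norm_featFun, Real.sq_sqrt (mul_nonneg hμ (ha.nonneg q))]

/-- the feature map into `L²` -/
noncomputable def feat {μ : ℝ} (hμ : 0 ≤ μ) {c : ℝ} {a : ℝ × Eu d → ℝ} (ha : IsFilter c a)
    (x : Eu d) : Lp ℂ 2 (specM d c) := (memLp_featFun hμ ha x).toLp _

/-- cross covariance function of two filters -/
noncomputable def crossK (μ c : ℝ) (a b : ℝ × Eu d → ℝ) (x : Eu d) : ℝ :=
  μ * ∫ q, √(a q * b q) * Real.cos (q.1 * ⟪q.2, x⟫_ℝ) ∂(specM d c)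

lemma inner_feat {μ : ℝ} (hμ : 0 ≤ μ) {c : ℝ} {a b : ℝ × Eu d → ℝ} (ha : IsFilter c a)
    (hb : IsFilter c b) (x y : Eu d) :
    ⟪feat hμ ha x, feat hμ hb y⟫_ℝ = crossK μ c a b (x - y) := by
  rw [L2.inner_def]
  have h1 : (fun q => ⟪(feat hμ ha x : ℝ × Eu d → ℂ) q, (feat hμ hb y : ℝ × Eu d → ℂ) q⟫_ℝ)
      =ᵐ[specM d c] fun q => μ * (√(a q * b q) * Real.cos (q.1 * ⟪q.2, x - y⟫_ℝ)) := by
    filter_upwards [(memLp_featFun hμ ha x).coeFn_toLp, (memLp_featFun hμ hb y).coeFn_toLp]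
      with q hq1 hq2
    unfold feat
    rw [hq1, hq2]
    unfold featFun
    rw [Complex.inner]
    have h2 : (starRingEnd ℂ) ((√(μ * a q) : ℝ) * Complex.exp ((q.1 * ⟪q.2, x⟫_ℝ : ℝ) * Complex.I))
        = (√(μ * a q) : ℝ) * Complex.exp ((-(q.1 * ⟪q.2, x⟫_ℝ) : ℝ) * Complex.I) := by
      rw [map_mul, Complex.conj_ofReal, ← Complex.exp_conj, map_mul, Complex.conj_ofReal,
        Complex.conj_I]
      congr 2
      push_cast
      ring
    rw [h2]
    have h3 : ((√(μ * a q) : ℝ) : ℂ) * Complex.exp ((-(q.1 * ⟪q.2, x⟫_ℝ) : ℝ) * Complex.I)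
        * (((√(μ * b q) : ℝ) : ℂ) * Complex.exp ((q.1 * ⟪q.2, y⟫_ℝ : ℝ) * Complex.I))
        = ((√(μ * a q) * √(μ * b q) : ℝ) : ℂ)
          * Complex.exp ((-(q.1 * ⟪q.2, x - y⟫_ℝ) : ℝ) * Complex.I) := by
      rw [inner_sub_right]
      push_cast
      have h4 : Complex.exp (-(↑q.1 * (↑⟪q.2, x⟫_ℝ - ↑⟪q.2, y⟫_ℝ)) * Complex.I)
          = Complex.exp (-(↑q.1 * ↑⟪q.2, x⟫_ℝ) * Complex.I)
            * Complex.exp (↑q.1 * ↑⟪q.2, y⟫_ℝ * Complex.I) := by
        rw [← Complex.exp_add]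
        congr 1
        ring
      rw [h4]
      ring
    rw [mul_comm (((√(μ * b q) : ℝ) : ℂ) * _) (((√(μ * a q) : ℝ) : ℂ) * _)]
    rw [h3, Complex.re_ofReal_mul, Complex.exp_ofReal_mul_I_re, Real.cos_neg]
    have h5 : √(μ * a q) * √(μ * b q) = μ * √(a q * b q) := by
      rw [← Real.sqrt_mul (mul_nonneg hμ (ha.nonneg q))]
      have : μ * a q * (μ * b q) = μ ^ 2 * (a q * b q) := by ring
      rw [this, Real.sqrt_mul (sq_nonneg μ), Real.sqrt_sq hμ]
    rw [h5]
    ring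
  rw [integral_congr_ae h1, integral_const_mul]
  rfl

end Pool.Agent.H87.GMC
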