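import Mathlib
import Pool.Agent.H87.GMC.Feature

open MeasureTheory ProbabilityTheory Filter Topology Set
open scoped NNReal ENNReal InnerProductSpace

namespace Pool.Agent.H87.GMC

variable {d : ℕ}

/-- the truncation filter -/
noncomputable def aN (n : ℕ) (q : ℝ × Eu d) : ℝ := if q.1 ≤ n then 1 else 0

lemma aN_eq_indicator (n : ℕ) : (aN n : ℝ × Eu d → ℝ)
    = ((Iic (n:ℝ)) ×ˢ univ).indicator (fun _ => 1) := by
  funext q
  unfold aN
  simp [indicator, mem_prod]

lemma measurable_aN (n : ℕ) : Measurable (aN n : ℝ × Eu d → ℝ) := by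
  rw [aN_eq_indicator]
  exact measurable_const.indicator (measurableSet_Iic.prod MeasurableSet.univ)

lemma scaleM_Iic_lt_top (c : ℝ) (n : ℕ) : scaleM c (Iic (n:ℝ)) < ∞ := by
  unfold scaleM
  rw [Measure.add_apply, Measure.smul_apply, withDensity_apply _ measurableSet_Iic,
    Measure.restrict_restrict measurableSet_Iic]
  apply ENNReal.add_lt_top.mpr
  constructor
  · have h1 : Iic (n:ℝ) ∩ Ioi 1 = Ioc 1 (n:ℝ) := by
      ext x; simp [and_comm]
    rw [h1]
    calc ∫⁻ u in Ioc 1 (n:ℝ), ENNReal.ofReal (1 / u) ≤ ∫⁻ _ in Ioc 1 (n:ℝ), 1 := by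
          apply setLIntegral_mono measurable_const
          intro u hu
          have hu1 : (1:ℝ) < u := hu.1
          rw [← ENNReal.ofReal_one]
          apply ENNReal.ofReal_le_ofReal
          rw [div_le_one (by linarith)]
          exact hu1.le
      _ < ∞ := by simp
  · rw [smul_eq_mul]
    exact ENNReal.mul_lt_top ENNReal.ofReal_lt_top (measure_lt_top _ _)

lemma integrable_aN (c : ℝ) (n : ℕ) : Integrable (aN n : ℝ × Eu d → ℝ) (specM d c) := by
  rw [aN_eq_indicator, integrable_indicator_iff (measurableSet_Iic.prod MeasurableSet.univ)]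
  rw [integrableOn_const_iff (by simp)]
  right
  rw [Measure.prod_prod]
  exact ENNReal.mul_lt_top (scaleM_Iic_lt_top c n) (measure_lt_top _ _)

lemma isFilter_aN (c : ℝ) (n : ℕ) : IsFilter c (aN n : ℝ × Eu d → ℝ) where
  measurable := measurable_aN n
  nonneg := fun q => by unfold aN; split_ifs <;> norm_num
  integrable := integrable_aN c n

/-- the mollification filter -/
noncomputable def aT (θ : Eu d → ℝ) (ε : ℝ) (q : ℝ × Eu d) : ℝ := thetaHat θ ((ε * q.1) • q.2)

lemma isFilter_aT (hd : 1 ≤ d) {θ : Eu d → ℝ} (h : IsBump θ) {c : ℝ} (hc : 0 ≤ c) {ε : ℝ}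
    (hε : 0 < ε) : IsFilter c (aT θ ε) where
  measurable := by
    unfold aT
    have := (continuous_thetaHat h).measurable
    fun_prop
  nonneg := fun q => thetaHat_nonneg h _
  integrable := (spectral hd h hc hε).1

lemma crossK_aT (hd : 1 ≤ d) {θ : Eu d → ℝ} (h : IsBump θ) {c : ℝ} (hc : 0 ≤ c) {ε : ℝ}
    (hε : 0 < ε) (μ : ℝ) (x : Eu d) :
    crossK μ c (aT θ ε) (aT θ ε) x = μ * mollify θ ε (gker c) x := by
  unfold crossK
  rw [(spectral hd h hc hε).2 x]
  congr 2
  funext q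
  unfold aT
  rw [Real.sqrt_mul_self (thetaHat_nonneg h _)]

/-- truncated covariance -/
noncomputable def Kn (μ c : ℝ) (n : ℕ) (x : Eu d) : ℝ := crossK μ c (aN n) (aN n) x

lemma sqrt_aN_mul {n m : ℕ} (h : n ≤ m) (q : ℝ × Eu d) : √(aN n q * aN m q) = aN n q := by
  unfold aN
  have hnm : (n:ℝ) ≤ m := by exact_mod_cast h
  by_cases h1 : q.1 ≤ n
  · have h2 : q.1 ≤ m := h1.trans hnm
    simp [h1, h2]
  · simp [h1]

lemma crossK_comm (μ c : ℝ) (a b : ℝ × Eu d → ℝ) (x : Eu d) :
    crossK μ c a b x = crossK μ c b a x := by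
  unfold crossK
  simp_rw [mul_comm (a _) (b _)]

lemma crossK_aN {μ c : ℝ} {n m : ℕ} (h : n ≤ m) (x : Eu d) :
    crossK μ c (aN n) (aN m) x = Kn μ c n x := by
  unfold Kn crossK
  simp_rw [sqrt_aN_mul h, sqrt_aN_mul le_rfl]

lemma integrableOn_gk (c : ℝ) (n : ℕ) (x : Eu d) :
    IntegrableOn (fun u => gk u x) (Iic (n:ℝ)) (scaleM c) := by
  have hm : Measurable (fun u => gk u x) := by unfold gk; fun_prop
  apply Integrable.mono' (g := fun _ => (1:ℝ))
  · exact integrableOn_const (scaleM_Iic_lt_top c n).ne (by simp)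
  · exact hm.aestronglyMeasurable
  · filter_upwards with u
    rw [Real.norm_of_nonneg (gk_pos _ _).le]
    exact gk_le_one _ _

lemma Kn_eq (μ c : ℝ) (n : ℕ) (x : Eu d) :
    Kn μ c n x = μ * ∫ u in Iic (n:ℝ), gk u x ∂(scaleM c) := by
  unfold Kn crossK
  simp_rw [sqrt_aN_mul le_rfl]
  congr 1
  have hI : Integrable (fun q : ℝ × Eu d => aN n q * Real.cos (q.1 * ⟪q.2, x⟫_ℝ)) (specM d c) := by
    have := (integrable_aN (d := d) c n).bdd_mul
      (f := fun q : ℝ × Eu d => Real.cos (q.1 * ⟪q.2, x⟫_ℝ)) (c := 1)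
      (by fun_prop) (Eventually.of_forall fun q => by
        rw [Real.norm_eq_abs]; exact Real.abs_cos_le_one _)
    refine this.congr ?_
    filter_upwards with x
    ring
  rw [integral_prod _ hI, ← integral_indicator measurableSet_Iic]
  congr 1
  funext u
  unfold aN
  by_cases h : u ≤ n
  · rw [indicator_of_mem (show u ∈ Iic (n:ℝ) from h)]
    simp only [h, if_true, one_mul]
    exact integral_cos_gam u x
  · rw [indicator_of_notMem (show u ∉ Iic (n:ℝ) from h)]
    simp [h]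

lemma Kn_nonneg {μ : ℝ} (hμ : 0 ≤ μ) (c : ℝ) (n : ℕ) (x : Eu d) : 0 ≤ Kn μ c n x := by
  rw [Kn_eq]
  exact mul_nonneg hμ (setIntegral_nonneg measurableSet_Iic (fun u _ => (gk_pos u x).le))

lemma Kn_mono {μ : ℝ} (hμ : 0 ≤ μ) (c : ℝ) {n m : ℕ} (h : n ≤ m) (x : Eu d) :
    Kn μ c n x ≤ Kn μ c m x := by
  rw [Kn_eq, Kn_eq]
  apply mul_le_mul_of_nonneg_left _ hμ
  apply setIntegral_mono_set (integrableOn_gk c m x)
  · exact Eventually.of_forall (fun u => (gk_pos u x).le)
  · apply Eventually.of_forall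
    intro u hu
    exact le_trans (show u ≤ n from hu) (by exact_mod_cast h)

lemma Kn_le {μ : ℝ} (hμ : 0 ≤ μ) {c : ℝ} (hc : 0 ≤ c) (n : ℕ) {x : Eu d} (hx : x ≠ 0) :
    Kn μ c n x ≤ μ * gker c x := by
  rw [Kn_eq, ← integral_gk_scaleM hc hx]
  apply mul_le_mul_of_nonneg_left _ hμ
  apply setIntegral_le_integral (integrable_gk_scaleM c hx)
  exact Eventually.of_forall (fun u => (gk_pos u x).le)

lemma Kn_le_zero {μ : ℝ} (hμ : 0 ≤ μ) (c : ℝ) (n : ℕ) (x : Eu d) :
    Kn μ c n x ≤ Kn μ c n (0 : Eu d) := by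
  rw [Kn_eq, Kn_eq]
  apply mul_le_mul_of_nonneg_left _ hμ
  apply setIntegral_mono_on (integrableOn_gk c n x) (integrableOn_gk c n 0) measurableSet_Iic
  intro u _
  have : gk u (0 : Eu d) = 1 := by unfold gk; simp
  rw [this]
  exact gk_le_one _ _

lemma Kn_tendsto {μ : ℝ} {c : ℝ} (hc : 0 ≤ c) {x : Eu d} (hx : x ≠ 0) :
    Tendsto (fun n => Kn μ c n x) atTop (𝓝 (μ * gker c x)) := by
  simp_rw [Kn_eq]
  apply Tendsto.const_mul
  rw [← integral_gk_scaleM hc hx, ← setIntegral_univ]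
  have h1 : (univ : Set ℝ) = ⋃ n : ℕ, Iic (n:ℝ) := by
    rw [eq_comm, eq_univ_iff_forall]
    intro x
    obtain ⟨n, hn⟩ := exists_nat_ge x
    exact mem_iUnion.mpr ⟨n, hn⟩
  rw [h1]
  apply tendsto_setIntegral_of_monotone
  · intro n; exact measurableSet_Iic
  · intro n m hnm
    apply Iic_subset_Iic.mpr
    exact_mod_cast hnm
  · rw [← h1]
    exact (integrable_gk_scaleM c hx).integrableOn

lemma continuous_crossK (μ : ℝ) {c : ℝ} {a b : ℝ × Eu d → ℝ} (ha : IsFilter c a)
    (hb : IsFilter c b) : Continuous (crossK μ c a b) := by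
  unfold crossK
  apply continuous_const.mul
  have := ha.measurable
  have := hb.measurable
  apply continuous_of_dominated (bound := fun q => a q + b q)
  · intro x
    fun_prop
  · intro x
    filter_upwards with q
    rw [norm_mul, Real.norm_of_nonneg (Real.sqrt_nonneg _), Real.norm_eq_abs]
    have h1 : √(a q * b q) ≤ a q + b q := by
      rw [Real.sqrt_le_left (add_nonneg (ha.nonneg q) (hb.nonneg q))]
      nlinarith [ha.nonneg q, hb.nonneg q]
    calc √(a q * b q) * |Real.cos (q.1 * ⟪q.2, x⟫_ℝ)| ≤ √(a q * b q) * 1 := by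
          apply mul_le_mul_of_nonneg_left (Real.abs_cos_le_one _) (Real.sqrt_nonneg _)
      _ ≤ a q + b q := by rw [mul_one]; exact h1
  · exact ha.integrable.add hb.integrable
  · filter_upwards with q
    fun_prop

lemma continuous_Kn (μ c : ℝ) (n : ℕ) : Continuous (Kn μ c n : Eu d → ℝ) :=
  continuous_crossK μ (isFilter_aN c n) (isFilter_aN c n)

lemma continuous_feat {μ : ℝ} (hμ : 0 ≤ μ) {c : ℝ} {a : ℝ × Eu d → ℝ} (ha : IsFilter c a) :
    Continuous (feat hμ ha) := by
  rw [continuous_iff_continuousAt]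
  intro x
  rw [ContinuousAt, tendsto_iff_norm_sub_tendsto_zero]
  have h1 : ∀ y, ‖feat hμ ha y - feat hμ ha x‖ ^ 2
      = 2 * crossK μ c a a 0 - 2 * crossK μ c a a (y - x) := by
    intro y
    rw [norm_sub_sq_real, ← real_inner_self_eq_norm_sq, ← real_inner_self_eq_norm_sq,
      inner_feat, inner_feat, inner_feat, sub_self, sub_self]
    ring
  have h2 : Tendsto (fun y => √(‖feat hμ ha y - feat hμ ha x‖ ^ 2)) (𝓝 x) (𝓝 (√0)) := by
    apply (Real.continuous_sqrt.tendsto 0).comp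
    simp_rw [h1]
    have h3 : Continuous (fun y => 2 * crossK μ c a a 0 - 2 * crossK μ c a a (y - x)) := by
      have := continuous_crossK μ ha ha
      fun_prop
    have h4 := h3.tendsto x
    simpa using h4
  simpa using h2

end Pool.Agent.H87.GMC
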