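import Mathlib
import Pool.Agent.H87.GMC.Trunc

open MeasureTheory ProbabilityTheory Filter Topology Set
open scoped NNReal ENNReal InnerProductSpace

namespace Pool.Agent.H87.GMC

variable {d : ℕ}

lemma integrable_exp_gker_sub_one (hd : 1 ≤ d) {μ c : ℝ} (hμ : 0 ≤ μ) (hμd : μ < d) (hc : 0 ≤ c) :
    Integrable (fun x : Eu d => Real.exp (μ * gker c x) - 1) := by
  have h1 := (integrable_exp_G0_sub_one hd hμ hμd).mul_const (Real.exp (μ * c))
  have h2 := (integrable_gk_one (d := d)).const_mul (μ * c * Real.exp (μ * c))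
  refine Integrable.mono' (h1.add h2) ?_ ?_
  · have := measurable_gker (d := d) c
    apply Measurable.aestronglyMeasurable
    fun_prop
  · filter_upwards with x
    have hg := gker_nonneg hc x
    have h3 : 1 ≤ Real.exp (μ * gker c x) := Real.one_le_exp (mul_nonneg hμ hg)
    rw [Real.norm_of_nonneg (by linarith)]
    simp only [Pi.add_apply]
    have hG : 0 ≤ G0 ‖x‖ := G0_nonneg _
    have hk0 := (gk_pos 1 x).le
    have hk1 := gk_le_one 1 x
    have hb : 0 ≤ μ * (c * gk 1 x) := by positivity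
    have hb2 : μ * (c * gk 1 x) ≤ μ * c := by
      have : c * gk 1 x ≤ c := mul_le_of_le_one_right hc hk1
      exact mul_le_mul_of_nonneg_left this hμ
    have h4 : Real.exp (μ * gker c x) = Real.exp (μ * G0 ‖x‖) * Real.exp (μ * (c * gk 1 x)) := by
      rw [← Real.exp_add]; congr 1; unfold gker; ring
    have h5 : Real.exp (μ * (c * gk 1 x)) ≤ Real.exp (μ * c) := Real.exp_le_exp.mpr hb2
    have h6 : Real.exp (μ * (c * gk 1 x)) - 1
        ≤ μ * (c * gk 1 x) * Real.exp (μ * (c * gk 1 x)) := by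
      have h7 := Real.add_one_le_exp (-(μ * (c * gk 1 x)))
      have h8 : Real.exp (μ * (c * gk 1 x)) * Real.exp (-(μ * (c * gk 1 x))) = 1 := by
        rw [← Real.exp_add]; simp
      nlinarith [Real.exp_pos (μ * (c * gk 1 x))]
    have h9 : μ * (c * gk 1 x) * Real.exp (μ * (c * gk 1 x)) ≤ μ * (c * gk 1 x) * Real.exp (μ * c) :=
      mul_le_mul_of_nonneg_left h5 hb
    have h10 : 1 ≤ Real.exp (μ * G0 ‖x‖) := Real.one_le_exp (mul_nonneg hμ hG)
    have h11 : (Real.exp (μ * G0 ‖x‖) - 1) * Real.exp (μ * (c * gk 1 x))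
        ≤ (Real.exp (μ * G0 ‖x‖) - 1) * Real.exp (μ * c) :=
      mul_le_mul_of_nonneg_left h5 (by linarith)
    rw [h4]
    nlinarith

/-- the truncation error of the two point function -/
noncomputable def psi (μ c : ℝ) (n : ℕ) (x : Eu d) : ℝ :=
  Real.exp (μ * gker c x) - Real.exp (Kn μ c n x)

lemma ae_ne_zero (hd : 1 ≤ d) : ∀ᵐ x : Eu d, x ≠ 0 := by
  have : Nonempty (Fin d) := ⟨⟨0, hd⟩⟩
  rw [ae_iff]; simp

lemma psi_nonneg {μ : ℝ} (hμ : 0 ≤ μ) {c : ℝ} (hc : 0 ≤ c) (n : ℕ) {x : Eu d} (hx : x ≠ 0) :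
    0 ≤ psi μ c n x := by
  unfold psi
  have := Real.exp_le_exp.mpr (Kn_le hμ hc n hx)
  linarith

lemma measurable_psi (μ c : ℝ) (n : ℕ) : Measurable (psi μ c n : Eu d → ℝ) := by
  unfold psi
  have := measurable_gker (d := d) c
  have := (continuous_Kn (d := d) μ c n).measurable
  fun_prop

lemma psi_le {μ : ℝ} (hμ : 0 ≤ μ) (c : ℝ) (n : ℕ) (x : Eu d) :
    psi μ c n x ≤ Real.exp (μ * gker c x) - 1 := by
  unfold psi
  have := Real.one_le_exp (Kn_nonneg hμ c n x)
  linarith

lemma integrable_psi (hd : 1 ≤ d) {μ c : ℝ} (hμ : 0 ≤ μ) (hμd : μ < d) (hc : 0 ≤ c) (n : ℕ) :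
    Integrable (psi μ c n : Eu d → ℝ) := by
  refine Integrable.mono' (integrable_exp_gker_sub_one hd hμ hμd hc)
    (measurable_psi μ c n).aestronglyMeasurable ?_
  filter_upwards [ae_ne_zero hd] with x hx
  rw [Real.norm_of_nonneg (psi_nonneg hμ hc n hx)]
  exact psi_le hμ c n x

lemma tendsto_psi (hd : 1 ≤ d) {μ c : ℝ} (hμ : 0 ≤ μ) (hμd : μ < d) (hc : 0 ≤ c) :
    Tendsto (fun n => ∫ x : Eu d, psi μ c n x) atTop (𝓝 0) := by
  have h0 : (0:ℝ) = ∫ x : Eu d, (0:ℝ) := by simp
  rw [h0]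
  apply tendsto_integral_of_dominated_convergence (fun x : Eu d => Real.exp (μ * gker c x) - 1)
  · intro n
    exact (measurable_psi μ c n).aestronglyMeasurable
  · exact integrable_exp_gker_sub_one hd hμ hμd hc
  · intro n
    filter_upwards [ae_ne_zero hd] with x hx
    rw [Real.norm_of_nonneg (psi_nonneg hμ hc n hx)]
    exact psi_le hμ c n x
  · filter_upwards [ae_ne_zero hd] with x hx
    unfold psi
    have h1 := (Real.continuous_exp.tendsto _).comp (Kn_tendsto (μ := μ) hc hx)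
    have h2 := (tendsto_const_nhds (x := Real.exp (μ * gker c x))).sub h1
    simpa using h2

/-! ### the reference measure -/

/-- A finite measure on `ℝ^d` dominated by a multiple of Lebesgue measure. -/
structure IsDom (l : Measure (Eu d)) (C : ℝ≥0) : Prop where
  finite : IsFiniteMeasure l
  le : l ≤ (C : ℝ≥0∞) • volume

lemma IsDom.ac {l : Measure (Eu d)} {C : ℝ≥0} (h : IsDom l C) : l ≪ volume :=
  (Measure.absolutelyContinuous_of_le h.le).trans (Measure.smul_absolutelyContinuous)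

lemma IsDom.integrable_shift {l : Measure (Eu d)} {C : ℝ≥0} (h : IsDom l C) {f : Eu d → ℝ}
    (hf : Integrable f) (y : Eu d) : Integrable (fun x => f (x - y)) l := by
  have h1 : Integrable (fun x => f (x - y)) := hf.comp_sub_right y
  exact (h1.smul_measure (c := (C : ℝ≥0∞)) ENNReal.coe_ne_top).mono_measure h.le

lemma IsDom.integral_shift_le {l : Measure (Eu d)} {C : ℝ≥0} (h : IsDom l C) {f : Eu d → ℝ}
    (hf : Integrable f) (hf0 : 0 ≤ᵐ[volume] f) (y : Eu d) :
    ∫ x, f (x - y) ∂l ≤ C * ∫ x, f x := by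
  have h1 : Integrable (fun x => f (x - y)) := hf.comp_sub_right y
  have h2 : 0 ≤ᵐ[volume] fun x => f (x - y) := by
    have hq := (measurePreserving_sub_right (volume : Measure (Eu d)) y).quasiMeasurePreserving
    exact hq.ae hf0
  calc ∫ x, f (x - y) ∂l ≤ ∫ x, f (x - y) ∂((C : ℝ≥0∞) • volume) := by
        apply integral_mono_measure h.le
        · exact Measure.smul_absolutelyContinuous.ae_le h2
        · exact h1.smul_measure ENNReal.coe_ne_top
    _ = C * ∫ x, f x := by
        rw [integral_smul_measure, integral_sub_right_eq_self f y]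
        rfl

end Pool.Agent.H87.GMC
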