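import Mathlib
import Pool.Agent.H87.GMC.Psi
import Pool.Agent.H87.GMC.Mass

open MeasureTheory ProbabilityTheory Filter Topology Set
open scoped NNReal ENNReal InnerProductSpace

namespace Pool.Agent.H87.GMC

variable {d : ℕ}

noncomputable instance instMeasurableSpaceSpec (d : ℕ) (c : ℝ) :
    MeasurableSpace (Lp ℂ 2 (specM d c)) := borel _

instance instBorelSpaceSpec (d : ℕ) (c : ℝ) : BorelSpace (Lp ℂ 2 (specM d c)) := ⟨rfl⟩

instance instSecondCountableSpec (d : ℕ) (c : ℝ) :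
    SecondCountableTopology (Lp ℂ 2 (specM d c)) := by
  have : Fact ((2 : ℝ≥0∞) ≠ ∞) := ⟨by norm_num⟩
  infer_instance

/-- the canonical field indexed by the Hilbert space -/
noncomputable def canW (d : ℕ) (c : ℝ) : Lp ℂ 2 (specM d c) → (ℕ → ℝ) → ℝ :=
  (exists_hilbert_field (Lp ℂ 2 (specM d c))).choose

lemma canW_field (d : ℕ) (c : ℝ) :
    IsGField NoiseP (canW d c) (fun h h' => ⟪h, h'⟫_ℝ) :=
  (exists_hilbert_field (Lp ℂ 2 (specM d c))).choose_spec

/-- the canonical field with a given filter -/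
noncomputable def canF {μ : ℝ} (hμ : 0 ≤ μ) {c : ℝ} {a : ℝ × Eu d → ℝ} (ha : IsFilter c a) :
    Eu d → (ℕ → ℝ) → ℝ := fun x => canW d c (feat hμ ha x)

lemma measurable_feat {μ : ℝ} (hμ : 0 ≤ μ) {c : ℝ} {a : ℝ × Eu d → ℝ} (ha : IsFilter c a) :
    Measurable (feat hμ ha) := (continuous_feat hμ ha).measurable

lemma canF_field {μ : ℝ} (hμ : 0 ≤ μ) {c : ℝ} {a : ℝ × Eu d → ℝ} (ha : IsFilter c a) :
    IsGField NoiseP (canF hμ ha) (fun x y => crossK μ c a a (x - y)) := by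
  have h := (canW_field d c).comp (measurable_feat hμ ha)
  have h1 : (fun y y' => ⟪feat hμ ha y, feat hμ ha y'⟫_ℝ) = fun x y => crossK μ c a a (x - y) := by
    funext x y
    exact inner_feat hμ ha ha x y
  rw [h1] at h
  exact h

/-- the canonical mass with a given filter -/
noncomputable def cM {μ : ℝ} (hμ : 0 ≤ μ) {c : ℝ} {a : ℝ × Eu d → ℝ} (ha : IsFilter c a)
    (l : Measure (Eu d)) : (ℕ → ℝ) → ℝ := gmass l (canF hμ ha)

lemma measurable_cM {μ : ℝ} (hμ : 0 ≤ μ) {c : ℝ} {a : ℝ × Eu d → ℝ} (ha : IsFilter c a)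
    (l : Measure (Eu d)) [SFinite l] : Measurable (cM hμ ha l) :=
  (canF_field hμ ha).measurable_gmass l

lemma cM_nonneg {μ : ℝ} (hμ : 0 ≤ μ) {c : ℝ} {a : ℝ × Eu d → ℝ} (ha : IsFilter c a)
    (l : Measure (Eu d)) (w : ℕ → ℝ) : 0 ≤ cM hμ ha l w :=
  integral_nonneg (fun _ => (Real.exp_pos _).le)

lemma sqrt_mul_le_add {a b : ℝ} (ha : 0 ≤ a) (hb : 0 ≤ b) : √(a * b) ≤ a + b := by
  rw [Real.sqrt_le_left (add_nonneg ha hb)]
  nlinarith

lemma crossK_integrable {c : ℝ} {a b : ℝ × Eu d → ℝ} (ha : IsFilter c a)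
    (hb : IsFilter c b) (x : Eu d) :
    Integrable (fun q => √(a q * b q) * Real.cos (q.1 * ⟪q.2, x⟫_ℝ)) (specM d c) := by
  have := ha.measurable
  have := hb.measurable
  refine Integrable.mono' (ha.integrable.add hb.integrable) (by fun_prop) ?_
  filter_upwards with q
  rw [norm_mul, Real.norm_of_nonneg (Real.sqrt_nonneg _), Real.norm_eq_abs]
  calc √(a q * b q) * |Real.cos (q.1 * ⟪q.2, x⟫_ℝ)| ≤ √(a q * b q) * 1 := by
        apply mul_le_mul_of_nonneg_left (Real.abs_cos_le_one _) (Real.sqrt_nonneg _)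
    _ ≤ a q + b q := by rw [mul_one]; exact sqrt_mul_le_add (ha.nonneg q) (hb.nonneg q)

lemma crossK_le {μ : ℝ} (hμ : 0 ≤ μ) {c : ℝ} {a b : ℝ × Eu d → ℝ} (ha : IsFilter c a)
    (hb : IsFilter c b) (x : Eu d) :
    crossK μ c a b x ≤ μ * ((∫ q, a q ∂(specM d c)) + ∫ q, b q ∂(specM d c)) := by
  unfold crossK
  apply mul_le_mul_of_nonneg_left _ hμ
  rw [← integral_add ha.integrable hb.integrable]
  apply integral_mono (crossK_integrable ha hb x) (ha.integrable.add hb.integrable)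
  intro q
  simp only
  calc √(a q * b q) * Real.cos (q.1 * ⟪q.2, x⟫_ℝ) ≤ √(a q * b q) * 1 := by
        apply mul_le_mul_of_nonneg_left (Real.cos_le_one _) (Real.sqrt_nonneg _)
    _ ≤ a q + b q := by rw [mul_one]; exact sqrt_mul_le_add (ha.nonneg q) (hb.nonneg q)

/-- L² distance between canonical masses -/
lemma cM_dist {μ : ℝ} (hμ : 0 ≤ μ) {c : ℝ} {a b : ℝ × Eu d → ℝ} (ha : IsFilter c a)
    (hb : IsFilter c b) (l : Measure (Eu d)) [IsFiniteMeasure l] :
    Integrable (fun w => (cM hμ ha l w - cM hμ hb l w) ^ 2) NoiseP ∧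
    ∫ w, (cM hμ ha l w - cM hμ hb l w) ^ 2 ∂NoiseP
      = (∫ y, ∫ x, Real.exp (crossK μ c a a (x - y)) ∂l ∂l)
        - 2 * (∫ y, ∫ x, Real.exp (crossK μ c a b (x - y)) ∂l ∂l)
        + ∫ y, ∫ x, Real.exp (crossK μ c b b (x - y)) ∂l ∂l := by
  set A := ∫ q, a q ∂(specM d c) with hA
  set B := ∫ q, b q ∂(specM d c) with hB
  have hA0 : 0 ≤ A := integral_nonneg ha.nonneg
  have hB0 : 0 ≤ B := integral_nonneg hb.nonneg
  have h := (canW_field d c).integral_sub_sq l (measurable_feat hμ ha) (measurable_feat hμ hb)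
    (C := 2 * μ * (A + B)) ?_ ?_ ?_
  · simp only [inner_feat] at h
    exact h
  · intro x y
    simp only [inner_feat]
    have := crossK_le hμ ha ha (x - y)
    rw [← hA] at this
    nlinarith [mul_nonneg hμ hA0, mul_nonneg hμ hB0]
  · intro x y
    simp only [inner_feat]
    have := crossK_le hμ ha hb (x - y)
    rw [← hA, ← hB] at this
    nlinarith [mul_nonneg hμ hA0, mul_nonneg hμ hB0]
  · intro x y
    simp only [inner_feat]
    have := crossK_le hμ hb hb (x - y)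
    rw [← hB] at this
    nlinarith [mul_nonneg hμ hA0, mul_nonneg hμ hB0]

/-- the error bound -/
noncomputable def Dn (μ c : ℝ) (l : Measure (Eu d)) (C : ℝ≥0) (n : ℕ) : ℝ :=
  l.real univ * (C * ∫ x : Eu d, psi μ c n x)

lemma tendsto_Dn (hd : 1 ≤ d) {μ c : ℝ} (hμ : 0 ≤ μ) (hμd : μ < d) (hc : 0 ≤ c)
    (l : Measure (Eu d)) (C : ℝ≥0) : Tendsto (Dn μ c l C) atTop (𝓝 0) := by
  have h := ((tendsto_psi hd hμ hμd hc).const_mul (C : ℝ)).const_mul (l.real univ)
  rw [mul_zero, mul_zero] at h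
  exact h

lemma integrable_exp_Kn (μ c : ℝ) (hμ : 0 ≤ μ) (n : ℕ) (l : Measure (Eu d)) [IsFiniteMeasure l]
    (y : Eu d) : Integrable (fun x => Real.exp (Kn μ c n (x - y))) l := by
  apply Integrable.of_bound (C := Real.exp (Kn μ c n (0 : Eu d)))
  · have := (continuous_Kn (d := d) μ c n)
    fun_prop
  · filter_upwards with x
    rw [Real.norm_of_nonneg (Real.exp_pos _).le]
    exact Real.exp_le_exp.mpr (Kn_le_zero hμ c n _)

lemma integrable_exp_Kn_outer (μ c : ℝ) (hμ : 0 ≤ μ) (n : ℕ) (l : Measure (Eu d))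
    [IsFiniteMeasure l] :
    Integrable (fun y => ∫ x, Real.exp (Kn μ c n (x - y)) ∂l) l := by
  have h1 : Integrable (fun p : Eu d × Eu d => Real.exp (Kn μ c n (p.2 - p.1))) (l.prod l) := by
    apply Integrable.of_bound (C := Real.exp (Kn μ c n (0 : Eu d)))
    · have := (continuous_Kn (d := d) μ c n)
      fun_prop
    · filter_upwards with x
      rw [Real.norm_of_nonneg (Real.exp_pos _).le]
      exact Real.exp_le_exp.mpr (Kn_le_zero hμ c n _)
  exact h1.integral_prod_left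

/-- difference of the two point integrals -/
lemma exp_Kn_sub_le (hd : 1 ≤ d) {μ c : ℝ} (hμ : 0 ≤ μ) (hμd : μ < d) (hc : 0 ≤ c)
    {l : Measure (Eu d)} {C : ℝ≥0} (hl : IsDom l C) (n m : ℕ) :
    (∫ y, ∫ x, Real.exp (Kn μ c n (x - y)) ∂l ∂l) - (∫ y, ∫ x, Real.exp (Kn μ c m (x - y)) ∂l ∂l)
      ≤ Dn μ c l C m := by
  have := hl.finite
  rw [← integral_sub (integrable_exp_Kn_outer μ c hμ n l) (integrable_exp_Kn_outer μ c hμ m l)]
  unfold Dn
  have h1 : ∀ y, (∫ x, Real.exp (Kn μ c n (x - y)) ∂l) - (∫ x, Real.exp (Kn μ c m (x - y)) ∂l)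
      ≤ C * ∫ x : Eu d, psi μ c m x := by
    intro y
    rw [← integral_sub (integrable_exp_Kn μ c hμ n l y) (integrable_exp_Kn μ c hμ m l y)]
    refine le_trans ?_ (hl.integral_shift_le (integrable_psi hd hμ hμd hc m) ?_ y)
    · apply integral_mono_ae
      · exact (integrable_exp_Kn μ c hμ n l y).sub (integrable_exp_Kn μ c hμ m l y)
      · exact hl.integrable_shift (integrable_psi hd hμ hμd hc m) y
      · have h2 : ∀ᵐ x ∂l, x - y ≠ 0 := by
          apply hl.ac.ae_le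
          have hq := (measurePreserving_sub_right (volume : Measure (Eu d)) y).quasiMeasurePreserving
          exact hq.ae (ae_ne_zero hd)
        filter_upwards [h2] with x hx
        unfold psi
        have := Real.exp_le_exp.mpr (Kn_le hμ hc n hx)
        linarith
    · filter_upwards [ae_ne_zero hd] with x hx
      exact psi_nonneg hμ hc m hx
  calc ∫ y, ((∫ x, Real.exp (Kn μ c n (x - y)) ∂l) - (∫ x, Real.exp (Kn μ c m (x - y)) ∂l)) ∂l
      ≤ ∫ _, (C * ∫ x : Eu d, psi μ c m x) ∂l := by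
        apply integral_mono
        · exact (integrable_exp_Kn_outer μ c hμ n l).sub (integrable_exp_Kn_outer μ c hμ m l)
        · exact integrable_const _
        · exact h1
    _ = l.real univ * (C * ∫ x : Eu d, psi μ c m x) := by
        rw [integral_const, smul_eq_mul]

/-- the truncated canonical masses are Cauchy -/
lemma cM_aN_dist (hd : 1 ≤ d) {μ c : ℝ} (hμ : 0 ≤ μ) (hμd : μ < d) (hc : 0 ≤ c)
    {l : Measure (Eu d)} {C : ℝ≥0} (hl : IsDom l C) {n m : ℕ} (h : m ≤ n) :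
    ∫ w, (cM hμ (isFilter_aN c n) l w - cM hμ (isFilter_aN c m) l w) ^ 2 ∂NoiseP
      ≤ Dn μ c l C m := by
  have := hl.finite
  rw [(cM_dist hμ (isFilter_aN c n) (isFilter_aN c m) l).2]
  have h1 : ∀ x : Eu d, crossK μ c (aN n) (aN m) x = Kn μ c m x := by
    intro x
    rw [crossK_comm, crossK_aN h]
  simp_rw [h1]
  have h2 := exp_Kn_sub_le hd hμ hμd hc hl n m
  unfold Kn at h2 ⊢
  linarith

end Pool.Agent.H87.GMC
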