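import Mathlib
import Pool.Agent.H87.GMC.Limit

open MeasureTheory ProbabilityTheory Filter Topology Set
open scoped NNReal ENNReal InnerProductSpace

namespace Pool.Agent.H87.GMC

variable {d : ℕ}

/-- the probability measure with density `θ` -/
noncomputable def tauM (θ : Eu d → ℝ) : Measure (Eu d) :=
  (volume : Measure (Eu d)).withDensity (fun w => ENNReal.ofReal (θ w))

lemma IsBump.isProb {θ : Eu d → ℝ} (h : IsBump θ) : IsProbabilityMeasure (tauM θ) := by
  constructor
  unfold tauM
  rw [withDensity_apply _ MeasurableSet.univ, setLIntegral_univ,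
    ← ofReal_integral_eq_lintegral_ofReal h.integrable (Eventually.of_forall h.nonneg),
    h.integral_eq_one, ENNReal.ofReal_one]

lemma IsBump.integral_tau {θ : Eu d → ℝ} (h : IsBump θ) (f : Eu d → ℝ) :
    ∫ w, f w ∂(tauM θ) = ∫ w, θ w * f w := by
  unfold tauM
  rw [integral_withDensity_eq_integral_toReal_smul h.continuous.measurable.ennreal_ofReal
    (Eventually.of_forall fun w => ENNReal.ofReal_lt_top)]
  congr 1
  funext w
  rw [ENNReal.toReal_ofReal (h.nonneg w), smul_eq_mul]

lemma IsBump.integrable_tau {θ : Eu d → ℝ} (h : IsBump θ) {f : Eu d → ℝ} :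
    Integrable f (tauM θ) ↔ Integrable (fun w => θ w * f w) := by
  unfold tauM
  rw [integrable_withDensity_iff_integrable_smul' h.continuous.measurable.ennreal_ofReal
    (Eventually.of_forall fun w => ENNReal.ofReal_lt_top)]
  apply integrable_congr
  filter_upwards with w
  rw [ENNReal.toReal_ofReal (h.nonneg w), smul_eq_mul]

lemma tau_ac (θ : Eu d → ℝ) : tauM θ ≪ volume := withDensity_absolutelyContinuous _ _

/-- Jensen's inequality for the mollified covariance. -/
lemma jensen (hd : 1 ≤ d) {θ : Eu d → ℝ} (h : IsBump θ) {μ c : ℝ} (hμ : 0 ≤ μ) (hμd : μ < d)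
    (hc : 0 ≤ c) {ε : ℝ} (hε : 0 < ε) (n : ℕ) (z : Eu d) :
    ENNReal.ofReal (Real.exp (μ * mollify θ ε (gker c) z))
      ≤ ∫⁻ w, (ENNReal.ofReal (Real.exp (Kn μ c n (z - ε • w)))
        + ENNReal.ofReal (psi μ c n (z - ε • w))) ∂(tauM θ) := by
  have hp := h.isProb
  have h1 : μ * mollify θ ε (gker c) z = ∫ w, μ * gker c (z - ε • w) ∂(tauM θ) := by
    rw [integral_const_mul, h.integral_tau, mollify_eq hε]
  have hI1 : Integrable (fun w => μ * gker c (z - ε • w)) (tauM θ) := by
    apply Integrable.const_mul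
    rw [h.integrable_tau]
    exact integrable_theta_gker hd h hε z
  have hI2 : Integrable (fun w => Real.exp (μ * gker c (z - ε • w))) (tauM θ) := by
    have h2 : Integrable (fun w : Eu d => Real.exp (μ * gker c (z - ε • w)) - 1) := by
      have h3 := (integrable_exp_gker_sub_one hd hμ hμd hc).comp_sub_left z
      exact h3.comp_smul (R := ε) hε.ne'
    obtain ⟨C, hC⟩ := h.bounded
    have h4 : Integrable (fun w : Eu d => Real.exp (μ * gker c (z - ε • w)) - 1) (tauM θ) := by
      rw [h.integrable_tau]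
      exact h2.bdd_mul (c := C) h.continuous.aestronglyMeasurable (Eventually.of_forall hC)
    have h5 := h4.add (integrable_const (1:ℝ))
    refine h5.congr ?_
    filter_upwards with w
    simp
  have h2 : Real.exp (∫ w, μ * gker c (z - ε • w) ∂(tauM θ))
      ≤ ∫ w, Real.exp (μ * gker c (z - ε • w)) ∂(tauM θ) := by
    apply ConvexOn.map_integral_le convexOn_exp Real.continuous_exp.continuousOn isClosed_univ
    · exact Eventually.of_forall (fun _ => mem_univ _)
    · exact hI1
    · exact hI2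
  rw [h1]
  calc ENNReal.ofReal (Real.exp (∫ w, μ * gker c (z - ε • w) ∂(tauM θ)))
      ≤ ENNReal.ofReal (∫ w, Real.exp (μ * gker c (z - ε • w)) ∂(tauM θ)) :=
        ENNReal.ofReal_le_ofReal h2
    _ = ∫⁻ w, ENNReal.ofReal (Real.exp (μ * gker c (z - ε • w))) ∂(tauM θ) :=
        ofReal_integral_eq_lintegral_ofReal hI2 (Eventually.of_forall fun _ => (Real.exp_pos _).le)
    _ ≤ _ := by
        apply lintegral_mono
        intro w
        have h3 : Real.exp (μ * gker c (z - ε • w))
            = Real.exp (Kn μ c n (z - ε • w)) + psi μ c n (z - ε • w) := by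
          unfold psi; ring
        simp only
        rw [h3]
        exact ENNReal.ofReal_add_le

lemma lintegral_psi_shift (hd : 1 ≤ d) {μ c : ℝ} (hμ : 0 ≤ μ) (hμd : μ < d) (hc : 0 ≤ c)
    {l : Measure (Eu d)} {C : ℝ≥0} (hl : IsDom l C) (n : ℕ) (y : Eu d) :
    ∫⁻ x, ENNReal.ofReal (psi μ c n (x - y)) ∂l ≤ ENNReal.ofReal (C * ∫ x : Eu d, psi μ c n x) := by
  have hpsi0 : 0 ≤ᵐ[volume] (psi μ c n : Eu d → ℝ) := by
    filter_upwards [ae_ne_zero hd] with x hx
    exact psi_nonneg hμ hc n hx
  have h2 : 0 ≤ᵐ[l] fun x => psi μ c n (x - y) := by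
    apply hl.ac.ae_le
    have hq := (measurePreserving_sub_right (volume : Measure (Eu d)) y).quasiMeasurePreserving
    exact hq.ae hpsi0
  rw [← ofReal_integral_eq_lintegral_ofReal (hl.integrable_shift (integrable_psi hd hμ hμd hc n) y)
    h2]
  exact ENNReal.ofReal_le_ofReal
    (hl.integral_shift_le (integrable_psi hd hμ hμd hc n) hpsi0 y)

/-- the average of the truncated two point function over translations -/
noncomputable def phiE (μ c : ℝ) (n : ℕ) (l : Measure (Eu d)) (θ : Eu d → ℝ) (ε : ℝ) : ℝ :=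
  ∫ q : (Eu d × Eu d) × Eu d, Real.exp (Kn μ c n (q.1.2 - q.1.1 - ε • q.2))
    ∂((l.prod l).prod (tauM θ))

lemma tendsto_phiE {μ c : ℝ} (hμ : 0 ≤ μ) (n : ℕ) (l : Measure (Eu d)) [IsFiniteMeasure l]
    {θ : Eu d → ℝ} (h : IsBump θ) :
    Tendsto (phiE μ c n l θ) (𝓝 0) (𝓝 (∫ y, ∫ x, Real.exp (Kn μ c n (x - y)) ∂l ∂l)) := by
  have hp := h.isProb
  have hcont : Continuous (phiE μ c n l θ) := by
    unfold phiE
    have hK := continuous_Kn (d := d) μ c n
    apply continuous_of_dominated (bound := fun _ => Real.exp (Kn μ c n (0 : Eu d)))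
    · intro ε
      fun_prop
    · intro ε
      filter_upwards with q
      rw [Real.norm_of_nonneg (Real.exp_pos _).le]
      exact Real.exp_le_exp.mpr (Kn_le_zero hμ c n _)
    · exact integrable_const _
    · filter_upwards with q
      fun_prop
  have h0 : phiE μ c n l θ 0 = ∫ y, ∫ x, Real.exp (Kn μ c n (x - y)) ∂l ∂l := by
    unfold phiE
    simp only [zero_smul, sub_zero]
    have hI : Integrable (fun p : Eu d × Eu d => Real.exp (Kn μ c n (p.2 - p.1))) (l.prod l) := by
      apply Integrable.of_bound (C := Real.exp (Kn μ c n (0 : Eu d)))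
      · have := (continuous_Kn (d := d) μ c n)
        fun_prop
      · filter_upwards with x
        rw [Real.norm_of_nonneg (Real.exp_pos _).le]
        exact Real.exp_le_exp.mpr (Kn_le_zero hμ c n _)
    have h1 := integral_prod_mul (μ := l.prod l) (ν := tauM θ)
      (fun p : Eu d × Eu d => Real.exp (Kn μ c n (p.2 - p.1))) (fun _ => (1:ℝ))
    simp only [mul_one, integral_const, probReal_univ, smul_eq_mul] at h1
    rw [h1, integral_prod _ hI]
  rw [← h0]
  exact hcont.tendsto 0

/-- upper bound of the two point function of the mollified field -/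
lemma two_point_mollified_le (hd : 1 ≤ d) {θ : Eu d → ℝ} (h : IsBump θ) {μ c : ℝ} (hμ : 0 ≤ μ)
    (hμd : μ < d) (hc : 0 ≤ c) {ε : ℝ} (hε : 0 < ε) {l : Measure (Eu d)} {C : ℝ≥0}
    (hl : IsDom l C) (n : ℕ) :
    ∫ y, ∫ x, Real.exp (crossK μ c (aT θ ε) (aT θ ε) (x - y)) ∂l ∂l
      ≤ phiE μ c n l θ ε + Dn μ c l C n := by
  have := hl.finite
  have hp := h.isProb
  have hcK := continuous_crossK μ (isFilter_aT hd h hc hε) (isFilter_aT hd h hc hε)
  set A := μ * ((∫ q, aT θ ε q ∂(specM d c)) + ∫ q, aT θ ε q ∂(specM d c)) with hA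
  have hle := crossK_le hμ (isFilter_aT hd h hc hε) (isFilter_aT hd h hc hε)
  have hI : Integrable (fun p : Eu d × Eu d =>
      Real.exp (crossK μ c (aT θ ε) (aT θ ε) (p.2 - p.1))) (l.prod l) := by
    apply Integrable.of_bound (C := Real.exp A)
    · fun_prop
    · filter_upwards with x
      rw [Real.norm_of_nonneg (Real.exp_pos _).le]
      exact Real.exp_le_exp.mpr (hle _)
  have h1 : ∫ y, ∫ x, Real.exp (crossK μ c (aT θ ε) (aT θ ε) (x - y)) ∂l ∂l
      = ∫ p : Eu d × Eu d, Real.exp (crossK μ c (aT θ ε) (aT θ ε) (p.2 - p.1)) ∂(l.prod l) :=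
    (integral_prod _ hI).symm
  have hD0 : 0 ≤ Dn μ c l C n := by
    unfold Dn
    have : 0 ≤ ∫ x : Eu d, psi μ c n x := by
      apply integral_nonneg_of_ae
      filter_upwards [ae_ne_zero hd] with x hx
      exact psi_nonneg hμ hc n hx
    positivity
  have hphi0 : 0 ≤ phiE μ c n l θ ε := integral_nonneg (fun _ => (Real.exp_pos _).le)
  rw [h1, ← ENNReal.ofReal_le_ofReal_iff (add_nonneg hphi0 hD0),
    ofReal_integral_eq_lintegral_ofReal hI (Eventually.of_forall fun _ => (Real.exp_pos _).le)]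
  have hKm := (continuous_Kn (d := d) μ c n).measurable
  have hpm := measurable_psi (d := d) μ c n
  -- the integrand bound
  have h2 : ∫⁻ p : Eu d × Eu d, ENNReal.ofReal
        (Real.exp (crossK μ c (aT θ ε) (aT θ ε) (p.2 - p.1))) ∂(l.prod l)
      ≤ ∫⁻ p : Eu d × Eu d, ∫⁻ w, (ENNReal.ofReal (Real.exp (Kn μ c n (p.2 - p.1 - ε • w)))
        + ENNReal.ofReal (psi μ c n (p.2 - p.1 - ε • w))) ∂(tauM θ) ∂(l.prod l) := by
    apply lintegral_mono
    intro p
    simp only
    rw [crossK_aT hd h hc hε]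
    exact jensen hd h hμ hμd hc hε n (p.2 - p.1)
  refine h2.trans ?_
  have hm1 : Measurable (fun q : (Eu d × Eu d) × Eu d =>
      ENNReal.ofReal (Real.exp (Kn μ c n (q.1.2 - q.1.1 - ε • q.2)))) := by fun_prop
  have hm2 : Measurable (fun q : (Eu d × Eu d) × Eu d =>
      ENNReal.ofReal (psi μ c n (q.1.2 - q.1.1 - ε • q.2))) := by fun_prop
  have h3 : ∫⁻ p : Eu d × Eu d, ∫⁻ w, (ENNReal.ofReal (Real.exp (Kn μ c n (p.2 - p.1 - ε • w)))
        + ENNReal.ofReal (psi μ c n (p.2 - p.1 - ε • w))) ∂(tauM θ) ∂(l.prod l)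
      = (∫⁻ p : Eu d × Eu d, ∫⁻ w, ENNReal.ofReal (Real.exp (Kn μ c n (p.2 - p.1 - ε • w)))
          ∂(tauM θ) ∂(l.prod l))
        + ∫⁻ p : Eu d × Eu d, ∫⁻ w, ENNReal.ofReal (psi μ c n (p.2 - p.1 - ε • w))
          ∂(tauM θ) ∂(l.prod l) := by
    have hg1 : Measurable (fun p : Eu d × Eu d =>
        ∫⁻ w, ENNReal.ofReal (Real.exp (Kn μ c n (p.2 - p.1 - ε • w))) ∂(tauM θ)) :=
      hm1.lintegral_prod_right'
    rw [← lintegral_add_left hg1]
    congr 1
    funext p
    have hg2 : Measurable (fun w => ENNReal.ofReal (Real.exp (Kn μ c n (p.2 - p.1 - ε • w)))) := by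
      fun_prop
    exact lintegral_add_left hg2 _
  rw [h3, ENNReal.ofReal_add hphi0 hD0]
  apply add_le_add
  · -- main part
    apply le_of_eq
    have hI3 : Integrable (fun q : (Eu d × Eu d) × Eu d =>
        Real.exp (Kn μ c n (q.1.2 - q.1.1 - ε • q.2))) ((l.prod l).prod (tauM θ)) := by
      apply Integrable.of_bound (C := Real.exp (Kn μ c n (0 : Eu d)))
      · have := (continuous_Kn (d := d) μ c n)
        fun_prop
      · filter_upwards with x
        rw [Real.norm_of_nonneg (Real.exp_pos _).le]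
        exact Real.exp_le_exp.mpr (Kn_le_zero hμ c n _)
    unfold phiE
    rw [ofReal_integral_eq_lintegral_ofReal hI3 (Eventually.of_forall fun _ => (Real.exp_pos _).le),
      lintegral_prod _ hm1.aemeasurable]
  · -- error part
    rw [lintegral_prod _ hm2.lintegral_prod_right'.aemeasurable]
    calc ∫⁻ y, ∫⁻ x, ∫⁻ w, ENNReal.ofReal (psi μ c n (x - y - ε • w)) ∂(tauM θ) ∂l ∂l
        = ∫⁻ y, ∫⁻ w, ∫⁻ x, ENNReal.ofReal (psi μ c n (x - y - ε • w)) ∂l ∂(tauM θ) ∂l := by
          congr 1
          funext y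
          apply lintegral_lintegral_swap
          apply Measurable.aemeasurable
          have : Measurable (fun q : Eu d × Eu d =>
            ENNReal.ofReal (psi μ c n (q.1 - y - ε • q.2))) := by fun_prop
          exact this
      _ ≤ ∫⁻ _, ∫⁻ _, ENNReal.ofReal (C * ∫ x : Eu d, psi μ c n x) ∂(tauM θ) ∂l := by
          apply lintegral_mono
          intro y
          apply lintegral_mono
          intro w
          simp only
          have h4 : ∀ x, x - y - ε • w = x - (y + ε • w) := fun x => by abel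
          simp_rw [h4]
          exact lintegral_psi_shift hd hμ hμd hc hl n _
      _ = ENNReal.ofReal (Dn μ c l C n) := by
          rw [lintegral_const, lintegral_const, measure_univ, mul_one]
          unfold Dn
          rw [ENNReal.ofReal_mul (measureReal_nonneg), ofReal_measureReal, mul_comm]

end Pool.Agent.H87.GMC
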