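import Mathlib
import Pool.Agent.H87.GMC.Compare

open MeasureTheory ProbabilityTheory Filter Topology Set
open scoped NNReal ENNReal InnerProductSpace

namespace Pool.Agent.H87.GMC

variable {d : ℕ}

/-- the cross covariance error -/
noncomputable def etaE (μ c : ℝ) (n : ℕ) (θ : Eu d → ℝ) (ε : ℝ) : ℝ :=
  μ * ∫ q, |√(aT θ ε q) - 1| * aN n q ∂(specM d c)

lemma sqrt_aT_aN (θ : Eu d → ℝ) (ε : ℝ) (n : ℕ) (q : ℝ × Eu d) :
    √(aT θ ε q * aN n q) = √(aT θ ε q) * aN n q := by
  unfold aN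
  split_ifs <;> simp

lemma aT_le_one {θ : Eu d → ℝ} (h : IsBump θ) (ε : ℝ) (q : ℝ × Eu d) : aT θ ε q ≤ 1 :=
  (le_abs_self _).trans (abs_thetaHat_le h _)

lemma abs_sqrt_aT_sub_one_le {θ : Eu d → ℝ} (h : IsBump θ) (ε : ℝ) (q : ℝ × Eu d) :
    |√(aT θ ε q) - 1| ≤ 1 := by
  have h1 := Real.sqrt_nonneg (aT θ ε q)
  have h2 : √(aT θ ε q) ≤ 1 := by
    rw [Real.sqrt_le_left (by norm_num : (0:ℝ) ≤ 1)]
    simpa using aT_le_one h ε q
  rw [abs_le]
  constructor <;> linarith

lemma measurable_aT {θ : Eu d → ℝ} (h : IsBump θ) (ε : ℝ) : Measurable (aT θ ε) := by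
  unfold aT
  have := (continuous_thetaHat h).measurable
  fun_prop

lemma integrable_eta {θ : Eu d → ℝ} (h : IsBump θ) (c : ℝ) (n : ℕ) (ε : ℝ) :
    Integrable (fun q => |√(aT θ ε q) - 1| * aN n q) (specM d c) := by
  have := measurable_aT h ε
  apply (integrable_aN c n).bdd_mul (c := 1)
  · apply Measurable.aestronglyMeasurable
    have h1 : Measurable (fun q => √(aT θ ε q) - 1) := by fun_prop
    have h2 : Measurable (fun q => |√(aT θ ε q) - 1|) := by
      exact h1.norm
    exact h2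
  · filter_upwards with q
    rw [Real.norm_eq_abs, abs_abs]
    exact abs_sqrt_aT_sub_one_le h ε q

lemma tendsto_etaE {θ : Eu d → ℝ} (h : IsBump θ) (μ c : ℝ) (n : ℕ) :
    Tendsto (etaE μ c n θ) (𝓝 0) (𝓝 0) := by
  unfold etaE
  have h0 : (0:ℝ) = μ * ∫ q : ℝ × Eu d, (0:ℝ) ∂(specM d c) := by simp
  nth_rewrite 2 [h0]
  apply Tendsto.const_mul
  apply tendsto_integral_filter_of_dominated_convergence (fun q => aN n q)
  · filter_upwards with ε
    exact (integrable_eta h c n ε).aestronglyMeasurable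
  · filter_upwards with ε
    filter_upwards with q
    have h1 : 0 ≤ aN n q := (isFilter_aN c n).nonneg q
    rw [norm_mul, Real.norm_eq_abs, abs_abs, Real.norm_of_nonneg h1]
    exact mul_le_of_le_one_left h1 (abs_sqrt_aT_sub_one_le h ε q)
  · exact integrable_aN c n
  · filter_upwards with q
    have h1 : Continuous (fun ε : ℝ => |√(aT θ ε q) - 1| * aN n q) := by
      unfold aT
      have := continuous_thetaHat h
      fun_prop
    have h2 := h1.tendsto 0
    have h3 : |√(aT θ 0 q) - 1| * aN n q = 0 := by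
      unfold aT
      simp [thetaHat_zero h]
    rw [h3] at h2
    exact h2

lemma crossK_ge (hd : 1 ≤ d) {θ : Eu d → ℝ} (h : IsBump θ) {μ c : ℝ} (hμ : 0 ≤ μ) (hc : 0 ≤ c)
    (n : ℕ) {ε : ℝ} (hε : 0 < ε) (x : Eu d) :
    Kn μ c n x - etaE μ c n θ ε ≤ crossK μ c (aT θ ε) (aN n) x := by
  have h1 : crossK μ c (aT θ ε) (aN n) x - Kn μ c n x
      = μ * ∫ q, (√(aT θ ε q) - 1) * aN n q * Real.cos (q.1 * ⟪q.2, x⟫_ℝ) ∂(specM d c) := by
    unfold Kn crossK
    rw [← mul_sub, ← integral_sub (crossK_integrable (isFilter_aT hd h hc hε) (isFilter_aN c n) x)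
      (crossK_integrable (isFilter_aN c n) (isFilter_aN c n) x)]
    congr 2
    funext q
    rw [sqrt_aT_aN, sqrt_aN_mul le_rfl]
    ring
  have h2 : -etaE μ c n θ ε
      ≤ μ * ∫ q, (√(aT θ ε q) - 1) * aN n q * Real.cos (q.1 * ⟪q.2, x⟫_ℝ) ∂(specM d c) := by
    unfold etaE
    rw [← mul_neg]
    apply mul_le_mul_of_nonneg_left _ hμ
    have h3 : |∫ q, (√(aT θ ε q) - 1) * aN n q * Real.cos (q.1 * ⟪q.2, x⟫_ℝ) ∂(specM d c)|
        ≤ ∫ q, |√(aT θ ε q) - 1| * aN n q ∂(specM d c) := by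
      rw [← Real.norm_eq_abs]
      apply norm_integral_le_of_norm_le (integrable_eta h c n ε)
      filter_upwards with q
      have h1 : 0 ≤ aN n q := (isFilter_aN c n).nonneg q
      rw [norm_mul, norm_mul, Real.norm_eq_abs, Real.norm_eq_abs, Real.norm_eq_abs,
        abs_of_nonneg h1]
      exact mul_le_of_le_one_right (by positivity) (Real.abs_cos_le_one _)
    exact (abs_le.mp h3).1
  linarith

/-- bound of the distance between the mollified and the truncated masses -/
lemma dist_theta_le (hd : 1 ≤ d) {θ : Eu d → ℝ} (h : IsBump θ) {μ c : ℝ} (hμ : 0 ≤ μ)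
    (hμd : μ < d) (hc : 0 ≤ c) {ε : ℝ} (hε : 0 < ε) {l : Measure (Eu d)} {C : ℝ≥0}
    (hl : IsDom l C) (n : ℕ) :
    ∫ w, (cM hμ (isFilter_aT hd h hc hε) l w - cM hμ (isFilter_aN c n) l w) ^ 2 ∂NoiseP
      ≤ phiE μ c n l θ ε + Dn μ c l C n
        - 2 * (Real.exp (-etaE μ c n θ ε) * ∫ y, ∫ x, Real.exp (Kn μ c n (x - y)) ∂l ∂l)
        + ∫ y, ∫ x, Real.exp (Kn μ c n (x - y)) ∂l ∂l := by
  have := hl.finite
  rw [(cM_dist hμ (isFilter_aT hd h hc hε) (isFilter_aN c n) l).2]
  have h1 := two_point_mollified_le hd h hμ hμd hc hε hl n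
  have h2 : Real.exp (-etaE μ c n θ ε) * ∫ y, ∫ x, Real.exp (Kn μ c n (x - y)) ∂l ∂l
      ≤ ∫ y, ∫ x, Real.exp (crossK μ c (aT θ ε) (aN n) (x - y)) ∂l ∂l := by
    rw [← integral_const_mul]
    simp_rw [← integral_const_mul, ← Real.exp_add]
    have hcK := continuous_crossK μ (isFilter_aT hd h hc hε) (isFilter_aN c n)
    have hle := crossK_le hμ (isFilter_aT hd h hc hε) (isFilter_aN c n)
    set A := μ * ((∫ q, aT θ ε q ∂(specM d c)) + ∫ q, aN n q ∂(specM d c)) with hA
    have hI : Integrable (fun p : Eu d × Eu d =>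
        Real.exp (crossK μ c (aT θ ε) (aN n) (p.2 - p.1))) (l.prod l) := by
      apply Integrable.of_bound (C := Real.exp A)
      · fun_prop
      · filter_upwards with x
        rw [Real.norm_of_nonneg (Real.exp_pos _).le]
        exact Real.exp_le_exp.mpr (hle _)
    have hI2 : ∀ y, Integrable (fun x => Real.exp (crossK μ c (aT θ ε) (aN n) (x - y))) l := by
      intro y
      apply Integrable.of_bound (C := Real.exp A)
      · fun_prop
      · filter_upwards with x
        rw [Real.norm_of_nonneg (Real.exp_pos _).le]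
        exact Real.exp_le_exp.mpr (hle _)
    apply integral_mono
    · have h3 := (integrable_exp_Kn_outer μ c hμ n l).const_mul (Real.exp (-etaE μ c n θ ε))
      refine h3.congr ?_
      filter_upwards with y
      rw [← integral_const_mul]
      congr 1
      funext x
      rw [← Real.exp_add]
    · exact hI.integral_prod_left
    · intro y
      simp only
      apply integral_mono
      · have h3 := (integrable_exp_Kn μ c hμ n l y).const_mul (Real.exp (-etaE μ c n θ ε))
        refine h3.congr ?_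
        filter_upwards with x
        rw [← Real.exp_add]
      · exact hI2 y
      · intro x
        simp only
        apply Real.exp_le_exp.mpr
        have := crossK_ge hd h hμ hc n hε (x - y)
        linarith
  have h3 : ∫ y, ∫ x, Real.exp (crossK μ c (aN n) (aN n) (x - y)) ∂l ∂l
      = ∫ y, ∫ x, Real.exp (Kn μ c n (x - y)) ∂l ∂l := rfl
  rw [h3]
  linarith

lemma eventually_dist_theta_le (hd : 1 ≤ d) {θ : Eu d → ℝ} (h : IsBump θ) {μ c : ℝ} (hμ : 0 ≤ μ)
    (hμd : μ < d) (hc : 0 ≤ c) {l : Measure (Eu d)} {C : ℝ≥0}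
    (hl : IsDom l C) (n : ℕ) {δ : ℝ} (hδ : 0 < δ) :
    ∀ᶠ ε in 𝓝[>] (0:ℝ), ∀ hε : 0 < ε,
      ∫ w, (cM hμ (isFilter_aT hd h hc hε) l w - cM hμ (isFilter_aN c n) l w) ^ 2 ∂NoiseP
        ≤ Dn μ c l C n + δ := by
  have := hl.finite
  set I := ∫ y, ∫ x, Real.exp (Kn μ c n (x - y)) ∂l ∂l with hI
  have h1 : Tendsto (fun ε => phiE μ c n l θ ε + Dn μ c l C n
      - 2 * (Real.exp (-etaE μ c n θ ε) * I) + I) (𝓝 0)
      (𝓝 (I + Dn μ c l C n - 2 * (Real.exp (-0) * I) + I)) := by
    apply Tendsto.add _ tendsto_const_nhds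
    apply Tendsto.sub
    · exact (tendsto_phiE hμ n l h).add tendsto_const_nhds
    · apply Tendsto.const_mul
      apply Tendsto.mul_const
      exact (Real.continuous_exp.tendsto _).comp (tendsto_etaE h μ c n).neg
  have h2 : I + Dn μ c l C n - 2 * (Real.exp (-0) * I) + I < Dn μ c l C n + δ := by
    simp only [neg_zero, Real.exp_zero, one_mul]
    linarith
  have h3 := (h1.mono_left (nhdsWithin_le_nhds (s := Ioi (0:ℝ)))).eventually (gt_mem_nhds h2)
  filter_upwards [h3] with ε hε1 hε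
  exact (dist_theta_le hd h hμ hμd hc hε hl n).trans hε1.le

end Pool.Agent.H87.GMC
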