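import Mathlib
import Pool.Agent.H87.GMC.Defs

open MeasureTheory ProbabilityTheory Filter Topology
open scoped NNReal ENNReal

namespace Pool.Agent.H87.GMC

lemma tendsto_nat_mul_rpow_sub_one {m : ℝ} (hm : 0 < m) :
    Tendsto (fun n : ℕ => (n : ℝ) * (m ^ ((1:ℝ) / n) - 1)) atTop (𝓝 (Real.log m)) := by
  have h1 : HasDerivAt (fun t : ℝ => m ^ t) (Real.log m) 0 := by
    have h2 := (hasDerivAt_id (0:ℝ)).const_rpow hm
    simpa using h2
  have h3 := h1.tendsto_slope_zero_right
  have h4 : Tendsto (fun n : ℕ => ((n:ℝ))⁻¹) atTop (𝓝[>] 0) := by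
    apply tendsto_nhdsWithin_iff.mpr
    refine ⟨tendsto_inv_atTop_nhds_zero_nat, ?_⟩
    filter_upwards [eventually_gt_atTop 0] with n hn
    simp only [Set.mem_Ioi]
    positivity
  have h5 := h3.comp h4
  refine h5.congr ?_
  intro n
  simp [Function.comp]

/-- Infinite divisibility of a law with four finite exponential moments forces the fourth
difference of the logarithms of the exponential moments to be nonnegative. -/
theorem IsInfDiv.moments {ρ : Measure ℝ} (h : IsInfDiv ρ)
    (h4 : ∫⁻ x, ENNReal.ofReal (Real.exp (4 * x)) ∂ρ ≠ ∞) :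
    (∫ x, Real.exp (3 * x) ∂ρ) ^ 4 * (∫ x, Real.exp (1 * x) ∂ρ) ^ 4
      ≤ (∫ x, Real.exp (4 * x) ∂ρ) * (∫ x, Real.exp (2 * x) ∂ρ) ^ 6 := by
  have hρ : IsProbabilityMeasure ρ := by
    obtain ⟨Ω, _, P, Y, hP, hY, -, -, hmap⟩ := h 1 le_rfl
    rw [← hmap]
    exact Measure.isProbabilityMeasure_map
      (Finset.measurable_fun_sum _ (fun i _ => hY i)).aemeasurable
  have hint4 : Integrable (fun x => Real.exp (4 * x)) ρ := by
    refine ⟨by fun_prop, ?_⟩
    rw [hasFiniteIntegral_iff_ofReal (Eventually.of_forall fun x => (Real.exp_pos _).le)]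
    exact lt_top_iff_ne_top.mpr h4
  have hint : ∀ k : ℝ, 0 ≤ k → k ≤ 4 → Integrable (fun x => Real.exp (k * x)) ρ := by
    intro k hk hk4
    refine Integrable.mono' (hint4.add (integrable_const (1:ℝ))) (by fun_prop) ?_
    filter_upwards with x
    rw [Real.norm_of_nonneg (Real.exp_pos _).le]
    rcases le_total 0 x with hx | hx
    · have : Real.exp (k * x) ≤ Real.exp (4 * x) := Real.exp_le_exp.mpr (by nlinarith)
      simp only [Pi.add_apply]; linarith
    · have : Real.exp (k * x) ≤ 1 := Real.exp_le_one_iff.mpr (by nlinarith)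
      have h2 := Real.exp_pos (4 * x)
      simp only [Pi.add_apply]; linarith
  have hpos : ∀ k : ℝ, 0 ≤ k → k ≤ 4 → 0 < ∫ x, Real.exp (k * x) ∂ρ := by
    intro k hk hk4
    exact integral_exp_pos (hint k hk hk4)
  set m : ℝ → ℝ := fun k => ∫ x, Real.exp (k * x) ∂ρ with hm
  -- the key inequality for each n
  have key : ∀ n : ℕ, 1 ≤ n → 0 ≤ (n : ℝ) * (m 4 ^ ((1:ℝ)/n) - 1) - 4 * ((n : ℝ) * (m 3 ^ ((1:ℝ)/n) - 1))
      + 6 * ((n : ℝ) * (m 2 ^ ((1:ℝ)/n) - 1)) - 4 * ((n : ℝ) * (m 1 ^ ((1:ℝ)/n) - 1)) := by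
    intro n hn
    obtain ⟨Ω, _, P, Y, hP, hY, hind, hid, hmap⟩ := h n hn
    have hn0 : 0 < n := hn
    let i0 : Fin n := ⟨0, hn0⟩
    have hsum : Measurable (fun a => ∑ i, Y i a) := Finset.measurable_fun_sum _ (fun i _ => hY i)
    -- moments of the sum
    have hprod : ∀ k : ℝ, m k = (∫ a, Real.exp (k * Y i0 a) ∂P) ^ n := by
      intro k
      have h1 : m k = mgf (∑ i, Y i) P k := by
        simp only [hm, mgf]
        rw [← hmap, integral_map hsum.aemeasurable (by fun_prop)]
        congr 1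
        funext a
        rw [Finset.sum_apply]
      rw [h1, hind.mgf_sum (fun i => hY i)]
      have h2 : ∀ i, mgf (Y i) P k = ∫ a, Real.exp (k * Y i0 a) ∂P := by
        intro i
        have h3 := (hid i i0).comp (u := fun x => Real.exp (k * x)) (by fun_prop)
        exact h3.integral_eq
      simp [h2]
    have hmpos : ∀ k : ℝ, 0 ≤ k → k ≤ 4 → 0 < ∫ a, Real.exp (k * Y i0 a) ∂P := by
      intro k hk hk4
      have h1 := hpos k hk hk4
      have h2 : 0 ≤ ∫ a, Real.exp (k * Y i0 a) ∂P := integral_nonneg (fun a => (Real.exp_pos _).le)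
      rcases h2.lt_or_eq with h3 | h3
      · exact h3
      · exfalso
        have h4 := hprod k
        rw [← h3, zero_pow (by omega)] at h4
        have : m k = ∫ x, Real.exp (k * x) ∂ρ := rfl
        rw [← this, h4] at h1
        exact lt_irrefl _ h1
    have hInt : ∀ k : ℝ, 0 ≤ k → k ≤ 4 → Integrable (fun a => Real.exp (k * Y i0 a)) P := by
      intro k hk hk4
      by_contra hcon
      have := hmpos k hk hk4
      rw [integral_undef hcon] at this
      exact lt_irrefl _ this
    have hroot : ∀ k : ℝ, 0 ≤ k → k ≤ 4 → m k ^ ((1:ℝ)/n) = ∫ a, Real.exp (k * Y i0 a) ∂P := by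
      intro k hk hk4
      rw [hprod k, one_div]
      exact Real.pow_rpow_inv_natCast (hmpos k hk hk4).le (by omega)
    rw [hroot 4 (by norm_num) (by norm_num), hroot 3 (by norm_num) (by norm_num),
      hroot 2 (by norm_num) (by norm_num), hroot 1 (by norm_num) (by norm_num)]
    have h5 : 0 ≤ ∫ a, (Real.exp (Y i0 a) - 1) ^ 4 ∂P := integral_nonneg (fun a => by positivity)
    have h6 : ∀ a, (Real.exp (Y i0 a) - 1) ^ 4 = Real.exp (4 * Y i0 a) - 4 * Real.exp (3 * Y i0 a)
        + 6 * Real.exp (2 * Y i0 a) - 4 * Real.exp (1 * Y i0 a) + 1 := by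
      intro a
      have e4 : Real.exp (4 * Y i0 a) = Real.exp (Y i0 a) ^ 4 := by
        rw [← Real.exp_nat_mul]; norm_num
      have e3 : Real.exp (3 * Y i0 a) = Real.exp (Y i0 a) ^ 3 := by
        rw [← Real.exp_nat_mul]; norm_num
      have e2 : Real.exp (2 * Y i0 a) = Real.exp (Y i0 a) ^ 2 := by
        rw [← Real.exp_nat_mul]; norm_num
      rw [e4, e3, e2, one_mul]
      ring
    have i4 := hInt 4 (by norm_num) (by norm_num)
    have i3 := hInt 3 (by norm_num) (by norm_num)
    have i2 := hInt 2 (by norm_num) (by norm_num)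
    have i1 := hInt 1 (by norm_num) (by norm_num)
    have h7 : ∫ a, (Real.exp (Y i0 a) - 1) ^ 4 ∂P
        = (∫ a, Real.exp (4 * Y i0 a) ∂P) - 4 * (∫ a, Real.exp (3 * Y i0 a) ∂P)
          + 6 * (∫ a, Real.exp (2 * Y i0 a) ∂P) - 4 * (∫ a, Real.exp (1 * Y i0 a) ∂P) + 1 := by
      simp_rw [h6]
      rw [integral_add, integral_sub, integral_add, integral_sub]
      · simp [integral_const_mul]
      · exact i4
      · exact i3.const_mul 4
      · exact i4.sub (i3.const_mul 4)
      · exact i2.const_mul 6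
      · exact (i4.sub (i3.const_mul 4)).add (i2.const_mul 6)
      · exact i1.const_mul 4
      · exact ((i4.sub (i3.const_mul 4)).add (i2.const_mul 6)).sub (i1.const_mul 4)
      · exact integrable_const _
    rw [h7] at h5
    have hn1 : (0:ℝ) ≤ n := Nat.cast_nonneg n
    nlinarith
  have hm4 : 0 < m 4 := hpos 4 (by norm_num) (by norm_num)
  have hm3 : 0 < m 3 := hpos 3 (by norm_num) (by norm_num)
  have hm2 : 0 < m 2 := hpos 2 (by norm_num) (by norm_num)
  have hm1 : 0 < m 1 := hpos 1 (by norm_num) (by norm_num)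
  have hlim := (((tendsto_nat_mul_rpow_sub_one hm4).sub
    ((tendsto_nat_mul_rpow_sub_one hm3).const_mul 4)).add
    ((tendsto_nat_mul_rpow_sub_one hm2).const_mul 6)).sub
    ((tendsto_nat_mul_rpow_sub_one hm1).const_mul 4)
  have hge : 0 ≤ Real.log (m 4) - 4 * Real.log (m 3) + 6 * Real.log (m 2) - 4 * Real.log (m 1) := by
    apply ge_of_tendsto hlim
    filter_upwards [eventually_ge_atTop 1] with n hn
    exact key n hn
  have h8 : Real.log (m 3 ^ 4 * m 1 ^ 4) ≤ Real.log (m 4 * m 2 ^ 6) := by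
    rw [Real.log_mul (by positivity) (by positivity), Real.log_mul (by positivity) (by positivity),
      Real.log_pow, Real.log_pow, Real.log_pow]
    push_cast
    linarith
  exact (Real.log_le_log_iff (by positivity) (by positivity)).mp h8

end Pool.Agent.H87.GMC
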