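import Mathlib
import Pool.Agent.H87.GMC.Conv
import Pool.Agent.H87.GMC.Abs

open MeasureTheory ProbabilityTheory Filter Topology Set
open scoped NNReal ENNReal InnerProductSpace

namespace Pool.Agent.H87.GMC

variable {d : ℕ}

instance : IsProbabilityMeasure NoiseP := (canW_field 0 0).isProb

lemma memLp_cM {μ : ℝ} (hμ : 0 ≤ μ) {c : ℝ} {a : ℝ × Eu d → ℝ} (ha : IsFilter c a)
    (l : Measure (Eu d)) [IsFiniteMeasure l] : MemLp (cM hμ ha l) 2 NoiseP := by
  rw [memLp_two_iff_integrable_sq (measurable_cM hμ ha l).aestronglyMeasurable]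
  have h := ((canW_field d c).integral_two_map l (measurable_feat hμ ha) (measurable_feat hμ ha)
    (C := μ * ((∫ q, a q ∂(specM d c)) + ∫ q, a q ∂(specM d c))) ?_).1
  · refine h.congr ?_
    filter_upwards with w
    rw [pow_two]
    rfl
  · intro x y
    rw [inner_feat]
    exact crossK_le hμ ha ha _

/-- existence of the limiting total mass -/
lemma exists_Minf (hd : 1 ≤ d) {μ c : ℝ} (hμ : 0 ≤ μ) (hμd : μ < d) (hc : 0 ≤ c)
    {l : Measure (Eu d)} {C : ℝ≥0} (hl : IsDom l C) :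
    ∃ M : (ℕ → ℝ) → ℝ, Measurable M ∧ (∀ a, 0 ≤ M a) ∧ MemLp M 2 NoiseP ∧
      ∀ m, ∫ a, (cM hμ (isFilter_aN c m) l a - M a) ^ 2 ∂NoiseP ≤ Dn μ c l C m := by
  have := hl.finite
  apply exists_L2_limit (X := fun n => cM hμ (isFilter_aN c n) l)
  · intro n a
    exact cM_nonneg hμ _ l a
  · intro n
    exact memLp_cM hμ _ l
  · exact tendsto_Dn hd hμ hμd hc l C
  · intro n m h
    exact cM_aN_dist hd hμ hμd hc hl h

lemma sq_sub_integrable {Ω : Type*} [MeasurableSpace Ω] {P : Measure Ω} {X Y : Ω → ℝ}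
    (hX : MemLp X 2 P) (hY : MemLp Y 2 P) : Integrable (fun a => (X a - Y a) ^ 2) P :=
  (hX.sub hY).integrable_sq

/-- the mollified masses converge to the limit -/
lemma eventually_theta_Minf (hd : 1 ≤ d) {θ : Eu d → ℝ} (h : IsBump θ) {μ c : ℝ} (hμ : 0 ≤ μ)
    (hμd : μ < d) (hc : 0 ≤ c) {l : Measure (Eu d)} {C : ℝ≥0}
    (hl : IsDom l C) {M : (ℕ → ℝ) → ℝ} (hM2 : MemLp M 2 NoiseP)
    (hMD : ∀ m, ∫ a, (cM hμ (isFilter_aN c m) l a - M a) ^ 2 ∂NoiseP ≤ Dn μ c l C m)
    {δ : ℝ} (hδ : 0 < δ) :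
    ∀ᶠ ε in 𝓝[>] (0:ℝ), ∀ hε : 0 < ε,
      ∫ w, (cM hμ (isFilter_aT hd h hc hε) l w - M w) ^ 2 ∂NoiseP ≤ δ := by
  have := hl.finite
  obtain ⟨n, hn⟩ := ((tendsto_Dn hd hμ hμd hc l C).eventually
    (gt_mem_nhds (show (0:ℝ) < δ / 8 by positivity))).exists
  filter_upwards [eventually_dist_theta_le hd h hμ hμd hc hl n (show 0 < δ / 8 by positivity)]
    with ε hε1 hε
  have h1 := hε1 hε
  have h2 := hMD n
  have i1 := sq_sub_integrable (memLp_cM hμ (isFilter_aT hd h hc hε) l)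
    (memLp_cM hμ (isFilter_aN c n) l)
  have i2 := sq_sub_integrable (memLp_cM hμ (isFilter_aN c n) l) hM2
  calc ∫ w, (cM hμ (isFilter_aT hd h hc hε) l w - M w) ^ 2 ∂NoiseP
      ≤ ∫ w, (2 * (cM hμ (isFilter_aT hd h hc hε) l w - cM hμ (isFilter_aN c n) l w) ^ 2
        + 2 * (cM hμ (isFilter_aN c n) l w - M w) ^ 2) ∂NoiseP := by
        apply integral_mono
        · exact sq_sub_integrable (memLp_cM hμ (isFilter_aT hd h hc hε) l) hM2
        · exact (i1.const_mul 2).add (i2.const_mul 2)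
        · intro w
          simp only
          nlinarith [sq_nonneg ((cM hμ (isFilter_aT hd h hc hε) l w
            - cM hμ (isFilter_aN c n) l w) - (cM hμ (isFilter_aN c n) l w - M w))]
    _ = 2 * (∫ w, (cM hμ (isFilter_aT hd h hc hε) l w - cM hμ (isFilter_aN c n) l w) ^ 2 ∂NoiseP)
        + 2 * ∫ w, (cM hμ (isFilter_aN c n) l w - M w) ^ 2 ∂NoiseP := by
        rw [integral_add (i1.const_mul 2) (i2.const_mul 2), integral_const_mul,
          integral_const_mul]
    _ ≤ δ := by linarith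

/-- The canonical mollified masses, with a junk value for nonpositive scales. -/
noncomputable def cY (hd : 1 ≤ d) {θ : Eu d → ℝ} (h : IsBump θ) {μ c : ℝ} (hμ : 0 ≤ μ)
    (hc : 0 ≤ c) (l : Measure (Eu d)) (M : (ℕ → ℝ) → ℝ) (ε : ℝ) : (ℕ → ℝ) → ℝ :=
  if hε : 0 < ε then cM hμ (isFilter_aT hd h hc hε) l else M

lemma cY_tendsto (hd : 1 ≤ d) {θ : Eu d → ℝ} (h : IsBump θ) {μ c : ℝ} (hμ : 0 ≤ μ)
    (hμd : μ < d) (hc : 0 ≤ c) {l : Measure (Eu d)} {C : ℝ≥0}
    (hl : IsDom l C) {M : (ℕ → ℝ) → ℝ} (hM : Measurable M) (hM2 : MemLp M 2 NoiseP)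
    (hMD : ∀ m, ∫ a, (cM hμ (isFilter_aN c m) l a - M a) ^ 2 ∂NoiseP ≤ Dn μ c l C m)
    (F : BoundedContinuousFunction ℝ ℝ) :
    Tendsto (fun ε => ∫ a, F (cY hd h hμ hc l M ε a) ∂NoiseP) (𝓝[>] (0:ℝ))
      (𝓝 (∫ a, F (M a) ∂NoiseP)) := by
  have := hl.finite
  have hYL : ∀ ε, MemLp (cY hd h hμ hc l M ε) 2 NoiseP := by
    intro ε
    unfold cY
    split_ifs with hε
    · exact memLp_cM hμ _ l
    · exact hM2
  have hYm : ∀ ε, Measurable (cY hd h hμ hc l M ε) := by
    intro ε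
    unfold cY
    split_ifs with hε
    · exact measurable_cM hμ _ l
    · exact hM
  apply tendsto_integral_of_measure _ hYm hM
  apply tendstoInMeasure_of_sq
  · intro ε
    exact sq_sub_integrable (hYL ε) hM2
  · intro δ hδ
    filter_upwards [eventually_theta_Minf hd h hμ hμd hc hl hM2 hMD hδ, self_mem_nhdsWithin]
      with ε h1 h2
    have h3 : (0:ℝ) < ε := h2
    unfold cY
    rw [dif_pos h3]
    exact h1 h3

lemma IsField.isGField {Ω : Type*} [MeasurableSpace Ω] {P : Measure Ω} {ω : Eu d → Ω → ℝ}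
    {K : Eu d → ℝ} (h : IsField P ω K) : IsGField P ω (fun x y => K (x - y)) where
  gaussian := h.gaussian
  measurable := h.measurable
  cov := h.cov
  mean := by
    intro x
    rw [h.mean x, ← h.cov x x, covariance_self]
    exact (h.measurable.comp (measurable_const.prodMk measurable_id)).aemeasurable

lemma IsGField.isField {Ω : Type*} [MeasurableSpace Ω] {P : Measure Ω} {ω : Eu d → Ω → ℝ}
    {K : Eu d → ℝ} (h : IsGField P ω (fun x y => K (x - y))) : IsField P ω K where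
  gaussian := h.gaussian
  measurable := h.measurable
  cov := h.cov
  mean := by
    intro x
    rw [h.mean x, ← h.cov x x, covariance_self (h.meas x).aemeasurable]

/-- The limit law is the law of the total mass. -/
lemma isTotalMassLaw_map (hd : 1 ≤ d) {μ c : ℝ} (hμ : 0 ≤ μ)
    (hμd : μ < d) (hc : 0 ≤ c) {l : Measure (Eu d)} {C : ℝ≥0}
    (hl : IsDom l C) {M : (ℕ → ℝ) → ℝ} (hM : Measurable M) (hM2 : MemLp M 2 NoiseP)
    (hMD : ∀ m, ∫ a, (cM hμ (isFilter_aN c m) l a - M a) ^ 2 ∂NoiseP ≤ Dn μ c l C m)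
    {D : Set (Eu d)} {φ : Eu d → ℝ}
    (hDφ : ∀ f : Eu d → ℝ, Measurable f → ∫ x in D, φ x * f x = ∫ x, f x ∂l) :
    IsTotalMassLaw (gker c) μ D φ (NoiseP.map M) where
  isProbabilityMeasure := Measure.isProbabilityMeasure_map hM.aemeasurable
  exists_field := by
    intro θ hθ ε hε
    refine ⟨ℕ → ℝ, inferInstance, NoiseP, canF hμ (isFilter_aT hd hθ hc hε), inferInstance, ?_⟩
    apply IsGField.isField
    have h1 := canF_field hμ (isFilter_aT hd hθ hc hε)
    simp_rw [crossK_aT hd hθ hc hε] at h1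
    exact h1
  tendsto := by
    intro θ hθ Ω _ P ω hω F
    have := hl.finite
    rw [integral_map hM.aemeasurable F.continuous.aestronglyMeasurable]
    refine (cY_tendsto hd hθ hμ hμd hc hl hM hM2 hMD F).congr' ?_
    filter_upwards [self_mem_nhdsWithin] with ε hε'
    have hε : (0:ℝ) < ε := hε'
    have h2 := (hω ε hε).isGField
    have h1 := canF_field hμ (isFilter_aT hd hθ hc hε)
    simp_rw [crossK_aT hd hθ hc hε] at h1
    have h3 := h1.integral_gmass_eq h2 l F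
    unfold cY
    rw [dif_pos hε]
    unfold cM
    rw [h3]
    congr 1
    funext a
    congr 1
    unfold mass gmass
    exact (hDφ _ (Real.measurable_exp.comp (h2.meas_left a))).symm

end Pool.Agent.H87.GMC
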