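import Mathlib
import Pool.Agent.H87.GMC.Asym
import Pool.Agent.H87.GMC.MInf

open MeasureTheory ProbabilityTheory Filter Topology Set
open scoped NNReal ENNReal InnerProductSpace

namespace Pool.Agent.H87.GMC

variable {d : ℕ}

/-- `e^t - 1` as an extended nonnegative number. -/
noncomputable def em1 (t : ℝ) : ℝ≥0∞ := ENNReal.ofReal (Real.exp t - 1)

lemma measurable_em1 : Measurable em1 := by unfold em1; fun_prop

lemma em1_mono {s t : ℝ} (h : s ≤ t) : em1 s ≤ em1 t :=
  ENNReal.ofReal_le_ofReal (by have := Real.exp_le_exp.mpr h; linarith)

lemma eexp_split {a b B : ℝ} (ha : a ≤ B) (hb : 0 ≤ b) : eexp (a + b) ≤ eexp a + eexp B * em1 b := by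
  have h1 : 0 ≤ Real.exp b - 1 := by
    have := Real.one_le_exp hb
    linarith
  unfold eexp em1
  rw [← ENNReal.ofReal_mul (Real.exp_pos _).le, ← ENNReal.ofReal_add (Real.exp_pos _).le
    (mul_nonneg (Real.exp_pos _).le h1)]
  apply ENNReal.ofReal_le_ofReal
  rw [Real.exp_add]
  have h2 := mul_le_mul_of_nonneg_right (Real.exp_le_exp.mpr ha) h1
  nlinarith

lemma em1_six (a₁ a₂ a₃ a₄ a₅ a₆ : ℝ) : em1 (a₁ + a₂ + a₃ + a₄ + a₅ + a₆)
      ≤ em1 (6 * a₁) + em1 (6 * a₂) + em1 (6 * a₃) + em1 (6 * a₄) + em1 (6 * a₅) + em1 (6 * a₆) := by
  set m := max (max (max (max (max a₁ a₂) a₃) a₄) a₅) a₆ with hm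
  have e1 : a₁ ≤ m := by simp [hm]
  have e2 : a₂ ≤ m := by simp [hm]
  have e3 : a₃ ≤ m := by simp [hm]
  have e4 : a₄ ≤ m := by simp [hm]
  have e5 : a₅ ≤ m := by simp [hm]
  have e6 : a₆ ≤ m := by simp [hm]
  have key : em1 (a₁ + a₂ + a₃ + a₄ + a₅ + a₆) ≤ em1 (6 * m) := em1_mono (by linarith)
  refine key.trans ?_
  have hcases : m = a₁ ∨ m = a₂ ∨ m = a₃ ∨ m = a₄ ∨ m = a₅ ∨ m = a₆ := by
    rw [hm]
    rcases max_choice (max (max (max (max a₁ a₂) a₃) a₄) a₅) a₆ with h | h <;> rw [h]
    · rcases max_choice (max (max (max a₁ a₂) a₃) a₄) a₅ with h | h <;> rw [h]
      · rcases max_choice (max (max a₁ a₂) a₃) a₄ with h | h <;> rw [h]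
        · rcases max_choice (max a₁ a₂) a₃ with h | h <;> rw [h]
          · rcases max_choice a₁ a₂ with h | h <;> rw [h] <;> simp
          · simp
        · simp
      · simp
    · simp
  rcases hcases with h | h | h | h | h | h <;> rw [h]
  · exact le_add_right (le_add_right (le_add_right (le_add_right le_self_add)))
  · exact le_add_right (le_add_right (le_add_right (le_add_right le_add_self)))
  · exact le_add_right (le_add_right (le_add_right le_add_self))
  · exact le_add_right (le_add_right le_add_self)
  · exact le_add_right le_add_self
  · exact le_add_self

section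

variable {l : Measure (Eu d)}

lemma L2i_split [IsFiniteMeasure l] {f g : Eu d → ℝ} {B : ℝ} (hf : ∀ x, f x ≤ B)
    (hg : ∀ x, 0 ≤ g x) (hgm : Measurable g) {J : ℝ≥0∞}
    (hJ : ∀ y, ∫⁻ x, em1 (g (x - y)) ∂l ≤ J) :
    L2i l (fun x => f x + g x) ≤ L2i l f + eexp B * J * l univ := by
  unfold L2i
  calc ∫⁻ y, ∫⁻ x, eexp (f (x - y) + g (x - y)) ∂l ∂l
      ≤ ∫⁻ y, ((∫⁻ x, eexp (f (x - y)) ∂l) + eexp B * J) ∂l := by
        apply lintegral_mono
        intro y
        simp only
        calc ∫⁻ x, eexp (f (x - y) + g (x - y)) ∂l
            ≤ ∫⁻ x, (eexp (f (x - y)) + eexp B * em1 (g (x - y))) ∂l := by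
              apply lintegral_mono
              intro x
              exact eexp_split (hf _) (hg _)
          _ = (∫⁻ x, eexp (f (x - y)) ∂l) + eexp B * ∫⁻ x, em1 (g (x - y)) ∂l := by
              have hm := measurable_em1
              rw [lintegral_add_right _ (by fun_prop), lintegral_const_mul' _ _ (eexp_ne_top _)]
          _ ≤ _ := by
              gcongr
              exact hJ y
    _ = _ := by
        rw [lintegral_add_right _ measurable_const, lintegral_const]

lemma L4i_split [IsFiniteMeasure l] {f g : Eu d → ℝ} {B : ℝ} (hf : ∀ x, f x ≤ B)
    (hg : ∀ x, 0 ≤ g x) (hgm : Measurable g) {J : ℝ≥0∞}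
    (hJ : ∀ y, ∫⁻ x, em1 (6 * g (x - y)) ∂l ≤ J) :
    L4i l (fun x => f x + g x) ≤ L4i l f + eexp (6 * B) * (6 * J * l univ ^ 3) := by
  unfold L4i
  have hm := measurable_em1
  set Λ := l univ with hΛ
  set e := eexp (6 * B) with he
  have het : e ≠ ∞ := eexp_ne_top _
  have hsm : ∀ y, Measurable (fun x => em1 (6 * g (x - y))) := fun y => by fun_prop
  calc ∫⁻ w, ∫⁻ z, ∫⁻ y, ∫⁻ x, eexp ((f (x - y) + g (x - y)) + (f (x - z) + g (x - z))
        + (f (x - w) + g (x - w)) + (f (y - z) + g (y - z)) + (f (y - w) + g (y - w))
        + (f (z - w) + g (z - w))) ∂l ∂l ∂l ∂l
      ≤ ∫⁻ w, ((∫⁻ z, ∫⁻ y, ∫⁻ x, eexp (f (x - y) + f (x - z) + f (x - w)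
          + f (y - z) + f (y - w) + f (z - w)) ∂l ∂l ∂l) + e * (6 * J * Λ ^ 2)) ∂l := by
        apply lintegral_mono
        intro w
        simp only
        calc ∫⁻ z, ∫⁻ y, ∫⁻ x, eexp ((f (x - y) + g (x - y)) + (f (x - z) + g (x - z))
              + (f (x - w) + g (x - w)) + (f (y - z) + g (y - z)) + (f (y - w) + g (y - w))
              + (f (z - w) + g (z - w))) ∂l ∂l ∂l
            ≤ ∫⁻ z, ((∫⁻ y, ∫⁻ x, eexp (f (x - y) + f (x - z) + f (x - w)
                + f (y - z) + f (y - w) + f (z - w)) ∂l ∂l)
                + (e * (5 * J * Λ) + e * (Λ ^ 2 * em1 (6 * g (z - w))))) ∂l := by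
              apply lintegral_mono
              intro z
              simp only
              calc ∫⁻ y, ∫⁻ x, eexp ((f (x - y) + g (x - y)) + (f (x - z) + g (x - z))
                    + (f (x - w) + g (x - w)) + (f (y - z) + g (y - z)) + (f (y - w) + g (y - w))
                    + (f (z - w) + g (z - w))) ∂l ∂l
                  ≤ ∫⁻ y, ((∫⁻ x, eexp (f (x - y) + f (x - z) + f (x - w)
                      + f (y - z) + f (y - w) + f (z - w)) ∂l)
                      + (e * (3 * J) + e * (Λ * (em1 (6 * g (y - z)) + em1 (6 * g (y - w))
                        + em1 (6 * g (z - w)))))) ∂l := by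
                    apply lintegral_mono
                    intro y
                    simp only
                    calc ∫⁻ x, eexp ((f (x - y) + g (x - y)) + (f (x - z) + g (x - z))
                          + (f (x - w) + g (x - w)) + (f (y - z) + g (y - z))
                          + (f (y - w) + g (y - w)) + (f (z - w) + g (z - w))) ∂l
                        ≤ ∫⁻ x, (eexp (f (x - y) + f (x - z) + f (x - w)
                          + f (y - z) + f (y - w) + f (z - w))
                          + e * (em1 (6 * g (x - y)) + em1 (6 * g (x - z)) + em1 (6 * g (x - w))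
                            + em1 (6 * g (y - z)) + em1 (6 * g (y - w)) + em1 (6 * g (z - w))))
                          ∂l := by
                          apply lintegral_mono
                          intro x
                          simp only
                          have h1 : (f (x - y) + g (x - y)) + (f (x - z) + g (x - z))
                            + (f (x - w) + g (x - w)) + (f (y - z) + g (y - z))
                            + (f (y - w) + g (y - w)) + (f (z - w) + g (z - w))
                            = (f (x - y) + f (x - z) + f (x - w)
                              + f (y - z) + f (y - w) + f (z - w))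
                              + (g (x - y) + g (x - z) + g (x - w)
                              + g (y - z) + g (y - w) + g (z - w)) := by ring
                          rw [h1]
                          refine (eexp_split (B := 6 * B) ?_ ?_).trans ?_
                          · have := hf (x - y)
                            have := hf (x - z)
                            have := hf (x - w)
                            have := hf (y - z)
                            have := hf (y - w)
                            have := hf (z - w)
                            linarith
                          · have := hg (x - y)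
                            have := hg (x - z)
                            have := hg (x - w)
                            have := hg (y - z)
                            have := hg (y - w)
                            have := hg (z - w)
                            linarith
                          · gcongr
                            exact em1_six _ _ _ _ _ _
                      _ = (∫⁻ x, eexp (f (x - y) + f (x - z) + f (x - w)
                          + f (y - z) + f (y - w) + f (z - w)) ∂l)
                          + e * ((∫⁻ x, em1 (6 * g (x - y)) ∂l) + (∫⁻ x, em1 (6 * g (x - z)) ∂l)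
                            + (∫⁻ x, em1 (6 * g (x - w)) ∂l)
                            + em1 (6 * g (y - z)) * Λ + em1 (6 * g (y - w)) * Λ
                            + em1 (6 * g (z - w)) * Λ) := by
                          have hm2 : Measurable (fun x => e * (em1 (6 * g (x - y))
                            + em1 (6 * g (x - z)) + em1 (6 * g (x - w))
                            + em1 (6 * g (y - z)) + em1 (6 * g (y - w)) + em1 (6 * g (z - w)))) := by
                            fun_prop
                          rw [lintegral_add_right _ hm2, lintegral_const_mul' _ _ het,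
                            lintegral_add_right _ measurable_const,
                            lintegral_add_right _ measurable_const,
                            lintegral_add_right _ measurable_const,
                            lintegral_add_right _ (hsm w), lintegral_add_right _ (hsm z),
                            lintegral_const, lintegral_const, lintegral_const]
                      _ ≤ (∫⁻ x, eexp (f (x - y) + f (x - z) + f (x - w)
                          + f (y - z) + f (y - w) + f (z - w)) ∂l)
                          + e * (J + J + J
                            + em1 (6 * g (y - z)) * Λ + em1 (6 * g (y - w)) * Λ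
                            + em1 (6 * g (z - w)) * Λ) := by
                          gcongr
                          · exact hJ y
                          · exact hJ z
                          · exact hJ w
                      _ = _ := by ring
                _ = (∫⁻ y, ∫⁻ x, eexp (f (x - y) + f (x - z) + f (x - w)
                      + f (y - z) + f (y - w) + f (z - w)) ∂l ∂l)
                    + (e * (3 * J) * Λ + e * (Λ * ((∫⁻ y, em1 (6 * g (y - z)) ∂l)
                      + (∫⁻ y, em1 (6 * g (y - w)) ∂l) + em1 (6 * g (z - w)) * Λ))) := by
                    have hm2 : Measurable (fun y => e * (Λ * (em1 (6 * g (y - z))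
                      + em1 (6 * g (y - w)) + em1 (6 * g (z - w))))) := by fun_prop
                    have hm3 : Measurable (fun y => e * (3 * J) + e * (Λ * (em1 (6 * g (y - z))
                      + em1 (6 * g (y - w)) + em1 (6 * g (z - w))))) := by fun_prop
                    rw [lintegral_add_right _ hm3, lintegral_add_right _ hm2, lintegral_const,
                      lintegral_const_mul' _ _ het, lintegral_const_mul' _ _ (measure_ne_top _ _),
                      lintegral_add_right _ measurable_const, lintegral_add_right _ (hsm w),
                      lintegral_const]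
                _ ≤ (∫⁻ y, ∫⁻ x, eexp (f (x - y) + f (x - z) + f (x - w)
                      + f (y - z) + f (y - w) + f (z - w)) ∂l ∂l)
                    + (e * (3 * J) * Λ + e * (Λ * (J + J + em1 (6 * g (z - w)) * Λ))) := by
                    gcongr
                    · exact hJ z
                    · exact hJ w
                _ = _ := by ring
          _ = (∫⁻ z, ∫⁻ y, ∫⁻ x, eexp (f (x - y) + f (x - z) + f (x - w)
                + f (y - z) + f (y - w) + f (z - w)) ∂l ∂l ∂l)
                + (e * (5 * J * Λ) * Λ + e * (Λ ^ 2 * ∫⁻ z, em1 (6 * g (z - w)) ∂l)) := by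
              have hm2 : Measurable (fun z => e * (Λ ^ 2 * em1 (6 * g (z - w)))) := by fun_prop
              have hm3 : Measurable (fun z => e * (5 * J * Λ) + e * (Λ ^ 2 * em1 (6 * g (z - w)))) := by
                fun_prop
              rw [lintegral_add_right _ hm3, lintegral_add_right _ hm2, lintegral_const,
                lintegral_const_mul' _ _ het,
                lintegral_const_mul' _ _ (ENNReal.pow_ne_top (measure_ne_top _ _))]
          _ ≤ (∫⁻ z, ∫⁻ y, ∫⁻ x, eexp (f (x - y) + f (x - z) + f (x - w)
                + f (y - z) + f (y - w) + f (z - w)) ∂l ∂l ∂l)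
                + (e * (5 * J * Λ) * Λ + e * (Λ ^ 2 * J)) := by
              gcongr
              exact hJ w
          _ = _ := by ring
    _ = _ := by
        rw [lintegral_add_right _ measurable_const, lintegral_const]
        ring

lemma L3i_mono {f g : Eu d → ℝ} (h : ∀ x, f x ≤ g x) : L3i l f ≤ L3i l g := by
  unfold L3i
  apply lintegral_mono
  intro z
  apply lintegral_mono
  intro y
  apply lintegral_mono
  intro x
  apply eexp_mono
  have := h (x - y)
  have := h (x - z)
  have := h (y - z)
  linarith

end

end Pool.Agent.H87.GMC
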