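import Mathlib
import Pool.Agent.H87.GMC.Moments

open MeasureTheory ProbabilityTheory Filter Topology Set
open scoped NNReal ENNReal InnerProductSpace

namespace Pool.Agent.H87.GMC

variable {d : ℕ}

lemma Kn_split {μ c : ℝ} (hc : 0 ≤ c) {n : ℕ} (hn : 1 ≤ n) (x : Eu d) :
    Kn μ c n x = μ * c * gk 1 x + μ * Kn 1 0 n x := by
  rw [Kn_eq, Kn_eq]
  have h1 : scaleM c = scaleM 0 + ENNReal.ofReal c • Measure.dirac 1 := by
    unfold scaleM
    simp
  have h2 : ∫ u in Iic (n:ℝ), gk u x ∂(scaleM c)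
      = (∫ u in Iic (n:ℝ), gk u x ∂(scaleM 0)) + c * gk 1 x := by
    rw [h1, Measure.restrict_add, integral_add_measure]
    · congr 1
      rw [Measure.restrict_smul, integral_smul_measure, ENNReal.toReal_ofReal hc,
        restrict_dirac, if_pos, integral_dirac]
      · rfl
      · simp only [mem_Iic]
        exact_mod_cast hn
    · exact integrableOn_gk 0 n x
    · have h3 := integrableOn_gk c n x
      rw [h1] at h3
      unfold IntegrableOn at h3
      rw [Measure.restrict_add] at h3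
      exact h3.right_of_add_measure
  rw [h2]
  ring

/-- the error constant -/
noncomputable def Jb (d : ℕ) (C : ℝ≥0) (t : ℝ) : ℝ≥0∞ :=
  (C : ℝ≥0∞) * ∫⁻ x : Eu d, em1 (t * G0 ‖x‖)

lemma measurable_em1_G0 (t : ℝ) : Measurable (fun x : Eu d => em1 (t * G0 ‖x‖)) := by
  have := measurable_G0
  have := measurable_em1
  fun_prop

lemma shift_le_Jb (hd : 1 ≤ d) {l : Measure (Eu d)} {C : ℝ≥0} (hl : l ≤ (C : ℝ≥0∞) • volume)
    {t : ℝ} (ht : 0 ≤ t) (n : ℕ) (y : Eu d) :
    ∫⁻ x, em1 (t * Kn 1 0 n (x - y)) ∂l ≤ Jb d C t := by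
  calc ∫⁻ x, em1 (t * Kn 1 0 n (x - y)) ∂l
      ≤ ∫⁻ x, em1 (t * Kn 1 0 n (x - y)) ∂((C : ℝ≥0∞) • volume) := lintegral_mono' hl le_rfl
    _ = C * ∫⁻ x, em1 (t * Kn 1 0 n (x - y)) := by rw [lintegral_smul_measure, smul_eq_mul]
    _ = C * ∫⁻ x : Eu d, em1 (t * Kn 1 0 n x) := by
        rw [lintegral_sub_right_eq_self (fun x : Eu d => em1 (t * Kn 1 0 n x)) y]
    _ ≤ Jb d C t := by
        unfold Jb
        apply mul_le_mul_right
        apply lintegral_mono_ae
        filter_upwards [ae_ne_zero hd] with x hx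
        apply em1_mono
        apply mul_le_mul_of_nonneg_left _ ht
        have h1 := Kn_le (d := d) zero_le_one le_rfl n hx
        unfold gker at h1
        linarith

lemma tendsto_Jb (hd : 1 ≤ d) (C : ℝ≥0) : Tendsto (Jb d C) (𝓝[>] 0) (𝓝 0) := by
  unfold Jb
  have h1 : Tendsto (fun t : ℝ => ∫⁻ x : Eu d, em1 (t * G0 ‖x‖)) (𝓝[>] 0)
      (𝓝 (∫⁻ x : Eu d, 0)) := by
    apply tendsto_lintegral_filter_of_dominated_convergence (fun x => em1 ((d / 2 : ℝ) * G0 ‖x‖))
    · filter_upwards with t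
      exact measurable_em1_G0 t
    · have h2 : Iic (d / 2 : ℝ) ∈ 𝓝 (0:ℝ) := by
        apply Iic_mem_nhds
        have : (0:ℝ) < d := by exact_mod_cast hd
        linarith
      filter_upwards [mem_nhdsWithin_of_mem_nhds h2] with t ht
      filter_upwards with x
      apply em1_mono
      exact mul_le_mul_of_nonneg_right ht (G0_nonneg _)
    · have hd' : (1:ℝ) ≤ d := by exact_mod_cast hd
      have h3 := integrable_exp_G0_sub_one hd (t := (d / 2 : ℝ)) (by positivity) (by linarith)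
      have h4 := h3.lintegral_lt_top
      exact h4.ne
    · filter_upwards with x
      have h5 : Continuous (fun t : ℝ => em1 (t * G0 ‖x‖)) := by
        unfold em1
        exact ENNReal.continuous_ofReal.comp (by fun_prop)
      have h6 := h5.tendsto 0
      have h7 : em1 (0 * G0 ‖x‖) = 0 := by unfold em1; simp
      rw [h7] at h6
      exact h6.mono_left nhdsWithin_le_nhds
  rw [lintegral_zero] at h1
  have h2 := ENNReal.Tendsto.const_mul (a := (C : ℝ≥0∞)) h1 (Or.inr ENNReal.coe_ne_top)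
  rw [mul_zero] at h2
  exact h2

end Pool.Agent.H87.GMC
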