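import Mathlib
import Pool.Agent.H87.GMC.Split

open MeasureTheory ProbabilityTheory Filter Topology Set
open scoped NNReal ENNReal InnerProductSpace

namespace Pool.Agent.H87.GMC

variable {d : ℕ}

section general

variable {Ω : Type*} [MeasurableSpace Ω] {P : Measure Ω} {ω : Eu d → Ω → ℝ} {f : Eu d → ℝ}
  {l : Measure (Eu d)}

lemma IsGField.L2i_eq [SFinite l] (h : IsGField P ω (fun x y => f (x - y))) :
    ∫⁻ a, lmass l ω a ^ 2 ∂P = L2i l f := by
  simp_rw [pow_two]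
  rw [h.lintegral_two l l]
  rfl

lemma IsGField.L3i_eq [SFinite l] (h : IsGField P ω (fun x y => f (x - y))) :
    ∫⁻ a, lmass l ω a ^ 3 ∂P = L3i l f := by
  rw [h.lintegral_three l]
  rfl

lemma IsGField.L4i_eq [SFinite l] (h : IsGField P ω (fun x y => f (x - y))) :
    ∫⁻ a, lmass l ω a ^ 4 ∂P = L4i l f := by
  rw [h.lintegral_four l]
  rfl

lemma IsGField.gmass_pow [IsFiniteMeasure l] (h : IsGField P ω (fun x y => f (x - y))) {k : ℕ}
    (hk : ∫⁻ a, lmass l ω a ^ k ∂P ≠ ∞) :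
    Integrable (fun a => gmass l ω a ^ k) P ∧
      ∫ a, gmass l ω a ^ k ∂P = (∫⁻ a, lmass l ω a ^ k ∂P).toReal := by
  have h1 : (fun a => gmass l ω a ^ k) = fun a => (lmass l ω a ^ k).toReal := by
    funext a
    rw [h.gmass_eq, ENNReal.toReal_pow]
  have hm : Measurable (fun a => lmass l ω a ^ k) := (h.measurable_lmass l).pow_const k
  rw [h1]
  exact ⟨integrable_toReal_of_lintegral_ne_top hm.aemeasurable hk,
    integral_toReal hm.aemeasurable (ae_lt_top hm hk)⟩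

/-- lower moments are finite if the fourth one is -/
lemma lower_ne_top [IsProbabilityMeasure P] {Z : Ω → ℝ≥0∞} (hZ : ∫⁻ a, Z a ^ 4 ∂P ≠ ∞) {k : ℕ}
    (hk : k ≤ 4) : ∫⁻ a, Z a ^ k ∂P ≠ ∞ := by
  have h1 : ∫⁻ a, Z a ^ k ∂P ≤ ∫⁻ a, (1 + Z a ^ 4) ∂P := by
    apply lintegral_mono
    intro a
    simp only
    rcases le_total (Z a) 1 with h | h
    · exact (pow_le_one' h k).trans le_self_add
    · exact (pow_le_pow_right₀ h hk).trans le_add_self
  rw [lintegral_add_left measurable_const] at h1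
  refine ne_top_of_le_ne_top ?_ h1
  simp [hZ]

end general

/-- upper bound of the second moment -/
noncomputable def B2 (l : Measure (Eu d)) (C : ℝ≥0) (β μ : ℝ) : ℝ≥0∞ :=
  L2i l (fun x => β * gk 1 x) + eexp β * Jb d C μ * l univ

/-- upper bound of the fourth moment -/
noncomputable def B4 (l : Measure (Eu d)) (C : ℝ≥0) (β μ : ℝ) : ℝ≥0∞ :=
  L4i l (fun x => β * gk 1 x) + eexp (6 * β) * (6 * Jb d C (6 * μ) * l univ ^ 3)

/-- the split covariance function -/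
noncomputable def fK (β μ : ℝ) (n : ℕ) (z : Eu d) : ℝ := β * gk 1 z + μ * Kn 1 0 (n + 1) z

lemma limit_bounds (hd : 1 ≤ d) {μ β : ℝ} (hμ : 0 < μ) (hβ : 0 < β)
    {l : Measure (Eu d)} {C : ℝ≥0} (hl : IsDom l C)
    (hB4 : B4 l C β μ ≠ ∞) (hB2 : B2 l C β μ ≠ ∞)
    {M : (ℕ → ℝ) → ℝ} (hM : Measurable M) (hM0 : ∀ a, 0 ≤ M a) (hM2 : MemLp M 2 NoiseP)
    (hμd : μ < d)
    (hMD : ∀ m, ∫ a, (cM hμ.le (isFilter_aN (β / μ) m) l a - M a) ^ 2 ∂NoiseP
      ≤ Dn μ (β / μ) l C m) :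
    Integrable (fun a => M a ^ 4) NoiseP ∧ ∫ a, M a ^ 4 ∂NoiseP ≤ (B4 l C β μ).toReal ∧
      ∫ a, M a ^ 2 ∂NoiseP ≤ (B2 l C β μ).toReal ∧
      (L3i l (fun x => β * gk 1 x)).toReal ≤ ∫ a, M a ^ 3 ∂NoiseP ∧
      ∫ a, M a ∂NoiseP = (l univ).toReal := by
  have := hl.finite
  have hc : 0 ≤ β / μ := by positivity
  have hsplit : ∀ n (x : Eu d), Kn μ (β / μ) (n + 1) x = β * gk 1 x + μ * Kn 1 0 (n + 1) x := by
    intro n x
    rw [Kn_split hc (by omega) x]
    congr 2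
    field_simp
  have hfield : ∀ n, IsGField NoiseP (canF hμ.le (isFilter_aN (β / μ) (n + 1)))
      (fun x y : Eu d => fK β μ n (x - y)) := by
    intro n
    have h1 := canF_field (d := d) hμ.le (isFilter_aN (β / μ) (n + 1))
    have h2 : (fun x y : Eu d => crossK μ (β / μ) (aN (n + 1)) (aN (n + 1)) (x - y))
        = (fun x y : Eu d => fK β μ n (x - y)) := by
      funext x y
      exact hsplit n (x - y)
    rw [h2] at h1
    exact h1
  have hgk : ∀ x : Eu d, β * gk 1 x ≤ β := fun x => mul_le_of_le_one_right hβ.le (gk_le_one 1 x)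
  have hG0 : ∀ n (x : Eu d), 0 ≤ μ * Kn 1 0 (n + 1) x := fun n x =>
    mul_nonneg hμ.le (Kn_nonneg zero_le_one 0 _ x)
  have hGm : ∀ n, Measurable (fun x : Eu d => μ * Kn 1 0 (n + 1) x) := by
    intro n
    have := (continuous_Kn (d := d) 1 0 (n + 1)).measurable
    fun_prop
  have hb2 : ∀ n, L2i l (fK β μ n) ≤ B2 l C β μ := by
    intro n
    exact L2i_split (B := β) hgk (hG0 n) (hGm n) (fun y => shift_le_Jb hd hl.le hμ.le (n + 1) y)
  have hb4 : ∀ n, L4i l (fK β μ n) ≤ B4 l C β μ := by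
    intro n
    apply L4i_split (B := β) hgk (hG0 n) (hGm n)
    intro y
    have h1 := shift_le_Jb hd hl.le (show 0 ≤ 6 * μ by positivity) (n + 1) y
    simp_rw [← mul_assoc]
    exact h1
  have hb3 : ∀ n, L3i l (fun x => β * gk 1 x)
      ≤ L3i l (fK β μ n) := by
    intro n
    apply L3i_mono
    intro x
    have := hG0 n x
    unfold fK
    linarith
  have ne4 : ∀ n, ∫⁻ a, lmass l (canF hμ.le (isFilter_aN (β / μ) (n + 1))) a ^ 4 ∂NoiseP ≠ ∞ := by
    intro n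
    rw [(hfield n).L4i_eq]
    exact ne_top_of_le_ne_top hB4 (hb4 n)
  have hD := tendsto_Dn hd hμ.le hμd hc l C
  have hev : ∀ δ > 0, ∀ᶠ i in atTop,
      ∫ a, (cM hμ.le (isFilter_aN (β / μ) (i + 1)) l a - M a) ^ 2 ∂NoiseP ≤ δ := by
    intro δ hδ
    have h1 := (hD.comp (tendsto_add_atTop_nat 1)).eventually (gt_mem_nhds hδ)
    filter_upwards [h1] with i hi
    exact (hMD (i + 1)).trans hi.le
  apply limit_moments (X := fun n => cM hμ.le (isFilter_aN (β / μ) (n + 1)) l)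
  · intro n a
    exact cM_nonneg hμ.le _ l a
  · exact hM0
  · intro n
    exact measurable_cM hμ.le _ l
  · exact hM
  · intro n
    exact sq_sub_integrable (memLp_cM hμ.le _ l) hM2
  · exact hev
  · intro n
    exact ((hfield n).gmass_pow (ne4 n)).1
  · intro n
    have h1 := ((hfield n).gmass_pow (ne4 n)).2
    rw [(hfield n).L4i_eq] at h1
    change ∫ a, gmass l (canF hμ.le (isFilter_aN (β / μ) (n + 1))) a ^ 4 ∂NoiseP ≤ _
    rw [h1]
    exact ENNReal.toReal_mono hB4 (hb4 n)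
  · intro n
    have h1 := ((hfield n).gmass_pow (lower_ne_top (ne4 n) (by norm_num : 2 ≤ 4))).2
    rw [(hfield n).L2i_eq] at h1
    change ∫ a, gmass l (canF hμ.le (isFilter_aN (β / μ) (n + 1))) a ^ 2 ∂NoiseP ≤ _
    rw [h1]
    exact ENNReal.toReal_mono hB2 (hb2 n)
  · filter_upwards with n
    have h0 := lower_ne_top (ne4 n) (by norm_num : 3 ≤ 4)
    have h1 := ((hfield n).gmass_pow h0).2
    rw [(hfield n).L3i_eq] at h1 h0
    change _ ≤ ∫ a, gmass l (canF hμ.le (isFilter_aN (β / μ) (n + 1))) a ^ 3 ∂NoiseP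
    rw [h1]
    exact ENNReal.toReal_mono h0 (hb3 n)
  · intro n
    have h0 := lower_ne_top (ne4 n) (by norm_num : 1 ≤ 4)
    have h1 := ((hfield n).gmass_pow h0).2
    simp only [pow_one] at h1
    rw [(hfield n).lintegral_lmass l] at h1
    exact h1

/-- choice of the parameters -/
lemma eventually_bounds (hd : 1 ≤ d) {l : Measure (Eu d)} [IsFiniteMeasure l] (C : ℝ≥0) {β : ℝ}
    (h2 : L2i l (fun x => β * gk 1 x) ≠ ∞) (h4 : L4i l (fun x => β * gk 1 x) ≠ ∞) {T : ℝ≥0∞}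
    (hT : L4i l (fun x => β * gk 1 x) * L2i l (fun x => β * gk 1 x) ^ 6 < T) :
    ∀ᶠ μ in 𝓝[>] (0:ℝ), B2 l C β μ ≠ ∞ ∧ B4 l C β μ ≠ ∞ ∧ B4 l C β μ * B2 l C β μ ^ 6 < T := by
  have hΛt : l univ ≠ ∞ := measure_ne_top _ _
  have hJ := tendsto_Jb hd C
  have hJ6 : Tendsto (fun μ : ℝ => Jb d C (6 * μ)) (𝓝[>] 0) (𝓝 0) := by
    apply hJ.comp
    apply tendsto_nhdsWithin_iff.mpr
    constructor
    · have : Tendsto (fun μ : ℝ => 6 * μ) (𝓝 0) (𝓝 (6 * 0)) := tendsto_id.const_mul 6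
      rw [mul_zero] at this
      exact this.mono_left nhdsWithin_le_nhds
    · filter_upwards [self_mem_nhdsWithin] with μ hμ
      have : (0:ℝ) < μ := hμ
      simp only [mem_Ioi]
      positivity
  have t2 : Tendsto (B2 l C β) (𝓝[>] 0) (𝓝 (L2i l (fun x => β * gk 1 x))) := by
    unfold B2
    have a1 := ENNReal.Tendsto.const_mul (a := eexp β) hJ (Or.inr (eexp_ne_top _))
    have a2 := ENNReal.Tendsto.mul_const (b := l univ) a1 (Or.inr hΛt)
    have a3 := a2.const_add (L2i l (fun x => β * gk 1 x))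
    rw [mul_zero, zero_mul, add_zero] at a3
    exact a3
  have t4 : Tendsto (B4 l C β) (𝓝[>] 0) (𝓝 (L4i l (fun x => β * gk 1 x))) := by
    unfold B4
    have a1 := ENNReal.Tendsto.const_mul (a := 6) hJ6 (Or.inr (by norm_num))
    have a2 := ENNReal.Tendsto.mul_const (b := l univ ^ 3) a1 (Or.inr (ENNReal.pow_ne_top hΛt))
    have a4 := ENNReal.Tendsto.const_mul (a := eexp (6 * β)) a2 (Or.inr (eexp_ne_top _))
    have a3 := a4.const_add (L4i l (fun x => β * gk 1 x))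
    rw [mul_zero, zero_mul, mul_zero, add_zero] at a3
    exact a3
  have t3 : Tendsto (fun μ => B4 l C β μ * B2 l C β μ ^ 6) (𝓝[>] 0)
      (𝓝 (L4i l (fun x => β * gk 1 x) * L2i l (fun x => β * gk 1 x) ^ 6)) := by
    apply ENNReal.Tendsto.mul t4 (Or.inr (ENNReal.pow_ne_top h2)) (ENNReal.Tendsto.pow t2) (Or.inr h4)
  have e2 := t2.eventually (lt_mem_nhds (lt_top_iff_ne_top.mpr h2) |> fun _ =>
    gt_mem_nhds (lt_top_iff_ne_top.mpr h2))
  have e4 := t4.eventually (gt_mem_nhds (lt_top_iff_ne_top.mpr h4))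
  have e3 := t3.eventually (gt_mem_nhds hT)
  filter_upwards [e2, e4, e3] with μ g2 g4 g3
  exact ⟨g2.ne, g4.ne, g3⟩

end Pool.Agent.H87.GMC
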