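import Mathlib
import Pool.Agent.H87.GMC.MomLim

open MeasureTheory ProbabilityTheory Filter Topology Set
open scoped NNReal ENNReal InnerProductSpace

namespace Pool.Agent.H87.GMC

section prodAdd

variable {X Ω₁ Ω₂ : Type*} [MeasurableSpace X] [MeasurableSpace Ω₁] [MeasurableSpace Ω₂]
  {P₁ : Measure Ω₁} {P₂ : Measure Ω₂} {ω₁ : X → Ω₁ → ℝ} {ω₂ : X → Ω₂ → ℝ} {K₁ K₂ : X → X → ℝ}

/-- Sum of two independent fields. -/
lemma IsGField.prodAdd (h₁ : IsGField P₁ ω₁ K₁) (h₂ : IsGField P₂ ω₂ K₂) :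
    IsGField (P₁.prod P₂) (fun x p => ω₁ x p.1 + ω₂ x p.2) (fun x y => K₁ x y + K₂ x y) := by
  have := h₁.isProb
  have := h₂.isProb
  refine ⟨?_, ?_, ?_, ?_⟩
  · constructor
    intro I
    have hm1 : Measurable (fun a => I.restrict (ω₁ · a)) :=
      measurable_pi_lambda _ (fun i => h₁.meas _)
    have hm2 : Measurable (fun a => I.restrict (ω₂ · a)) :=
      measurable_pi_lambda _ (fun i => h₂.meas _)
    have g1 : HasGaussianLaw (fun p : Ω₁ × Ω₂ => I.restrict (ω₁ · p.1)) (P₁.prod P₂) := by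
      constructor
      have e1 : (fun p : Ω₁ × Ω₂ => I.restrict (ω₁ · p.1))
        = (fun a => I.restrict (ω₁ · a)) ∘ Prod.fst := rfl
      rw [e1, ← Measure.map_map hm1 measurable_fst, Measure.map_fst_prod, measure_univ, one_smul]
      exact (h₁.gaussian.hasGaussianLaw I).isGaussian_map
    have g2 : HasGaussianLaw (fun p : Ω₁ × Ω₂ => I.restrict (ω₂ · p.2)) (P₁.prod P₂) := by
      constructor
      have e1 : (fun p : Ω₁ × Ω₂ => I.restrict (ω₂ · p.2))
        = (fun a => I.restrict (ω₂ · a)) ∘ Prod.snd := rfl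
      rw [e1, ← Measure.map_map hm2 measurable_snd, Measure.map_snd_prod, measure_univ, one_smul]
      exact (h₂.gaussian.hasGaussianLaw I).isGaussian_map
    have g3 := (IndepFun.hasGaussianLaw g1 g2
      (indepFun_prod (μ := P₁) (ν := P₂) hm1 hm2)).fun_add
    exact g3
  · have m1 : Measurable (fun q : X × (Ω₁ × Ω₂) => ω₁ q.1 q.2.1) :=
      h₁.measurable.comp (measurable_fst.prodMk (measurable_fst.comp measurable_snd))
    have m2 : Measurable (fun q : X × (Ω₁ × Ω₂) => ω₂ q.1 q.2.2) :=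
      h₂.measurable.comp (measurable_fst.prodMk (measurable_snd.comp measurable_snd))
    exact m1.add m2
  · intro x y
    have l1 : ∀ x, MemLp (fun p : Ω₁ × Ω₂ => ω₁ x p.1) 2 (P₁.prod P₂) :=
      fun x => (h₁.memLp x).comp_fst P₂
    have l2 : ∀ x, MemLp (fun p : Ω₁ × Ω₂ => ω₂ x p.2) 2 (P₁.prod P₂) :=
      fun x => (h₂.memLp x).comp_snd P₁
    have c1 : cov[fun p : Ω₁ × Ω₂ => ω₁ x p.1, fun p => ω₁ y p.1; P₁.prod P₂] = K₁ x y := by
      rw [← h₁.cov x y]
      have e1 : P₁ = (P₁.prod P₂).map Prod.fst := by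
        rw [Measure.map_fst_prod, measure_univ, one_smul]
      conv_rhs => rw [e1]
      rw [covariance_map_fun (h₁.meas x).aestronglyMeasurable (h₁.meas y).aestronglyMeasurable
        measurable_fst.aemeasurable]
    have c2 : cov[fun p : Ω₁ × Ω₂ => ω₂ x p.2, fun p => ω₂ y p.2; P₁.prod P₂] = K₂ x y := by
      rw [← h₂.cov x y]
      have e1 : P₂ = (P₁.prod P₂).map Prod.snd := by
        rw [Measure.map_snd_prod, measure_univ, one_smul]
      conv_rhs => rw [e1]
      rw [covariance_map_fun (h₂.meas x).aestronglyMeasurable (h₂.meas y).aestronglyMeasurable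
        measurable_snd.aemeasurable]
    have c3 : cov[fun p : Ω₁ × Ω₂ => ω₁ x p.1, fun p => ω₂ y p.2; P₁.prod P₂] = 0 :=
      covariance_fst_snd_prod (h₁.memLp x) (h₂.memLp y)
    have c4 : cov[fun p : Ω₁ × Ω₂ => ω₂ x p.2, fun p => ω₁ y p.1; P₁.prod P₂] = 0 := by
      rw [covariance_comm]
      exact covariance_fst_snd_prod (h₁.memLp y) (h₂.memLp x)
    have e := covariance_add_left (l1 x) (l2 x) ((l1 y).add (l2 y))
    have e' := covariance_add_right (l1 x) (l1 y) (l2 y)
    have e'' := covariance_add_right (l2 x) (l1 y) (l2 y)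
    rw [e', e'', c1, c2, c3, c4] at e
    rw [add_zero, zero_add] at e
    exact e
  · intro x
    have i1 : Integrable (fun p : Ω₁ × Ω₂ => ω₁ x p.1) (P₁.prod P₂) :=
      ((h₁.memLp x).comp_fst P₂).integrable (by norm_num)
    have i2 : Integrable (fun p : Ω₁ × Ω₂ => ω₂ x p.2) (P₁.prod P₂) :=
      ((h₂.memLp x).comp_snd P₁).integrable (by norm_num)
    rw [integral_add i1 i2]
    have e1 : ∫ p : Ω₁ × Ω₂, ω₁ x p.1 ∂(P₁.prod P₂) = ∫ a, ω₁ x a ∂P₁ := by
      rw [integral_fun_fst]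
      simp
    have e2 : ∫ p : Ω₁ × Ω₂, ω₂ x p.2 ∂(P₁.prod P₂) = ∫ a, ω₂ x a ∂P₂ := by
      rw [integral_fun_snd]
      simp
    rw [e1, e2, h₁.mean, h₂.mean]
    ring

end prodAdd

section cheb

variable {X Ω : Type*} [MeasurableSpace X] [MeasurableSpace Ω] {P : Measure Ω}
  {ω : X → Ω → ℝ} {K : X → X → ℝ}

lemma IsGField.integral_gmass (h : IsGField P ω K) (l : Measure X) [IsFiniteMeasure l] :
    Integrable (gmass l ω) P ∧ ∫ a, gmass l ω a ∂P = l.real univ := by
  have h1 : gmass l ω = fun a => (lmass l ω a).toReal := funext (h.gmass_eq l)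
  have hm := h.measurable_lmass l
  have hne : ∫⁻ a, lmass l ω a ∂P ≠ ∞ := by
    rw [h.lintegral_lmass l]; exact measure_ne_top _ _
  rw [h1]
  refine ⟨integrable_toReal_of_lintegral_ne_top hm.aemeasurable hne, ?_⟩
  rw [integral_toReal hm.aemeasurable (ae_lt_top hm hne), h.lintegral_lmass l]
  rfl

/-- Chebyshev's inequality for the mass. -/
lemma IsGField.cheb (h : IsGField P ω K) (l : Measure X) [IsFiniteMeasure l] {C : ℝ}
    (hC : ∀ x y, K x y ≤ C) {S : ℝ}
    (hS : ∫ y, ∫ x, Real.exp (K x y) ∂l ∂l ≤ l.real univ ^ 2 + S) {t : ℝ} (ht : 0 < t) :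
    P.real {a | gmass l ω a ≤ l.real univ - t} ≤ S / t ^ 2 := by
  have := h.isProb
  obtain ⟨i1, e1⟩ := h.integral_gmass l
  obtain ⟨i2, e2⟩ := h.integral_two_map l (e := id) (e' := id) measurable_id measurable_id hC
  simp only [id] at i2 e2
  set m := l.real univ with hm
  have hvar : ∫ a, (gmass l ω a - m) ^ 2 ∂P ≤ S := by
    have h1 : ∀ a, (gmass l ω a - m) ^ 2 = gmass l ω a * gmass l ω a - 2 * m * gmass l ω a
        + m ^ 2 := fun a => by ring
    have i3 : Integrable (fun a => gmass l ω a * gmass l ω a) P := i2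
    have i4 : Integrable (fun a => gmass l ω a * gmass l ω a - 2 * m * gmass l ω a) P :=
      i3.sub (i1.const_mul _)
    simp_rw [h1]
    rw [integral_add i4 (integrable_const _),
      integral_sub i3 (i1.const_mul _), integral_const_mul, e1, integral_const]
    have h3 : ∫ a, gmass l ω a * gmass l ω a ∂P = ∫ y, ∫ x, Real.exp (K x y) ∂l ∂l := e2
    rw [h3]
    simp only [probReal_univ, smul_eq_mul, one_mul]
    linarith
  have hint : Integrable (fun a => (gmass l ω a - m) ^ 2) P := by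
    have h1 : (fun a => (gmass l ω a - m) ^ 2)
        = fun a => gmass l ω a * gmass l ω a - 2 * m * gmass l ω a + m ^ 2 := by
      funext a; ring
    rw [h1]
    exact (i2.sub (i1.const_mul _)).add (integrable_const _)
  have h4 := mul_meas_ge_le_integral_of_nonneg (μ := P) (f := fun a => (gmass l ω a - m) ^ 2)
    (Eventually.of_forall fun a => sq_nonneg _) hint (t ^ 2)
  have h5 : P.real {a | gmass l ω a ≤ m - t} ≤ P.real {a | t ^ 2 ≤ (gmass l ω a - m) ^ 2} := by
    apply measureReal_mono ?_ (measure_ne_top _ _)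
    intro a ha
    simp only [mem_ofPred_eq] at ha ⊢
    nlinarith
  rw [le_div_iff₀ (by positivity)]
  nlinarith [h4, h5, hvar]

end cheb

end Pool.Agent.H87.GMC
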