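import Mathlib
import Pool.Agent.H87.GMC.Prod

open MeasureTheory ProbabilityTheory Filter Topology Set
open scoped NNReal ENNReal InnerProductSpace

namespace Pool.Agent.H87.GMC

variable {d : ℕ}

/-- difference of two truncation filters -/
noncomputable def aD (m n : ℕ) (q : ℝ × Eu d) : ℝ := aN n q - aN m q

lemma aD_nonneg {m n : ℕ} (h : m ≤ n) (q : ℝ × Eu d) : 0 ≤ aD m n q := by
  unfold aD aN
  have hnm : (m:ℝ) ≤ n := by exact_mod_cast h
  by_cases h1 : q.1 ≤ m
  · have h2 : q.1 ≤ n := h1.trans hnm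
    simp [h1, h2]
  · split_ifs <;> simp

lemma isFilter_aD (c : ℝ) {m n : ℕ} (h : m ≤ n) : IsFilter c (aD m n : ℝ × Eu d → ℝ) where
  measurable := (measurable_aN n).sub (measurable_aN m)
  nonneg := aD_nonneg h
  integrable := (integrable_aN c n).sub (integrable_aN c m)

lemma crossK_aD (μ c : ℝ) {m n : ℕ} (h : m ≤ n) (x : Eu d) :
    crossK μ c (aD m n) (aD m n) x = Kn μ c n x - Kn μ c m x := by
  unfold Kn crossK
  rw [← mul_sub, ← integral_sub (crossK_integrable (isFilter_aN c n) (isFilter_aN c n) x)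
    (crossK_integrable (isFilter_aN c m) (isFilter_aN c m) x)]
  congr 2
  funext q
  rw [Real.sqrt_mul_self (aD_nonneg h q), sqrt_aN_mul le_rfl, sqrt_aN_mul le_rfl]
  unfold aD
  ring

/-- the sum of two independent canonical fields -/
noncomputable def sumF {μ : ℝ} (hμ : 0 ≤ μ) (c : ℝ) {m n : ℕ} (h : m ≤ n) (x : Eu d)
    (p : (ℕ → ℝ) × (ℕ → ℝ)) : ℝ :=
  canF hμ (isFilter_aN c m) x p.1 + canF hμ (isFilter_aD c h) x p.2

lemma sumF_field {μ : ℝ} (hμ : 0 ≤ μ) (c : ℝ) {m n : ℕ} (h : m ≤ n) :
    IsGField (NoiseP.prod NoiseP) (sumF (d := d) hμ c h)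
      (fun x y => crossK μ c (aN n) (aN n) (x - y)) := by
  have h1 := (canF_field (d := d) hμ (isFilter_aN c m)).prodAdd (canF_field hμ (isFilter_aD c h))
  have h2 : (fun x y : Eu d => crossK μ c (aN m) (aN m) (x - y)
      + crossK μ c (aD m n) (aD m n) (x - y))
      = fun x y => crossK μ c (aN n) (aN n) (x - y) := by
    funext x y
    rw [crossK_aD μ c h]
    unfold Kn
    ring
  rw [h2] at h1
  exact h1

/-- two fold integral over a subset -/
lemma two_restrict (hd : 1 ≤ d) {μ c : ℝ} (hμ : 0 ≤ μ) (hμd : μ < d) (hc : 0 ≤ c)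
    {l : Measure (Eu d)} {C : ℝ≥0} (hl : IsDom l C) {m n : ℕ} (h : m ≤ n) (A : Set (Eu d)) :
    ∫ y in A, ∫ x in A, Real.exp (crossK μ c (aD m n) (aD m n) (x - y)) ∂l ∂l
      ≤ (l.restrict A).real univ ^ 2 + Dn μ c l C m := by
  have := hl.finite
  have hcn := continuous_Kn (d := d) μ c n
  have hcm := continuous_Kn (d := d) μ c m
  have hcD := continuous_crossK (d := d) μ (isFilter_aD c h) (isFilter_aD c h)
  have hb : ∀ z : Eu d, crossK μ c (aD m n) (aD m n) z ≤ Kn μ c n (0 : Eu d) := by
    intro z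
    rw [crossK_aD μ c h]
    have := Kn_nonneg hμ c m z
    have := Kn_le_zero hμ c n z
    linarith
  have i1 : Integrable (fun p : Eu d × Eu d =>
      Real.exp (crossK μ c (aD m n) (aD m n) (p.2 - p.1))) (l.prod l) := by
    apply Integrable.of_bound (C := Real.exp (Kn μ c n (0 : Eu d)))
    · fun_prop
    · filter_upwards with x
      rw [Real.norm_of_nonneg (Real.exp_pos _).le]
      exact Real.exp_le_exp.mpr (hb _)
  have iN : ∀ k : ℕ, Integrable (fun p : Eu d × Eu d => Real.exp (Kn μ c k (p.2 - p.1)))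
      (l.prod l) := by
    intro k
    have := continuous_Kn (d := d) μ c k
    apply Integrable.of_bound (C := Real.exp (Kn μ c k (0 : Eu d)))
    · fun_prop
    · filter_upwards with x
      rw [Real.norm_of_nonneg (Real.exp_pos _).le]
      exact Real.exp_le_exp.mpr (Kn_le_zero hμ c k _)
  have e1 : ∫ y in A, ∫ x in A, Real.exp (crossK μ c (aD m n) (aD m n) (x - y)) ∂l ∂l
      = ∫ p in A ×ˢ A, Real.exp (crossK μ c (aD m n) (aD m n) (p.2 - p.1)) ∂(l.prod l) := by
    rw [setIntegral_prod _ i1.integrableOn]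
  have e2 : ∫ p in A ×ˢ A, (1:ℝ) ∂(l.prod l) = (l.restrict A).real univ ^ 2 := by
    rw [integral_const, smul_eq_mul, mul_one, measureReal_restrict_apply MeasurableSet.univ,
      univ_inter, measureReal_restrict_apply MeasurableSet.univ, univ_inter,
      measureReal_prod_prod, pow_two]
  have e3 : ∫ p in A ×ˢ A, (Real.exp (crossK μ c (aD m n) (aD m n) (p.2 - p.1)) - 1) ∂(l.prod l)
      ≤ ∫ p in A ×ˢ A, (Real.exp (Kn μ c n (p.2 - p.1)) - Real.exp (Kn μ c m (p.2 - p.1)))
        ∂(l.prod l) := by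
    apply integral_mono
    · exact (i1.sub (integrable_const _)).integrableOn
    · exact ((iN n).sub (iN m)).integrableOn
    · intro p
      simp only
      rw [crossK_aD μ c h]
      set u := Kn μ c n (p.2 - p.1)
      set v := Kn μ c m (p.2 - p.1)
      have hv : 0 ≤ v := Kn_nonneg hμ c m _
      have huv : v ≤ u := Kn_mono hμ c h _
      have h1 : Real.exp u = Real.exp (u - v) * Real.exp v := by
        rw [← Real.exp_add]; congr 1; ring
      have h2 : 1 ≤ Real.exp v := Real.one_le_exp hv
      have h3 : 1 ≤ Real.exp (u - v) := Real.one_le_exp (by linarith)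
      rw [h1]
      nlinarith
  have e4 : ∫ p in A ×ˢ A, (Real.exp (Kn μ c n (p.2 - p.1)) - Real.exp (Kn μ c m (p.2 - p.1)))
        ∂(l.prod l) ≤ ∫ p, (Real.exp (Kn μ c n (p.2 - p.1)) - Real.exp (Kn μ c m (p.2 - p.1)))
        ∂(l.prod l) := by
    apply setIntegral_le_integral ((iN n).sub (iN m))
    filter_upwards with p
    simp only [Pi.zero_apply, Pi.sub_apply]
    have := Real.exp_le_exp.mpr (Kn_mono hμ c h (p.2 - p.1))
    linarith
  have e5 : ∫ p, (Real.exp (Kn μ c n (p.2 - p.1)) - Real.exp (Kn μ c m (p.2 - p.1))) ∂(l.prod l)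
      ≤ Dn μ c l C m := by
    rw [integral_sub (iN n) (iN m), integral_prod _ (iN n), integral_prod _ (iN m)]
    exact exp_Kn_sub_le hd hμ hμd hc hl n m
  have e6 : ∫ p in A ×ˢ A, (Real.exp (crossK μ c (aD m n) (aD m n) (p.2 - p.1)) - 1) ∂(l.prod l)
      = (∫ p in A ×ˢ A, Real.exp (crossK μ c (aD m n) (aD m n) (p.2 - p.1)) ∂(l.prod l))
        - ∫ p in A ×ˢ A, (1:ℝ) ∂(l.prod l) := by
    rw [integral_sub i1.integrableOn (integrable_const _).integrableOn]
  rw [e1]
  linarith

/-- the test function `exp (-s max(x,0))` -/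
noncomputable def Fs (s : ℝ) (hs : 0 ≤ s) : BoundedContinuousFunction ℝ ℝ :=
  BoundedContinuousFunction.ofNormedAddCommGroup (fun x => Real.exp (-(s * max x 0)))
    (by fun_prop) 1 (by
      intro x
      rw [Real.norm_of_nonneg (Real.exp_pos _).le]
      apply Real.exp_le_one_iff.mpr
      have : 0 ≤ s * max x 0 := mul_nonneg hs (le_max_right _ _)
      linarith)

lemma Fs_apply (s : ℝ) (hs : 0 ≤ s) (x : ℝ) : Fs s hs x = Real.exp (-(s * max x 0)) := rfl

lemma Fs_nonneg (s : ℝ) (hs : 0 ≤ s) (x : ℝ) : 0 ≤ Fs s hs x := (Real.exp_pos _).le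

lemma Fs_le_one (s : ℝ) (hs : 0 ≤ s) (x : ℝ) : Fs s hs x ≤ 1 := by
  rw [Fs_apply]
  apply Real.exp_le_one_iff.mpr
  have : 0 ≤ s * max x 0 := mul_nonneg hs (le_max_right _ _)
  linarith

lemma Fs_le {s : ℝ} (hs : 0 ≤ s) {x η : ℝ} (h : η ≤ x) : Fs s hs x ≤ Real.exp (-(s * η)) := by
  rw [Fs_apply]
  apply Real.exp_le_exp.mpr
  have : s * η ≤ s * max x 0 := mul_le_mul_of_nonneg_left (h.trans (le_max_left _ _)) hs
  linarith

/-- the set where the coarse field is not too negative -/
noncomputable def Ak {μ : ℝ} (hμ : 0 ≤ μ) (c : ℝ) (m k : ℕ) (a : ℕ → ℝ) : Set (Eu d) :=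
  {x | -(k : ℝ) ≤ canF hμ (isFilter_aN c m) x a}

lemma measurableSet_Ak {μ : ℝ} (hμ : 0 ≤ μ) (c : ℝ) (m k : ℕ) (a : ℕ → ℝ) :
    MeasurableSet (Ak (d := d) hμ c m k a) :=
  measurableSet_le measurable_const ((canF_field hμ (isFilter_aN c m)).meas_left a)

/-- conditional estimate -/
lemma cond_bound (hd : 1 ≤ d) {μ c : ℝ} (hμ : 0 ≤ μ) (hμd : μ < d) (hc : 0 ≤ c)
    {l : Measure (Eu d)} {C : ℝ≥0} (hl : IsDom l C) {m n : ℕ} (h : m ≤ n) (k : ℕ) {Λ s : ℝ}
    (hΛ : 0 < Λ) (hs : 0 ≤ s) {a : ℕ → ℝ}
    (ha : ∀ᵐ b ∂NoiseP, Integrable (fun x => Real.exp (sumF hμ c h x (a, b))) l)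
    (hA : Λ / 2 ≤ l.real (Ak hμ c m k a)) :
    ∫ b, Fs s hs (gmass l (sumF hμ c h) (a, b)) ∂NoiseP
      ≤ Dn μ c l C m / (Λ / 4) ^ 2 + Real.exp (-(s * (Real.exp (-(k:ℝ)) * (Λ / 4)))) := by
  have := hl.finite
  set A := Ak (d := d) hμ c m k a with hAdef
  have hAm : MeasurableSet A := measurableSet_Ak hμ c m k a
  set f2 := canF (d := d) hμ (isFilter_aD c h) with hf2
  have hfield := canF_field (d := d) hμ (isFilter_aD c h)
  have hb : ∀ x y : Eu d, crossK μ c (aD m n) (aD m n) (x - y) ≤ Kn μ c n (0 : Eu d) := by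
    intro x y
    rw [crossK_aD μ c h]
    have := Kn_nonneg hμ c m (x - y)
    have := Kn_le_zero hμ c n (x - y)
    linarith
  have hcheb := hfield.cheb (l.restrict A) hb (two_restrict hd hμ hμd hc hl h A)
    (show 0 < Λ / 4 by positivity)
  have hm' : (l.restrict A).real univ = l.real A := by
    rw [measureReal_restrict_apply MeasurableSet.univ, univ_inter]
  rw [hm'] at hcheb
  set E := {b | gmass (l.restrict A) f2 b ≤ l.real A - Λ / 4} with hE
  have hEm : MeasurableSet E :=
    measurableSet_le (hfield.measurable_gmass _) measurable_const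
  have hmg : Measurable (gmass l (sumF (d := d) hμ c h)) := (sumF_field hμ c h).measurable_gmass l
  have hpt : ∀ᵐ b ∂NoiseP, Fs s hs (gmass l (sumF hμ c h) (a, b))
      ≤ E.indicator (fun _ => (1:ℝ)) b + Real.exp (-(s * (Real.exp (-(k:ℝ)) * (Λ / 4)))) := by
    filter_upwards [ha] with b hb
    by_cases hbE : b ∈ E
    · rw [indicator_of_mem hbE]
      have := Fs_le_one s hs (gmass l (sumF hμ c h) (a, b))
      have := Real.exp_pos (-(s * (Real.exp (-(k:ℝ)) * (Λ / 4))))
      linarith
    · rw [indicator_of_notMem hbE, zero_add]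
      apply Fs_le
      rw [hE, mem_ofPred_eq, not_le] at hbE
      have h1 : Λ / 4 ≤ gmass (l.restrict A) f2 b := by linarith
      have h2 : Real.exp (-(k:ℝ)) * gmass (l.restrict A) f2 b ≤ gmass l (sumF hμ c h) (a, b) := by
        unfold gmass
        rw [← integral_const_mul]
        calc ∫ x in A, Real.exp (-(k:ℝ)) * Real.exp (f2 x b) ∂l
            ≤ ∫ x in A, Real.exp (sumF hμ c h x (a, b)) ∂l := by
              apply integral_mono_of_nonneg
              · filter_upwards with x
                positivity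
              · exact hb.integrableOn
              · filter_upwards [ae_restrict_mem hAm] with x hx
                rw [← Real.exp_add]
                apply Real.exp_le_exp.mpr
                unfold sumF
                have hx' : -(k:ℝ) ≤ canF hμ (isFilter_aN c m) x a := hx
                simp only
                rw [← hf2]
                linarith
          _ ≤ ∫ x, Real.exp (sumF hμ c h x (a, b)) ∂l := by
              apply setIntegral_le_integral hb
              filter_upwards with x
              exact (Real.exp_pos _).le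
      refine le_trans ?_ h2
      gcongr
  calc ∫ b, Fs s hs (gmass l (sumF hμ c h) (a, b)) ∂NoiseP
      ≤ ∫ b, (E.indicator (fun _ => (1:ℝ)) b
        + Real.exp (-(s * (Real.exp (-(k:ℝ)) * (Λ / 4))))) ∂NoiseP := by
        apply integral_mono_ae
        · apply Integrable.of_bound (C := 1)
          · have : Measurable (fun b => gmass l (sumF (d := d) hμ c h) (a, b)) :=
              hmg.comp (measurable_const.prodMk measurable_id)
            exact ((Fs s hs).continuous.measurable.comp this).aestronglyMeasurable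
          · filter_upwards with b
            rw [Real.norm_of_nonneg (Fs_nonneg s hs _)]
            exact Fs_le_one s hs _
        · exact ((integrable_const _).indicator hEm).add (integrable_const _)
        · exact hpt
    _ = NoiseP.real E + Real.exp (-(s * (Real.exp (-(k:ℝ)) * (Λ / 4)))) := by
        rw [integral_add ((integrable_const _).indicator hEm) (integrable_const _),
          integral_indicator hEm, integral_const, integral_const]
        simp
    _ ≤ _ := by
        gcongr

lemma measurable_level {ω : Eu d → (ℕ → ℝ) → ℝ} (h : Measurable (Function.uncurry ω)) (k : ℕ)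
    (l : Measure (Eu d)) [SFinite l] : Measurable (fun a => l {x | -(k : ℝ) ≤ ω x a}) := by
  have h1 : Measurable (fun p : (ℕ → ℝ) × Eu d => ω p.2 p.1) := h.comp measurable_swap
  have hS : MeasurableSet {p : (ℕ → ℝ) × Eu d | -(k:ℝ) ≤ ω p.2 p.1} :=
    measurableSet_le measurable_const h1
  exact measurable_measure_prodMk_left hS

lemma measurable_lAk {μ : ℝ} (hμ : 0 ≤ μ) (c : ℝ) (m k : ℕ) (l : Measure (Eu d)) [SFinite l] :
    Measurable (fun a => l (Ak hμ c m k a)) :=
  measurable_level (canF_field hμ (isFilter_aN c m)).measurable k l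

/-- the bad set of coarse noises -/
noncomputable def bad {μ : ℝ} (hμ : 0 ≤ μ) (c : ℝ) (m k : ℕ) (l : Measure (Eu d)) :
    Set (ℕ → ℝ) := {a | l (Ak hμ c m k a) < l univ / 2}

lemma measurableSet_bad {μ : ℝ} (hμ : 0 ≤ μ) (c : ℝ) (m k : ℕ) (l : Measure (Eu d)) [SFinite l] :
    MeasurableSet (bad hμ c m k l) :=
  measurableSet_lt (measurable_lAk hμ c m k l) measurable_const

lemma tendsto_bad {μ : ℝ} (hμ : 0 ≤ μ) (c : ℝ) (m : ℕ) (l : Measure (Eu d)) [IsFiniteMeasure l]
    (hl0 : l univ ≠ 0) : Tendsto (fun k => NoiseP.real (bad hμ c m k l)) atTop (𝓝 0) := by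
  have hmono : ∀ a, Monotone (fun k => Ak (d := d) hμ c m k a) := by
    intro a k k' hkk x hx
    have h1 : -(k:ℝ) ≤ canF hμ (isFilter_aN c m) x a := hx
    have h2 : (k:ℝ) ≤ k' := by exact_mod_cast hkk
    show -(k':ℝ) ≤ canF hμ (isFilter_aN c m) x a
    linarith
  have hanti : Antitone (fun k => bad hμ c m k l) := by
    intro k k' hkk a ha
    have h1 : l (Ak hμ c m k' a) < l univ / 2 := ha
    exact lt_of_le_of_lt (measure_mono (hmono a hkk)) h1
  have hU : ∀ a, (⋃ k, Ak (d := d) hμ c m k a) = univ := by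
    intro a
    rw [eq_univ_iff_forall]
    intro x
    obtain ⟨k, hk⟩ := exists_nat_ge (-(canF hμ (isFilter_aN c m) x a))
    refine mem_iUnion.mpr ⟨k, ?_⟩
    show -(k:ℝ) ≤ canF hμ (isFilter_aN c m) x a
    linarith
  have hempty : (⋂ k, bad hμ c m k l) = ∅ := by
    rw [eq_empty_iff_forall_notMem]
    intro a ha
    have h1 : ∀ k, l (Ak hμ c m k a) < l univ / 2 := fun k => mem_iInter.mp ha k
    have h2 := tendsto_measure_iUnion_atTop (μ := l) (hmono a)
    rw [hU a] at h2
    have h3 : l univ ≤ l univ / 2 := le_of_tendsto h2 (Eventually.of_forall fun k => (h1 k).le)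
    have h4 : l univ / 2 < l univ := ENNReal.half_lt_self hl0 (measure_ne_top _ _)
    exact absurd h3 (not_le.mpr h4)
  have h5 := tendsto_measure_iInter_atTop (μ := NoiseP) (s := fun k => bad hμ c m k l)
    (fun k => (measurableSet_bad hμ c m k l).nullMeasurableSet) hanti ⟨0, measure_ne_top _ _⟩
  rw [hempty, measure_empty] at h5
  have h6 := (ENNReal.tendsto_toReal ENNReal.zero_ne_top).comp h5
  rw [ENNReal.toReal_zero] at h6
  exact h6

lemma uncond_bound (hd : 1 ≤ d) {μ c : ℝ} (hμ : 0 ≤ μ) (hμd : μ < d) (hc : 0 ≤ c)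
    {l : Measure (Eu d)} {C : ℝ≥0} (hl : IsDom l C) (hl0 : l univ ≠ 0) {m n : ℕ} (h : m ≤ n)
    (k : ℕ) {s : ℝ} (hs : 0 ≤ s) :
    ∫ w, Fs s hs (cM hμ (isFilter_aN c n) l w) ∂NoiseP
      ≤ NoiseP.real (bad hμ c m k l) + (Dn μ c l C m / (l.real univ / 4) ^ 2
        + Real.exp (-(s * (Real.exp (-(k:ℝ)) * (l.real univ / 4))))) := by
  have := hl.finite
  have hΛ : 0 < l.real univ := ENNReal.toReal_pos hl0 (measure_ne_top _ _)
  have h1 := (canF_field (d := d) hμ (isFilter_aN c n)).integral_gmass_eq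
    (sumF_field (d := d) hμ c h) l (Fs s hs)
  unfold cM
  rw [h1]
  have hmg : Measurable (gmass l (sumF (d := d) hμ c h)) := (sumF_field hμ c h).measurable_gmass l
  have hI : Integrable (fun p => Fs s hs (gmass l (sumF hμ c h) p)) (NoiseP.prod NoiseP) := by
    apply Integrable.of_bound (C := 1)
    · exact ((Fs s hs).continuous.measurable.comp hmg).aestronglyMeasurable
    · filter_upwards with b
      rw [Real.norm_of_nonneg (Fs_nonneg s hs _)]
      exact Fs_le_one s hs _
  have hae := Measure.ae_ae_of_ae_prod ((sumF_field (d := d) hμ c h).ae_integrable l)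
  set R := Dn μ c l C m / (l.real univ / 4) ^ 2
        + Real.exp (-(s * (Real.exp (-(k:ℝ)) * (l.real univ / 4)))) with hR
  have hD0 : 0 ≤ Dn μ c l C m := by
    have h5 := two_restrict hd hμ hμd hc hl (le_refl m) (∅ : Set (Eu d))
    simpa using h5
  have hR0 : 0 ≤ R := by
    have := Real.exp_pos (-(s * (Real.exp (-(k:ℝ)) * (l.real univ / 4))))
    positivity
  rw [integral_prod _ hI]
  have hbm := measurableSet_bad hμ c m k l
  calc ∫ a, ∫ b, Fs s hs (gmass l (sumF hμ c h) (a, b)) ∂NoiseP ∂NoiseP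
      ≤ ∫ a, ((bad hμ c m k l).indicator (fun _ => (1:ℝ)) a + R) ∂NoiseP := by
        apply integral_mono_ae hI.integral_prod_left
        · exact ((integrable_const _).indicator hbm).add (integrable_const _)
        · filter_upwards [hae] with a ha
          by_cases hb : a ∈ bad hμ c m k l
          · rw [indicator_of_mem hb]
            have h2 : ∫ b, Fs s hs (gmass l (sumF hμ c h) (a, b)) ∂NoiseP ≤ ∫ _, (1:ℝ) ∂NoiseP := by
              apply integral_mono_of_nonneg
              · filter_upwards with b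
                exact Fs_nonneg s hs _
              · exact integrable_const _
              · filter_upwards with b
                exact Fs_le_one s hs _
            simp only [integral_const, probReal_univ, smul_eq_mul, mul_one] at h2
            linarith
          · rw [indicator_of_notMem hb, zero_add]
            apply cond_bound hd hμ hμd hc hl h k hΛ hs ha
            have h3 : l univ / 2 ≤ l (Ak hμ c m k a) := not_lt.mp hb
            have h4 := ENNReal.toReal_mono (measure_ne_top _ _) h3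
            rw [ENNReal.toReal_div] at h4
            exact h4
    _ = _ := by
        rw [integral_add ((integrable_const _).indicator hbm) (integrable_const _),
          integral_indicator hbm, integral_const, integral_const]
        simp

/-- positivity of the limiting mass -/
lemma Minf_pos (hd : 1 ≤ d) {μ c : ℝ} (hμ : 0 ≤ μ) (hμd : μ < d) (hc : 0 ≤ c)
    {l : Measure (Eu d)} {C : ℝ≥0} (hl : IsDom l C) (hl0 : l univ ≠ 0)
    {M : (ℕ → ℝ) → ℝ} (hM : Measurable M) (hM0 : ∀ a, 0 ≤ M a) (hM2 : MemLp M 2 NoiseP)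
    (hMD : ∀ m, ∫ a, (cM hμ (isFilter_aN c m) l a - M a) ^ 2 ∂NoiseP ≤ Dn μ c l C m) :
    NoiseP {a | M a ≤ 0} = 0 := by
  have := hl.finite
  have hΛ : 0 < l.real univ := ENNReal.toReal_pos hl0 (measure_ne_top _ _)
  have hD := tendsto_Dn hd hμ hμd hc l C
  have hset : MeasurableSet {a | M a ≤ 0} := measurableSet_le hM measurable_const
  have key : ∀ ε > 0, NoiseP.real {a | M a ≤ 0} ≤ ε := by
    intro ε hε
    have hD' : Tendsto (fun m => Dn μ c l C m / (l.real univ / 4) ^ 2) atTop (𝓝 0) := by
      have := hD.div_const ((l.real univ / 4) ^ 2)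
      rw [zero_div] at this
      exact this
    obtain ⟨m, hm⟩ := (hD'.eventually (gt_mem_nhds (show 0 < ε / 3 by positivity))).exists
    obtain ⟨k, hk⟩ := ((tendsto_bad hμ c m l hl0).eventually
      (gt_mem_nhds (show 0 < ε / 3 by positivity))).exists
    have hB : 0 < Real.exp (-(k:ℝ)) * (l.real univ / 4) := by positivity
    have hS : Tendsto (fun s : ℝ => Real.exp (-(s * (Real.exp (-(k:ℝ)) * (l.real univ / 4)))))
        atTop (𝓝 0) := by
      apply Real.tendsto_exp_neg_atTop_nhds_zero.comp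
      exact tendsto_id.atTop_mul_const hB
    obtain ⟨s, hs1, hs2⟩ := ((hS.eventually (gt_mem_nhds (show 0 < ε / 3 by positivity))).and
      (eventually_ge_atTop 0)).exists
    have h1 : NoiseP.real {a | M a ≤ 0} ≤ ∫ a, Fs s hs2 (M a) ∂NoiseP := by
      have h2 : NoiseP.real {a | M a ≤ 0} = ∫ a, ({a | M a ≤ 0}).indicator (fun _ => (1:ℝ)) a
          ∂NoiseP := by
        rw [integral_indicator hset, integral_const]
        simp
      rw [h2]
      apply integral_mono
      · exact (integrable_const _).indicator hset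
      · apply Integrable.of_bound (C := 1)
        · exact ((Fs s hs2).continuous.measurable.comp hM).aestronglyMeasurable
        · filter_upwards with b
          rw [Real.norm_of_nonneg (Fs_nonneg s hs2 _)]
          exact Fs_le_one s hs2 _
      · intro a
        by_cases ha : a ∈ {a | M a ≤ 0}
        · rw [indicator_of_mem ha]
          change 1 ≤ Fs s hs2 (M a)
          have h3 : M a = 0 := le_antisymm ha (hM0 a)
          rw [h3, Fs_apply]
          simp
        · rw [indicator_of_notMem ha]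
          exact Fs_nonneg s hs2 _
    have h4 : Tendsto (fun n => ∫ a, Fs s hs2 (cM hμ (isFilter_aN c n) l a) ∂NoiseP) atTop
        (𝓝 (∫ a, Fs s hs2 (M a) ∂NoiseP)) := by
      apply tendsto_integral_of_measure _ (fun n => measurable_cM hμ _ l) hM
      apply tendstoInMeasure_of_sq
      · intro n
        exact sq_sub_integrable (memLp_cM hμ _ l) hM2
      · intro δ hδ
        filter_upwards [hD.eventually (gt_mem_nhds hδ)] with i hi
        exact (hMD i).trans hi.le
    have h5 : ∫ a, Fs s hs2 (M a) ∂NoiseP ≤ ε := by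
      apply le_of_tendsto h4
      filter_upwards [eventually_ge_atTop m] with n hn
      have h6 := uncond_bound hd hμ hμd hc hl hl0 hn k hs2
      linarith
    exact h1.trans h5
  have h1 : NoiseP.real {a | M a ≤ 0} ≤ 0 := le_of_forall_pos_le_add (by simpa using key)
  have h2 : NoiseP.real {a | M a ≤ 0} = 0 := le_antisymm h1 measureReal_nonneg
  rwa [measureReal_eq_zero_iff (measure_ne_top _ _)] at h2

end Pool.Agent.H87.GMC
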