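import Mathlib
import Pool.Agent.H87.GMC.Pos
import Pool.Agent.H87.GMC.PosDef
import Pool.Agent.H87.GMC.InfDiv

open MeasureTheory ProbabilityTheory Filter Topology Set
open scoped NNReal ENNReal InnerProductSpace

namespace Pool.Agent.H87.GMC

variable {d : ℕ}

/-- The Gaussian density is an admissible bump function. -/
noncomputable def gaussBump (d : ℕ) (x : Eu d) : ℝ := (∫ z : Eu d, gk 1 z)⁻¹ * gk 1 x

lemma integral_gk_pos : 0 < ∫ z : Eu d, gk 1 z := by
  rw [integral_pos_iff_support_of_nonneg (fun z => (gk_pos 1 z).le) integrable_gk_one]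
  have : Function.support (gk 1 : Eu d → ℝ) = univ := by
    rw [Function.support_eq_univ]
    intro z
    exact (gk_pos 1 z).ne'
  rw [this]
  exact Measure.measure_univ_pos.mpr (NeZero.ne _)

lemma gaussBump_continuous (d : ℕ) : Continuous (gaussBump d) := by
  unfold gaussBump
  have := continuous_gk (d := d) 1
  fun_prop

lemma gaussBump_nonneg (d : ℕ) (x : Eu d) : 0 ≤ gaussBump d x :=
  mul_nonneg (inv_nonneg.mpr (integral_gk_pos (d := d)).le) (gk_pos 1 x).le

lemma integrable_gk_quad {u : Eu d → ℝ} (hui : Integrable u) :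
    Integrable (fun p : Eu d × Eu d => u p.1 * gk 1 (p.1 - p.2) * u p.2) := by
  have h2 : Integrable (fun p : Eu d × Eu d => u p.1 * u p.2) := hui.mul_prod hui
  have hc : Continuous (fun p : Eu d × Eu d => gk 1 (p.1 - p.2)) := by
    have := continuous_gk (d := d) 1
    fun_prop
  have h3 := h2.bdd_mul (f := fun p : Eu d × Eu d => gk 1 (p.1 - p.2)) (c := 1)
    hc.aestronglyMeasurable
    (Eventually.of_forall fun q => by
      rw [Real.norm_of_nonneg (gk_pos _ _).le]; exact gk_le_one _ _)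
  refine h3.congr ?_
  filter_upwards with p
  ring

lemma gaussBump_posDef (d : ℕ) : IsPosDef (gaussBump d) := by
  have hpos := integral_gk_pos (d := d)
  constructor
  · intro x
    unfold gaussBump
    rw [gk_neg]
  · intro u hu hcs
    have hui : Integrable u := hu.integrable_of_hasCompactSupport hcs
    have h1 := gk_posDef 1 hui
    have h4 : ∫ x, ∫ y, u x * gaussBump d (x - y) * u y
        = (∫ z : Eu d, gk 1 z)⁻¹ * ∫ p : Eu d × Eu d, u p.1 * gk 1 (p.1 - p.2) * u p.2 := by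
      rw [Measure.volume_eq_prod, integral_prod _ (integrable_gk_quad hui), ← integral_const_mul]
      congr 1
      funext x
      rw [← integral_const_mul]
      congr 1
      funext y
      unfold gaussBump
      ring
    rw [h4]
    exact mul_nonneg (inv_nonneg.mpr hpos.le) h1

lemma pow_mul_gk_le (k : ℕ) (x : Eu d) : ‖x‖ ^ k * gk 1 x ≤ 1 + 2 ^ k * (k.factorial : ℝ) := by
  have hg := gk_pos 1 x
  have hg1 := gk_le_one 1 x
  have h3 : gk 1 x * Real.exp (‖x‖ ^ 2 / 2) = 1 := by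
    unfold gk
    rw [← Real.exp_add]
    have : -(1 * ‖x‖) ^ 2 / 2 + ‖x‖ ^ 2 / 2 = 0 := by ring
    rw [this, Real.exp_zero]
  have ht0 : 0 ≤ ‖x‖ := norm_nonneg x
  generalize ‖x‖ = t at *
  generalize gk 1 x = g at *
  have hfac : (0:ℝ) < k.factorial := by exact_mod_cast k.factorial_pos
  rcases le_total t 1 with h | h
  · have h2 : t ^ k ≤ 1 := pow_le_one₀ ht0 h
    have h3 : t ^ k * g ≤ 1 := mul_le_one₀ h2 hg.le hg1
    have : 0 ≤ 2 ^ k * (k.factorial : ℝ) := by positivity
    linarith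
  · have h2 := Real.pow_div_factorial_le_exp (t ^ 2 / 2) (by positivity) k
    have h4 : t ^ k ≤ t ^ (2 * k) := pow_le_pow_right₀ h (by omega)
    have h5 : (t ^ 2 / 2) ^ k = t ^ (2 * k) / 2 ^ k := by
      rw [div_pow, ← pow_mul]
    rw [h5, div_div, div_le_iff₀ (by positivity)] at h2
    have h6 : t ^ k * g ≤ (Real.exp (t ^ 2 / 2) * (2 ^ k * k.factorial)) * g :=
      mul_le_mul_of_nonneg_right (h4.trans h2) hg.le
    have h7 : (Real.exp (t ^ 2 / 2) * (2 ^ k * (k.factorial : ℝ))) * g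
        = (g * Real.exp (t ^ 2 / 2)) * (2 ^ k * (k.factorial : ℝ)) := by ring
    rw [h7, h3] at h6
    linarith

theorem isBump_gauss (d : ℕ) : IsBump (gaussBump d) where
  continuous := gaussBump_continuous d
  nonneg := gaussBump_nonneg d
  posDef := gaussBump_posDef d
  integral_eq_one := by
    unfold gaussBump
    rw [integral_const_mul]
    exact inv_mul_cancel₀ (integral_gk_pos (d := d)).ne'
  decay := by
    intro k
    refine ⟨(∫ z : Eu d, gk 1 z)⁻¹ * (1 + 2 ^ k * (k.factorial : ℝ)), ?_⟩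
    intro x
    unfold gaussBump
    have h2 : ‖x‖ ^ k * ((∫ z : Eu d, gk 1 z)⁻¹ * gk 1 x)
        = (∫ z : Eu d, gk 1 z)⁻¹ * (‖x‖ ^ k * gk 1 x) := by ring
    rw [h2]
    exact mul_le_mul_of_nonneg_left (pow_mul_gk_le k x)
      (inv_nonneg.mpr (integral_gk_pos (d := d)).le)

/-- The law of the total mass is unique. -/
theorem IsTotalMassLaw.unique {g : Eu d → ℝ} {μ : ℝ} {D : Set (Eu d)} {φ : Eu d → ℝ}
    {ν ν' : Measure ℝ} (h : IsTotalMassLaw g μ D φ ν) (h' : IsTotalMassLaw g μ D φ ν') :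
    ν' = ν := by
  have := h.isProbabilityMeasure
  have := h'.isProbabilityMeasure
  -- a family of fields at the scales `ε > 0`
  obtain ⟨Ω', mΩ', P', ω', hω'⟩ : ∃ (Ω' : ℝ → Type) (_ : ∀ ε, MeasurableSpace (Ω' ε))
      (P' : ∀ ε, Measure (Ω' ε)) (ω' : ∀ ε, Eu d → Ω' ε → ℝ),
      ∀ ε, 0 < ε → IsField (P' ε) (ω' ε) (fun z => μ * mollify (gaussBump d) ε g z) := by
    have hex : ∀ ε : ℝ, ∃ (Ω : Type) (_ : MeasurableSpace Ω) (P : Measure Ω)
        (ω : Eu d → Ω → ℝ), 0 < ε → IsField P ω (fun z => μ * mollify (gaussBump d) ε g z) := by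
      intro ε
      by_cases hε : 0 < ε
      · obtain ⟨Ω, mΩ, P, ω, -, hω⟩ := h.exists_field _ (isBump_gauss d) ε hε
        exact ⟨Ω, mΩ, P, ω, fun _ => hω⟩
      · exact ⟨Unit, inferInstance, 0, fun _ _ => 0, fun h => absurd h hε⟩
    choose Ω mΩ P ω hω using hex
    exact ⟨Ω, mΩ, P, ω, hω⟩
  apply ext_of_forall_integral_eq_of_IsFiniteMeasure
  intro F
  exact tendsto_nhds_unique (h'.tendsto _ (isBump_gauss d) Ω' mΩ' P' ω' hω' F)
    (h.tendsto _ (isBump_gauss d) Ω' mΩ' P' ω' hω' F)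

/-- The reference measure of a weight on a ball. -/
noncomputable def refM (x₀ : Eu d) (r : ℝ) (φ : Eu d → ℝ) : Measure (Eu d) :=
  (volume.restrict (Metric.ball x₀ r)).withDensity (fun x => ENNReal.ofReal (φ x))

lemma refM_isRef {x₀ : Eu d} {r : ℝ} (hr : 0 < r) {φ : Eu d → ℝ}
    (hφc : ContinuousOn φ (Metric.closedBall x₀ r)) (hφ : ∀ x ∈ Metric.ball x₀ r, 0 < φ x) :
    ∃ C c₀ : ℝ≥0, IsRef (refM x₀ r φ) x₀ r C c₀ := by
  obtain ⟨C, hC⟩ := (isCompact_closedBall x₀ r).exists_bound_of_continuousOn hφc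
  have hsub : Metric.closedBall x₀ (r / 2) ⊆ Metric.ball x₀ r :=
    Metric.closedBall_subset_ball (by linarith)
  obtain ⟨xm, hxm, hmin⟩ := (isCompact_closedBall x₀ (r / 2)).exists_isMinOn
    ⟨x₀, Metric.mem_closedBall_self (by linarith)⟩
    (hφc.mono (hsub.trans Metric.ball_subset_closedBall))
  have hc0 : 0 < φ xm := hφ xm (hsub hxm)
  refine ⟨C.toNNReal, (φ xm).toNNReal, ?_⟩
  have hC' : ((C.toNNReal : ℝ≥0) : ℝ≥0∞) = ENNReal.ofReal C := rfl
  have hc' : (((φ xm).toNNReal : ℝ≥0) : ℝ≥0∞) = ENNReal.ofReal (φ xm) := rfl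
  have hle : refM x₀ r φ ≤ ((C.toNNReal : ℝ≥0) : ℝ≥0∞) • (volume.restrict (Metric.ball x₀ r)) := by
    rw [← withDensity_const, hC']
    apply withDensity_mono
    filter_upwards [ae_restrict_mem Metric.isOpen_ball.measurableSet] with x hx
    apply ENNReal.ofReal_le_ofReal
    exact (le_abs_self _).trans (hC x (Metric.ball_subset_closedBall hx))
  refine ⟨?_, hr, Real.toNNReal_pos.mpr hc0, hle, ?_⟩
  · constructor
    refine lt_of_le_of_lt (hle univ) ?_
    rw [Measure.smul_apply, Measure.restrict_apply MeasurableSet.univ, univ_inter, smul_eq_mul]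
    exact ENNReal.mul_lt_top ENNReal.coe_lt_top measure_ball_lt_top
  · rw [← withDensity_const, hc']
    calc (volume.restrict (Metric.closedBall x₀ (r / 2))).withDensity
          (fun _ => ENNReal.ofReal (φ xm))
        ≤ (volume.restrict (Metric.closedBall x₀ (r / 2))).withDensity
          (fun x => ENNReal.ofReal (φ x)) := by
          apply withDensity_mono
          filter_upwards [ae_restrict_mem Metric.isClosed_closedBall.measurableSet] with x hx
          exact ENNReal.ofReal_le_ofReal (hmin hx)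
      _ = (volume.withDensity (fun x => ENNReal.ofReal (φ x))).restrict
          (Metric.closedBall x₀ (r / 2)) :=
          (restrict_withDensity Metric.isClosed_closedBall.measurableSet _).symm
      _ ≤ (volume.withDensity (fun x => ENNReal.ofReal (φ x))).restrict (Metric.ball x₀ r) :=
          Measure.restrict_mono hsub le_rfl
      _ = refM x₀ r φ := restrict_withDensity Metric.isOpen_ball.measurableSet _

lemma refM_integral {x₀ : Eu d} {r : ℝ} {φ : Eu d → ℝ}
    (hφc : ContinuousOn φ (Metric.closedBall x₀ r)) (hφ : ∀ x ∈ Metric.ball x₀ r, 0 < φ x)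
    (f : Eu d → ℝ) : ∫ x in Metric.ball x₀ r, φ x * f x = ∫ x, f x ∂(refM x₀ r φ) := by
  unfold refM
  have hm : AEMeasurable φ (volume.restrict (Metric.ball x₀ r)) :=
    (hφc.mono Metric.ball_subset_closedBall).aemeasurable Metric.isOpen_ball.measurableSet
  rw [integral_withDensity_eq_integral_toReal_smul₀ hm.ennreal_ofReal
    (Eventually.of_forall fun x => ENNReal.ofReal_lt_top)]
  apply integral_congr_ae
  filter_upwards [ae_restrict_mem Metric.isOpen_ball.measurableSet] with x hx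
  rw [ENNReal.toReal_ofReal (hφ x hx).le, smul_eq_mul]

lemma exp_nat_mul_log {m : ℝ} (hm : 0 < m) (k : ℕ) : Real.exp ((k : ℝ) * Real.log m) = m ^ k := by
  rw [Real.exp_nat_mul, Real.exp_log hm]

/-- the logarithm of a positive random variable whose moments violate the inequality is not
infinitely divisible -/
lemma not_isInfDiv {M : (ℕ → ℝ) → ℝ} (hM : Measurable M) (hpos : NoiseP {a | M a ≤ 0} = 0)
    {Λ b₂ a₃ b₄ : ℝ} (i4 : Integrable (fun a => M a ^ 4) NoiseP)
    (h4 : ∫ a, M a ^ 4 ∂NoiseP ≤ b₄) (h2 : ∫ a, M a ^ 2 ∂NoiseP ≤ b₂)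
    (h3 : a₃ ≤ ∫ a, M a ^ 3 ∂NoiseP) (h1 : ∫ a, M a ∂NoiseP = Λ) (ha₃ : 0 ≤ a₃)
    (hviol : b₄ * b₂ ^ 6 < a₃ ^ 4 * Λ ^ 4) :
    ¬ IsInfDiv ((NoiseP.map M).map Real.log) := by
  intro hID
  have hae : ∀ᵐ a ∂NoiseP, 0 < M a := by
    rw [ae_iff]
    simpa only [not_lt] using hpos
  have hlm : Measurable (fun a => Real.log (M a)) := Real.measurable_log.comp hM
  have hmap : (NoiseP.map M).map Real.log = NoiseP.map (fun a => Real.log (M a)) := by
    rw [Measure.map_map Real.measurable_log hM]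
    rfl
  rw [hmap] at hID
  have hmom : ∀ k : ℕ, ∫ x, Real.exp ((k:ℝ) * x) ∂(NoiseP.map (fun a => Real.log (M a)))
      = ∫ a, M a ^ k ∂NoiseP := by
    intro k
    rw [integral_map hlm.aemeasurable (by fun_prop)]
    apply integral_congr_ae
    filter_upwards [hae] with a ha
    exact exp_nat_mul_log ha k
  have hfin : ∫⁻ x, ENNReal.ofReal (Real.exp (4 * x)) ∂(NoiseP.map (fun a => Real.log (M a)))
      ≠ ∞ := by
    rw [lintegral_map (by fun_prop) hlm]
    have h5 := i4.lintegral_lt_top.ne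
    convert h5 using 1
    apply lintegral_congr_ae
    filter_upwards [hae] with a ha
    have h6 := exp_nat_mul_log ha 4
    rw [← h6]
    norm_num
  have key := hID.moments hfin
  have e4 := hmom 4
  have e3 := hmom 3
  have e2 := hmom 2
  have e1 := hmom 1
  simp only [Nat.cast_ofNat, Nat.cast_one, pow_one] at e4 e3 e2 e1
  rw [e4, e3, e2, e1, h1] at key
  have g4 : 0 ≤ ∫ a, M a ^ 4 ∂NoiseP := integral_nonneg (fun a => by positivity)
  have g2 : 0 ≤ ∫ a, M a ^ 2 ∂NoiseP := integral_nonneg (fun a => by positivity)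
  have u1 : a₃ ^ 4 * Λ ^ 4 ≤ (∫ a, M a ^ 3 ∂NoiseP) ^ 4 * Λ ^ 4 := by gcongr
  have u2 : (∫ a, M a ^ 4 ∂NoiseP) * (∫ a, M a ^ 2 ∂NoiseP) ^ 6 ≤ b₄ * b₂ ^ 6 := by
    have : 0 ≤ b₄ := g4.trans h4
    gcongr
  linarith

end Pool.Agent.H87.GMC
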